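import Pool.Agent.TH344.JG.Exp
import Pool.Agent.TH841.PT.Stm

/-!
# Project PW: expansion of the moments of the local count into symbols, with a weight

The identity `S_EXPB` of `Pool/Agent/TH344/PW/Stm.lean`, stated in full (`expb_full`).
-/

set_option autoImplicit false

namespace Pool.Agent.TH344.PW.EXB

open Finset Pool.Agent.W262.RK Pool.Agent.W108.RK Pool.Agent.W762.RK2 Pool.Agent.TH344.JG
  Pool.Agent.TH344.JG.EX Pool.Agent.TH841.PT

variable {V : Type} [Fintype V] [DecidableEq V] {z y k : ℕ}

lemma prod_gp {ι : Type} [Fintype ι] [DecidableEq ι] (w : ι → ℕ → ℝ) (c : ℕ)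
    (l : Pr z y → Option ι) :
    ∏ i, gp (w i) c (Dl l i) = ∏ p : Pr z y, (l p).elim 1 fun i => w i p / ((p : ℝ) - c) := by
  have h1 : ∀ i, gp (w i) c (Dl l i) = ∏ p : Pr z y,
      if l p = some i then w i p / ((p : ℝ) - c) else 1 := by
    intro i
    unfold gp Dl
    rw [prod_pf _ fun p : ℕ => w i p / ((p : ℝ) - c)]
    simp only [decide_eq_true_eq]
  rw [Finset.prod_congr rfl fun i _ => h1 i, Finset.prod_comm]
  refine Finset.prod_congr rfl fun p _ => ?_
  cases h : l p with
  | none => simp
  | some j => simp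

/-- the adjacency of the indices with types -/
def ad2 (ad : V → V → Bool) (i i' : V × Bool) : Bool := ad i.1 i'.1

/-- forget the type -/
def f0 (x : Option ((V × Bool) × (Fin k → Bool))) : Option (V × (Fin k → Bool)) :=
  x.map fun r => (r.1.1, r.2)

/-- the local condition, the sign given by a set -/
lemma NV_pow (ad : V → V → Bool) {s : V → ℕ} (hs : s ∈ Tup V z y) (E : Finset ℕ) :
    (NV ad s E : ℝ) ^ k =
      ∑ w ∈ Fintype.piFinset
        (fun _ : Fin k => (∏ j, s j).primeFactors.powerset),
        ∏ p ∈ (∏ j, s j).primeFactors, ∏ a, ind (Cd ad s (w a) (decide (p ∈ E)) p) := by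
  classical
  have hne : ∏ j, s j ≠ 0 := Finset.prod_ne_zero_iff.2 fun j _ => (sqf_of_mem hs j).ne_zero
  have h0 : (NV ad s E : ℝ) =
      ∑ w ∈ (∏ j, s j).primeFactors.powerset,
        ∏ p ∈ (∏ j, s j).primeFactors, ind (Cd ad s w (decide (p ∈ E)) p) := by
    unfold NV
    rw [Finset.card_filter]
    push_cast
    refine Finset.sum_congr rfl fun w _ => ?_
    rw [prod_ind]
    unfold ind
    congr 1
    apply propext
    unfold Cd
    simp only [decide_eq_true_eq]
    constructor
    · intro h p hp c hpc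
      refine (lift_prod ad s w c p).symm.trans (h c p (Nat.mem_primeFactors.2
        ⟨Nat.prime_of_mem_primeFactors hp, hpc, (sqf_of_mem hs c).ne_zero⟩))
    · intro h c p hp
      refine (lift_prod ad s w c p).trans (h p (Nat.mem_primeFactors.2
        ⟨Nat.prime_of_mem_primeFactors hp, ?_, hne⟩) c (Nat.dvd_of_mem_primeFactors hp))
      exact (Nat.dvd_of_mem_primeFactors hp).trans (Finset.dvd_prod_of_mem _ (Finset.mem_univ c))
  have h2 : (NV ad s E : ℝ) ^ k = ∏ _a : Fin k, (NV ad s E : ℝ) := by
    rw [Finset.prod_const, Finset.card_univ, Fintype.card_fin]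
  rw [h2, Finset.prod_congr rfl fun a _ => h0, Finset.prod_univ_sum]
  refine Finset.sum_congr rfl fun d _ => ?_
  rw [Finset.prod_comm]

/-- the symbols depend on the labels without types only -/
lemma SS_f0 (ad : V → V → Bool) (ξ : Pr z y → Option ((V × Bool) × (Fin k → Bool))) (a : Fin k)
    (c : V × Bool) (p : Pr z y) :
    SS (ad2 ad) ξ a c p = SS ad (fun p => f0 (ξ p)) a c.1 p := by
  unfold EX.SS
  refine Finset.prod_congr rfl fun q _ => ?_
  beta_reduce
  generalize ξ q = r
  cases r with
  | none => rfl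
  | some r => rfl

/-- the local term for the labels with types -/
noncomputable def T1 (ad : V → V → Bool) (g : V × Bool → ℕ → ℝ) (c : ℕ)
    (ξ : Pr z y → Option (V × (Fin k → Bool))) (p : Pr z y)
    (x : Option ((V × Bool) × (Fin k → Bool))) : ℝ :=
  x.elim 1 fun r => g r.1 p / ((p : ℝ) - c) *
    ∏ a, ind (SS ad ξ a r.1.1 p = if (r.2 a && r.1.2) = true then (-1 : ℝ) else 1)

/-- the products of the two types -/
lemma ST_mul (ξ : Pr z y → Option ((V × Bool) × (Fin k → Bool))) (v : V) :
    ST ξ (v, false) * ST ξ (v, true) = ST (fun p => f0 (ξ p)) v := by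
  unfold EX.ST Dl nb
  rw [← Finset.prod_mul_distrib]
  refine Finset.prod_congr rfl fun p _ => ?_
  beta_reduce
  generalize ξ p = r
  cases r with
  | none => simp [f0]
  | some r =>
    obtain ⟨⟨v', b⟩, x⟩ := r
    by_cases hv : v' = v
    · subst hv
      cases b <;> simp [f0]
    · cases b <;> simp [f0, hv]

lemma lhsB (ad : V → V → Bool) (c : ℕ) (g : V × Bool → ℕ → ℝ) (Φ : (V → ℕ) → ℝ) :
    ∑ s ∈ Tup (V × Bool) z y,
      (NV (ad2 ad) s (∏ v, s (v, true)).primeFactors : ℝ) ^ k *
        (∏ i, gp (g i) c (s i)) * Φ (fun v => s (v, false) * s (v, true)) =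
      ∑ ξ : Pr z y → Option ((V × Bool) × (Fin k → Bool)),
        (∏ p, T1 ad g c (fun p => f0 (ξ p)) p (ξ p)) * Φ (ST (fun p => f0 (ξ p))) := by
  classical
  have h1 : ∀ s ∈ Tup (V × Bool) z y,
      (NV (ad2 ad) s (∏ v, s (v, true)).primeFactors : ℝ) ^ k *
        (∏ i, gp (g i) c (s i)) * Φ (fun v => s (v, false) * s (v, true)) =
      ∑ w ∈ Fintype.piFinset (fun _ : Fin k => (∏ j, s j).primeFactors.powerset),
        (∏ p ∈ (∏ j, s j).primeFactors, ∏ a, ind (Cd (ad2 ad) s (w a)
          (decide (p ∈ (∏ v, s (v, true)).primeFactors)) p)) *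
        (∏ i, gp (g i) c (s i)) * Φ (fun v => s (v, false) * s (v, true)) := by
    intro s hs
    rw [NV_pow (ad2 ad) hs, Finset.sum_mul, Finset.sum_mul]
  rw [Finset.sum_congr rfl h1, sum_bigV fun s w =>
    (∏ p ∈ (∏ j, s j).primeFactors, ∏ a, ind (Cd (ad2 ad) s (w a)
          (decide (p ∈ (∏ v, s (v, true)).primeFactors)) p)) *
        (∏ i, gp (g i) c (s i)) * Φ (fun v => s (v, false) * s (v, true))]
  refine Finset.sum_congr rfl fun ξ _ => ?_
  have h6 : (fun v => ST ξ (v, false) * ST ξ (v, true)) = ST (fun p => f0 (ξ p)) :=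
    funext fun v => ST_mul ξ v
  rw [h6]
  congr 1
  have h2 : ∏ j, gp (g j) c (ST ξ j) = ∏ p : Pr z y, ((ξ p).map Prod.fst).elim 1
      fun j => g j p / ((p : ℝ) - c) := prod_gp g c _
  rw [h2, prod_ST, prod_pf _ fun p => ∏ a, ind (Cd (ad2 ad) (ST ξ) (Wt a ξ)
          (decide (p ∈ (∏ v, ST ξ (v, true)).primeFactors)) p), ← Finset.prod_mul_distrib]
  refine Finset.prod_congr rfl fun p _ => ?_
  unfold T1
  cases hx : ξ p with
  | none => simp
  | some r =>
    obtain ⟨⟨v, b⟩, x⟩ := r
    have h5 : decide ((p : ℕ) ∈ (∏ v, ST ξ (v, true)).primeFactors) = b := by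
      rw [Bool.eq_iff_iff, decide_eq_true_iff, Nat.mem_primeFactors]
      have h7 : ∀ v', (p : ℕ) ∣ ST ξ (v', true) ↔ (v, b) = (v', true) := by
        intro v'
        rw [dvd_ST, hx]
        simp
      constructor
      · rintro ⟨_, h8, _⟩
        obtain ⟨v', _, h9⟩ := (Prime.dvd_finsetProd_iff (Pr_prime p).prime _).1 h8
        have h10 := (h7 v').1 h9
        exact (Prod.mk.inj h10).2
      · intro hb
        refine ⟨Pr_prime p, ?_, ?_⟩
        · refine Dvd.dvd.trans ((h7 v).2 (by rw [hb])) ?_
          exact Finset.dvd_prod_of_mem (fun v => ST ξ (v, true)) (Finset.mem_univ v)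
        · refine Finset.prod_ne_zero_iff.2 fun v' _ => ?_
          unfold EX.ST Dl
          exact nb_ne_zero _
    have h4 : ∀ a : Fin k, ind (Cd (ad2 ad) (ST ξ) (Wt a ξ) b p) =
        ind (SS ad (fun p => f0 (ξ p)) a v p = if (x a && b) = true then (-1 : ℝ) else 1) :=
      fun a => by rw [Cd_eval (ad2 ad) ξ a b p (v, b) x hx, SS_f0]
    rw [h5]
    simp only [h4]
    simp only [Option.map_some, Option.isSome_some, if_true, Option.elim]
    ring

/-! ### the local identity -/

/-- all the pairs -/
abbrev PA {k : ℕ} : (Fin k → Bool) → (Fin k → Bool) → Bool := fun _ _ => true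

lemma locE (S : Fin k → ℝ) (hS : ∀ a, S a = 1 ∨ S a = -1) (u : Fin k → Bool) (e : Bool) :
    ∏ a, ind (S a = if (u a && e) = true then (-1 : ℝ) else 1) =
      ∑ y : Fin k → Bool, (if dtp u y = true then sg e else 1) *
        (1 / 2 ^ k * ∏ a, (if y a = true then S a else 1)) := by
  rw [Finset.prod_congr rfl fun a _ => loc1 (S a) (hS a) (u a) e,
    Finset.prod_univ_sum, Fintype.piFinset_univ]
  refine Finset.sum_congr rfl fun y _ => ?_
  rw [Finset.prod_mul_distrib, Finset.prod_mul_distrib,
    prod_dtp _ (by cases e <;> simp [sg]), Finset.prod_const,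
    Finset.card_univ, Fintype.card_fin, one_div, one_div, inv_pow]

/-- forget the character -/
def fB (x : Option (IV V k PA)) : Option (V × (Fin k → Bool)) :=
  x.map fun i => (i.1.1, i.1.2.1)

/-- the weight -/
noncomputable def gB (g : V × Bool → ℕ → ℝ) (i : V × (Fin k → Bool) × (Fin k → Bool)) (p : ℕ) :
    ℝ :=
  (g (i.1, false) p + (if dtp i.2.1 i.2.2 = true then -1 else 1) * g (i.1, true) p) / 2 ^ k

/-- the local factor -/
noncomputable def GB (ad : V → V → Bool) (g : V × Bool → ℕ → ℝ) (c : ℕ)
    (ξ : Pr z y → Option (V × (Fin k → Bool))) (p : Pr z y) (x : Option (IV V k PA)) : ℝ :=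
  x.elim 1 fun i => gB g i.1 p / ((p : ℝ) - c) *
    ∏ a, (if i.1.2.2 a = true then SS ad ξ a i.1.1 p else 1)

omit [DecidableEq V] in
lemma sum_IVA (F : V × (Fin k → Bool) × (Fin k → Bool) → ℝ) :
    ∑ i : IV V k PA, F i.1 = ∑ r, F r :=
  (Finset.sum_subtype (p := fun i : V × (Fin k → Bool) × (Fin k → Bool) =>
    (PA i.2.1 i.2.2 : Bool) = true) univ (fun x => by simp [PA]) F).symm

/-- the local identity -/
lemma sum_B (ad : V → V → Bool) (hirr : ∀ c, ad c c = false) (g : V × Bool → ℕ → ℝ) (c : ℕ)
    (ξ : Pr z y → Option (V × (Fin k → Bool))) (p : Pr z y) :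
    ∑ x ∈ univ.filter (fun x : Option ((V × Bool) × (Fin k → Bool)) => f0 x = ξ p),
        T1 ad g c ξ p x =
      ∑ x ∈ univ.filter (fun x : Option (IV V k PA) => fB x = ξ p), GB ad g c ξ p x := by
  rw [Finset.sum_filter, Finset.sum_filter, Fintype.sum_option, Fintype.sum_option]
  cases hx : ξ p with
  | none =>
    have h1 : ∀ r : (V × Bool) × (Fin k → Bool), ¬ f0 (some r) = none := fun r => by simp [f0]
    have h2 : ∀ r : IV V k PA, ¬ fB (some r) = none := fun r => by simp [fB]
    simp only [h1, h2, if_false, Finset.sum_const_zero, add_zero]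
    simp [f0, fB, T1, GB]
  | some r =>
    obtain ⟨j, v⟩ := r
    have h0 : (if f0 (none : Option ((V × Bool) × (Fin k → Bool))) = some (j, v) then
        T1 ad g c ξ p none else 0) = 0 := by
      rw [if_neg]
      simp [f0]
    have h0' : (if fB (none : Option (IV V k PA)) = some (j, v) then
        GB ad g c ξ p none else 0) = 0 := by
      rw [if_neg]
      simp [fB]
    rw [h0, h0', zero_add, zero_add]
    have hl : ∑ x : (V × Bool) × (Fin k → Bool),
        (if f0 (some x) = some (j, v) then T1 ad g c ξ p (some x) else 0) =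
        ∑ b : Bool, g (j, b) p / ((p : ℝ) - c) *
          ∏ a, ind (SS ad ξ a j p = if (v a && b) = true then (-1 : ℝ) else 1) := by
      rw [Fintype.sum_prod_type, Fintype.sum_prod_type, Finset.sum_eq_single j]
      · refine Finset.sum_congr rfl fun b _ => ?_
        rw [Finset.sum_eq_single v]
        · rw [if_pos (by rfl)]
          rfl
        · intro v' _ hv'
          rw [if_neg]
          simp only [f0, Option.map_some, Option.some.injEq, Prod.mk.injEq, not_and]
          exact fun _ => hv'
        · intro h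
          exact absurd (Finset.mem_univ _) h
      · intro j' _ hj'
        refine Finset.sum_eq_zero fun b _ => Finset.sum_eq_zero fun x _ => ?_
        rw [if_neg]
        simp only [f0, Option.map_some, Option.some.injEq, Prod.mk.injEq, not_and]
        exact fun h => absurd h hj'
      · intro h
        exact absurd (Finset.mem_univ _) h
    set F : V × (Fin k → Bool) × (Fin k → Bool) → ℝ :=
      fun r : V × (Fin k → Bool) × (Fin k → Bool) =>
          if r.1 = j ∧ r.2.1 = v then gB g r p / ((p : ℝ) - c) *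
            ∏ a, (if r.2.2 a = true then SS ad ξ a r.1 p else 1) else 0 with hF
    have h1 : ∀ i : IV V k PA, (if fB (some i) = some (j, v) then GB ad g c ξ p (some i) else 0) =
        F i.1 := by
      intro i
      refine if_congr ?_ rfl rfl
      simp only [fB, Option.map_some, Option.some.injEq, Prod.mk.injEq]
    have hr : ∑ x : IV V k PA,
        (if fB (some x) = some (j, v) then GB ad g c ξ p (some x) else 0) =
        ∑ y : Fin k → Bool, gB g (j, v, y) p / ((p : ℝ) - c) *
            ∏ a, (if y a = true then SS ad ξ a j p else 1) := by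
      refine (Finset.sum_congr rfl fun i _ => h1 i).trans ((sum_IVA F).trans ?_)
      rw [Fintype.sum_prod_type, Finset.sum_eq_single j]
      · rw [Fintype.sum_prod_type, Finset.sum_eq_single v]
        · refine Finset.sum_congr rfl fun y _ => ?_
          simp only [hF, and_self, if_true]
        · intro v' _ hv'
          refine Finset.sum_eq_zero fun x _ => ?_
          simp [hF, hv']
        · intro h
          exact absurd (Finset.mem_univ _) h
      · intro j' _ hj'
        refine Finset.sum_eq_zero fun x _ => ?_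
        simp [hF, hj']
      · intro h
        exact absurd (Finset.mem_univ _) h
    refine hl.trans (Eq.trans ?_ hr.symm)
    simp only [locE (fun a => SS ad ξ a j p) (fun a => SS_sq ad hirr ξ a p j v hx) v]
    rw [Fintype.sum_bool, Finset.mul_sum, Finset.mul_sum, ← Finset.sum_add_distrib]
    refine Finset.sum_congr rfl fun y _ => ?_
    unfold gB
    cases h : dtp v y
    · simp only [Bool.false_eq_true, if_false]
      ring
    · simp only [if_true, sg, Bool.false_eq_true, if_false]
      ring

/-! ### the right hand side -/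

lemma rhsB (ad : V → V → Bool) (hirr : ∀ c, ad c c = false) (hsym : ∀ c c', ad c c' = ad c' c)
    (g : V × Bool → ℕ → ℝ) (c : ℕ) (ξ : Pr z y → Option (V × (Fin k → Bool)))
    (l : Pr z y → Option (IV V k PA)) (h : ∀ p, fB (l p) = ξ p) :
    (∏ i : IV V k PA, gp (fun p => gB g i.1 p) c (Dl l i)) *
      Pool.Agent.W262.RK.Sym (LV ad) (fun _ => 1) (Dl l) = ∏ p, GB ad g c ξ p (l p) := by
  rw [prod_gp (fun i : IV V k PA => fun p => gB g i.1 p), Sym_Dl, ← Finset.prod_mul_distrib,
    ← Finset.prod_mul_distrib]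
  refine Finset.prod_congr rfl fun p _ => ?_
  have hJ1 : Jr 1 (p : ℕ) = 1 := Jr_one_left p
  cases hl : l p with
  | none =>
    have h0 : ∀ q, Pool.Agent.W762.RK2.lk (LV ad) (l q) (none : Option (IV V k PA)) = false := by
      intro q
      cases l q <;> rfl
    simp [h0, GB]
  | some i =>
    have h2 : ∏ q : Pr z y, (if Pool.Agent.W762.RK2.lk (LV ad) (l q) (some i) = true
        then Jr (q : ℕ) p else 1) =
        ∏ a, (if i.1.2.2 a = true then SS ad ξ a i.1.1 p else 1) := by
      have h3 : ∀ a : Fin k, (if i.1.2.2 a = true then SS ad ξ a i.1.1 p else 1) =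
          ∏ q : Pr z y, if i.1.2.2 a = true then
            (if (bt a (ξ q) && ao ad i.1.1 (ξ q)) = true then Jr (q : ℕ) p else 1) else 1 := by
        intro a
        by_cases ha : i.1.2.2 a = true
        · simp only [if_pos ha]
          rfl
        · simp only [if_neg ha, Finset.prod_const_one]
      simp only [h3]
      rw [Finset.prod_comm]
      refine Finset.prod_congr rfl fun q _ => ?_
      cases hq : l q with
      | none =>
        have h5 : ξ q = none := by rw [← h q, hq]; rfl
        simp [Pool.Agent.W762.RK2.lk, h5, bt]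
      | some i' =>
        have h5 : ξ q = some (i'.1.1, i'.1.2.1) := by
          rw [← h q, hq]; rfl
        have e1 : ∀ a, bt a (ξ q) = i'.1.2.1 a := fun a => by rw [h5]; rfl
        have e2 : ao ad i.1.1 (ξ q) = ad i.1.1 i'.1.1 := by rw [h5]; rfl
        simp only [e1, e2]
        have h7 : Pool.Agent.W762.RK2.lk (LV ad) (some i') (some i) =
            (ad i'.1.1 i.1.1 && dtp i'.1.2.1 i.1.2.2) := rfl
        rw [h7, hsym i'.1.1 i.1.1]
        by_cases hc : ad i.1.1 i'.1.1 = true
        · have hqp : q ≠ p := by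
            rintro rfl
            rw [hl] at hq
            have : i = i' := Option.some.inj hq
            rw [this, hirr] at hc
            exact absurd hc (by simp)
          rw [hc, Bool.true_and, ← prod_dtp (Jr (q : ℕ) p) (Pool.Agent.W125.RS.Jr_self_mul hqp)
            i'.1.2.1 i.1.2.2]
          refine Finset.prod_congr rfl fun a _ => ?_
          cases i'.1.2.1 a <;> cases i.1.2.2 a <;> simp
        · have hc' : ad i.1.1 i'.1.1 = false := by simpa using hc
          rw [hc']
          simp
    rw [h2]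
    simp only [GB, Option.elim, hJ1]
    ring

/-- the tuple from the labelling -/
lemma ST_eqB (ξ : Pr z y → Option (V × (Fin k → Bool))) (l : Pr z y → Option (IV V k PA))
    (h : ∀ p, fB (l p) = ξ p) (j : V) :
    ∏ i ∈ univ.filter (fun i : IV V k PA => i.1.1 = j), Dl l i = ST ξ j := by
  unfold EX.ST Dl nb
  rw [Finset.prod_comm]
  refine Finset.prod_congr rfl fun p _ => ?_
  beta_reduce
  have hp := h p
  generalize ξ p = r at hp
  subst hp
  cases hl : l p with
  | none => simp [fB]
  | some i =>
    have e1 : (Option.map Prod.fst (fB (some i)) : Option V) = some i.1.1 := by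
      simp [fB]
    rw [e1]
    by_cases hi : i.1.1 = j
    · rw [Finset.prod_eq_single i]
      · simp [hi]
      · intro b _ hb
        rw [if_neg]
        simp only [decide_eq_true_eq, Option.some.injEq]
        exact fun h' => hb h'.symm
      · intro h'
        exact absurd (by rw [Finset.mem_filter]; exact ⟨Finset.mem_univ _, hi⟩) h'
    · rw [if_neg (by simpa using hi)]
      refine Finset.prod_eq_one fun b hb => ?_
      rw [if_neg]
      simp only [decide_eq_true_eq, Option.some.injEq]
      rintro rfl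
      exact hi (Finset.mem_filter.1 hb).2

/-- `S_EXPB` of `Pool/Agent/TH344/PW/Stm.lean`, in full -/
theorem expb_full (V : Type) [Fintype V] [DecidableEq V] (ad : V → V → Bool)
    (hirr : ∀ c, ad c c = false) (hsym : ∀ c c', ad c c' = ad c' c) (k c z y : ℕ)
    (g : V × Bool → ℕ → ℝ) (Φ : (V → ℕ) → ℝ) (_hz : 2 ≤ z) :
  ∑ s ∈ Tup (V × Bool) z y,
      (NV (fun i i' : V × Bool => ad i.1 i'.1) s (∏ v, s (v, true)).primeFactors : ℝ) ^ k *
        (∏ i, gp (g i) c (s i)) * Φ (fun v => s (v, false) * s (v, true)) =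
    ∑ d ∈ Tup (IV V k (fun _ _ => true)) z y,
      (∏ i : IV V k (fun _ _ => true), gp (fun p => (g (i.1.1, false) p +
        (if dtp i.1.2.1 i.1.2.2 = true then -1 else 1) * g (i.1.1, true) p) / 2 ^ k) c (d i)) *
      Sym (LV ad) (fun _ => 1) d *
      Φ (fun v => ∏ i ∈ univ.filter (fun i : IV V k (fun _ _ => true) => i.1.1 = v), d i) := by
  classical
  refine (lhsB ad c g Φ).trans ?_
  rw [sum_Tup, ← Finset.sum_fiberwise univ
    (fun (l : Pr z y → Option (IV V k PA)) => fun p => fB (l p)),
    ← Finset.sum_fiberwise univ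
    (fun (l : Pr z y → Option ((V × Bool) × (Fin k → Bool))) => fun p => f0 (l p))]
  refine Finset.sum_congr rfl fun ξ _ => ?_
  have h1 : (univ.filter fun l : Pr z y → Option (IV V k PA) => (fun p => fB (l p)) = ξ) =
      Fintype.piFinset (fun p => univ.filter (fun x : Option (IV V k PA) => fB x = ξ p)) := by
    ext l
    simp only [Finset.mem_filter, Finset.mem_univ, true_and, Fintype.mem_piFinset, funext_iff]
  have h2 : (univ.filter fun l : Pr z y → Option ((V × Bool) × (Fin k → Bool)) =>
      (fun p => f0 (l p)) = ξ) =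
      Fintype.piFinset (fun p => univ.filter
        (fun x : Option ((V × Bool) × (Fin k → Bool)) => f0 x = ξ p)) := by
    ext l
    simp only [Finset.mem_filter, Finset.mem_univ, true_and, Fintype.mem_piFinset, funext_iff]
  have h3 : ∑ l ∈ univ.filter (fun l : Pr z y → Option ((V × Bool) × (Fin k → Bool)) =>
      (fun p => f0 (l p)) = ξ), (∏ p, T1 ad g c (fun p => f0 (l p)) p (l p)) *
        Φ (ST (fun p => f0 (l p))) = (∏ p, ∑ x ∈ univ.filter
        (fun x : Option ((V × Bool) × (Fin k → Bool)) => f0 x = ξ p), T1 ad g c ξ p x) *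
        Φ (ST ξ) := by
    rw [Finset.prod_univ_sum, Finset.sum_mul, h2]
    refine Finset.sum_congr rfl fun l hl => ?_
    rw [Fintype.mem_piFinset] at hl
    have hl' : (fun p => f0 (l p)) = ξ := funext fun p => (Finset.mem_filter.1 (hl p)).2
    rw [hl']
  refine h3.trans ?_
  rw [Finset.prod_congr rfl fun p _ => sum_B ad hirr g c ξ p, Finset.prod_univ_sum,
    Finset.sum_mul, h1]
  refine Finset.sum_congr rfl fun l hl => ?_
  rw [Fintype.mem_piFinset] at hl
  have hl' : ∀ p, fB (l p) = ξ p := fun p => (Finset.mem_filter.1 (hl p)).2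
  rw [← rhsB ad hirr hsym g c ξ l hl']
  have h4 : (fun v => ∏ i ∈ univ.filter (fun i : IV V k PA => i.1.1 = v), Dl l i) = ST ξ :=
    funext fun v => ST_eqB ξ l hl' v
  rw [h4]
  rfl

end Pool.Agent.TH344.PW.EXB
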