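import Pool.Agent.TH344.PW.Stm
import Pool.Agent.TH344.PW.ExpB

/-!
# Project PW: expansion of the moments of the local count into symbols, with a weight (`S_EXPB`)

Also `S_EXPJ` of project PJ (the case of the trivial weight).
-/

set_option autoImplicit false

namespace Pool.Agent.TH344.PW

theorem expb : S_EXPB := fun V _ _ ad hirr hsym k c z y g Φ hz =>
  EXB.expb_full V ad hirr hsym k c z y g Φ hz

theorem expj : Pool.Agent.TH344.PJ.S_EXPJ := fun V _ _ ad hirr hsym k c z y g hz => by
  have h := expb V ad hirr hsym k c z y g (fun _ => 1) hz
  simp only [mul_one] at h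
  exact h

end Pool.Agent.TH344.PW
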