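import Mathlib
import Pool.Agent.TH841.PT.Avg3G
import Pool.Agent.TH841.PT.ATS2
import Pool.Agent.TH344.JG.Stm
import Pool.Agent.TH344.PJ.Stm

/-!
# Project PW: all the moments in one-parameter families, outside of a set of density zero

`J_t` is the Jacobian of `y² = ∏ (x - u_i(t))`, `u_0, ..., u_(2g)` polynomials with integer
coefficients such that each difference `u_i - u_j` is a constant times a product of `ν_c ≥ 1`
irreducible polynomials, `c = (i, j)`, all these polynomials (for all pairs) being pairwise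
non-associated, and the numbers `ν_c` are balanced (`Bal`; for `g = 1`: the strict triangle
inequalities). There is a set `Z` of integers of density zero, uniformly in all intervals
`(N, N + X]`, `|N| ≤ X ^ B`, such that for every `k` the `k`-th moment of the orders of the 2-Selmer
groups over the `t` of such an interval outside of `Z` is bounded. Follows projects PT, DT, JG, PJ.
-/

set_option autoImplicit false

namespace Pool.Agent.TH344.PW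

open Finset Polynomial Pool.Agent.W262.RK Pool.Agent.W307.RT Pool.Agent.W307.RS
open Pool.Agent.TH841.PT Pool.Agent.TH344.JG Pool.Agent.TH344.PJ

open Pool.Agent.H474R2.PG (rho)

/-! ### Abstract part -/

/-- PW-FUL: the sums of arbitrary nonnegative bounded weights over all and over the small
divisors. -/
def S_FULS : Prop := ∀ (v : ℕ → ℝ) (c z : ℕ) (B : ℝ), (∀ p, 0 ≤ v p ∧ v p ≤ B) → 2 * c + 2 ≤ z →
  ∃ (C : ℝ) (E : ℕ), 1 ≤ C ∧
  (∀ y, z < y → ∑ d ∈ (PP z y).divisors, gp v c d ≤ C * Real.exp (Sp v z y)) ∧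
  (∀ y V : ℕ, z < y → 2 ≤ V →
    ∑ d ∈ (PP z y).divisors.filter (fun d => d ≤ V), gp v c d ≤ C * (Real.log V) ^ E)

/-- PW-LNK: two linked large variables, with an arbitrary bounded weight that depends on the numbers
of the prime factors only. -/
def S_LNKS : Prop := ∀ (ι : Type) [Fintype ι] [DecidableEq ι] (σ g : ι → ℕ → ℝ)
  (L : ι → ι → Bool) (κ : ι → ℤ) (c z : ℕ) (C E0 C2 : ℝ) (E2 A : ℕ) (π : ι → Fin 4) (i j : ι),
  ATS8.Bd σ g κ c z C E0 → 0 ≤ C2 → AT.BW C2 E2 → (∀ i, L i i = false) →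
  6 * (Fintype.card ι + 2 * E2 + 4) ≤ A → π i = 2 → π j = 2 → L i j ≠ L j i →
  ∃ C' : ℝ, ∀ φ : (ι → ℕ) → ℝ, (∀ n, |φ n| ≤ 1) → ∀ y, z < y →
    |∑ d ∈ Fintype.piFinset
        (fun b => AT.cell z y (AT.VV A (Real.log y)) (AT.YY A (Real.log y)) (π b)),
      ATS8.HG σ L κ c d * φ (DT.om d)| ≤ C'

/-- PW-ATW: the abstract bound `ATS` with the weight `DT.rho`. -/
def S_ATSW : Prop := ∀ (J ι : Type) [Fintype J] [DecidableEq J] [Fintype ι] [DecidableEq ι]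
  (cls : ι → J) (a b : ι → ℕ → ℝ) (L : ι → ι → Bool) (c z : ℕ) (δ C0 E0 : ℝ) (M : ℕ → ℝ)
  (T : Finset (J → ℝ)),
  (∀ i p, |a i p| ≤ b i p ∧ b i p ≤ 1 / 2) → (∀ i, L i i = false) → 2 * c + 2 ≤ z → 0 < δ →
  0 ≤ E0 → (∀ t ∈ T, ∀ j, 0 < t j) →
  (∀ i y, z < y → δ * Real.log (Real.log y) ≤ Sp (b i) z y + C0) →
  (∀ y, z < y → 0 ≤ M y) →
  (∀ U : Finset ι, (∀ i ∈ U, ∀ j ∈ U, L i j = L j i) →
    (∃ t ∈ T, ∃ η C1 : ℝ, 0 < η ∧ ∀ y, z < y →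
      ∑ i ∈ U, t (cls i) * Sp (b i) z y + η * Real.log (Real.log y) ≤ M y + C1) ∨
    ((∀ y, z < y → ∑ i ∈ U, Sp (b i) z y ≤ M y) ∧
      (∀ t ∈ T, ∃ θ η C1 : ℝ, 0 < θ ∧ 0 < η ∧ ∀ y, z < y →
        ∑ i ∈ U, t (cls i) ^ (-θ) * Sp (b i) z y + η * Real.log (Real.log y) ≤ M y + C1) ∧
      ∀ j, j ∉ U → ∃ i ∈ U, L i j ≠ L j i)) →
  (∀ (i : ι) (y r : ℕ) (e : Bool), z < y → 1 < r → Squarefree r →
    (∀ p : ℕ, p.Prime → p ∣ r → z < p) →
    ∑ p ∈ PS z y, a i p * (Jr p r * x4 e p) / (p : ℝ) ≤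
      1 / 2 * Sp (b i) z y + E0 * Real.log (Real.log r) + C0) →
  ∃ C : ℝ, ∀ y, z < y →
    |∑ d ∈ Tup ι z y, (∏ i, gp (a i) c (d i)) * Sym L (fun _ => 1) d *
      DT.rho T (DT.nn cls (DT.om d))| ≤ C * Real.exp (M y)

/-- PW-EXP: expansion of the moments of the local count into symbols, with a weight that depends on
the products of the two types only. -/
def S_EXPB : Prop := ∀ (V : Type) [Fintype V] [DecidableEq V] (ad : V → V → Bool),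
  (∀ c, ad c c = false) → (∀ c c', ad c c' = ad c' c) → ∀ (k c z y : ℕ) (g : V × Bool → ℕ → ℝ)
  (Φ : (V → ℕ) → ℝ), 2 ≤ z →
  ∑ s ∈ Tup (V × Bool) z y,
      (NV (fun i i' : V × Bool => ad i.1 i'.1) s (∏ v, s (v, true)).primeFactors : ℝ) ^ k *
        (∏ i, gp (g i) c (s i)) * Φ (fun v => s (v, false) * s (v, true)) =
    ∑ d ∈ Tup (IV V k (fun _ _ => true)) z y,
      (∏ i : IV V k (fun _ _ => true), gp (fun p => (g (i.1.1, false) p +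
        (if dtp i.1.2.1 i.1.2.2 = true then -1 else 1) * g (i.1.1, true) p) / 2 ^ k) c (d i)) *
      Sym (LV ad) (fun _ => 1) d *
      Φ (fun v => ∏ i ∈ univ.filter (fun i : IV V k (fun _ _ => true) => i.1.1 = v), d i)

/-- PW-CMB: the unlinked sets and the vectors, for a graph with edge weights `a` of row sums one, and
`m` copies of each index. -/
def S_CMBB : Prop := ∀ (V : Type) [Fintype V] [DecidableEq V] [Nonempty V] (ad : V → V → Bool)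
  (a : V → V → ℝ) (k m : ℕ), 1 ≤ k → 1 ≤ m → (∀ c, ad c c = false) →
  (∀ c c', ad c c' = ad c' c) → (∀ c c', a c c' = a c' c) → (∀ c c', ad c c' = true → 0 < a c c') →
  (∀ c c', ad c c' = false → a c c' = 0) → (∀ c, ∑ c', a c c' = 1) →
  (∀ c, ∃ c' c'', ad c c' = true ∧ ad c c'' = true ∧ ad c' c'' = true) →
  ∃ T : Finset (V → ℝ), (∀ t ∈ T, ∀ j, 0 < t j) ∧ (∀ t ∈ T, 1 < ∏ j, t j) ∧
  ∀ U : Finset (IV V k (fun _ _ => true) × Fin m),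
    (∀ i ∈ U, ∀ j ∈ U, LV ad i.1 j.1 = LV ad j.1 i.1) →
    (∃ t ∈ T, ∑ i ∈ U, 1 / (2 ^ k * (m : ℝ)) * t i.1.1.1 < Fintype.card V) ∨
    (∑ _i ∈ U, (1 / (2 ^ k * (m : ℝ)) : ℝ) ≤ Fintype.card V ∧
      (∀ t ∈ T, ∃ θ : ℝ, 0 < θ ∧
        ∑ i ∈ U, 1 / (2 ^ k * (m : ℝ)) * t i.1.1.1 ^ (-θ) < Fintype.card V) ∧
      ∀ j, j ∉ U → ∃ i ∈ U, LV ad i.1 j.1 ≠ LV ad j.1 i.1)

/-! ### The families -/

/-- positive weights on the pairs of adjacent classes with row sums `ν` -/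
def Bal (n : ℕ) (ν : PR n → ℕ) : Prop := ∃ A : PR n → PR n → ℝ, (∀ c c', A c c' = A c' c) ∧
  (∀ c c', adj c c' = true → 0 < A c c') ∧ (∀ c c', adj c c' = false → A c c' = 0) ∧
  ∀ c, ∑ c', A c c' = ν c

section

variable {J : Type} [Fintype J] [DecidableEq J] {n : ℕ}

/-- the data of a family: `u_i - u_j = κ_c ∏ f_l`, the product over the indices `l` of the class
`c = (i, j)`, at least one -/
structure PenB (u : Fin n → ℤ[X]) (κ : PR n → ℤ) (cls : J → PR n) (f : J → ℤ[X]) : Prop where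
  irr : Irr f
  ne : ∀ c, κ c ≠ 0
  pos : ∀ c, ∃ j, cls j = c
  fac : ∀ c : PR n, u c.1.1 - u c.1.2 = C (κ c) * ∏ j ∈ univ.filter (fun j => cls j = c), f j

/-- the numbers of the prime factors of the values -/
def omf (f : J → ℤ[X]) (t : ℤ) (j : J) : ℕ := ((f j).eval t).natAbs.primeFactors.card

/-- PW-RNK: the Selmer group and the local count (as `S_RNKJ`). -/
def S_RNKB : Prop := ∀ (g : ℕ) (J : Type) [Fintype J] [DecidableEq J]
  (u : Fin (2 * g + 1) → ℤ[X]) (κ : PR (2 * g + 1) → ℤ) (cls : J → PR (2 * g + 1))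
  (f : J → ℤ[X]) (z c : ℕ), 1 ≤ g → PenB u κ cls f → GoodP κ f z c →
  ∃ C0 : ℝ, 0 ≤ C0 ∧ ∀ (y X k B : ℕ) (t : ℤ), (∀ j, (f j).eval t ≠ 0) →
    (∀ j, ((f j).eval t).natAbs ≤ X ^ B) → 1 ≤ X → 1 ≤ y → X < (y + 1) ^ k →
    (SelJ (fun i => (u i).eval t)).Finite ∧
    ((SelJ (fun i => (u i).eval t)).ncard : ℝ) ≤
      C0 * ((2 ^ (2 * g + 1)) ^ (B * Fintype.card J)) ^ k *
        (∏ i, ((2 : ℝ) ^ (2 * g + 1)) ^ (S2 z y (prJ u cls f z t) i).primeFactors.card) *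
        (NV (adJ cls) (S1 z y (prJ u cls f z t)) (Eneg (S1 z y (prJ u cls f z t))) : ℝ)

/-- the main average with the weight -/
def MAKB {g : ℕ} (u : Fin (2 * g + 1) → ℤ[X]) (κ : PR (2 * g + 1) → ℤ)
    (cls : J → PR (2 * g + 1)) (f : J → ℤ[X]) (k : ℕ) (T : Finset (J → ℝ)) : Prop :=
  ∀ c : ℕ, (∏ j, f j).natDegree + 1 ≤ c → ∃ z0 : ℕ, ∀ z, z0 ≤ z → GoodP κ f z c ∧
    ∃ C : ℝ, ∀ y, z < y →
      ∑ s ∈ Tup (J × Bool) z y, (NV (adJ cls) s (Eneg s) : ℝ) ^ k *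
        (∏ i, gp (rJ u cls f z i) c (s i)) *
        DT.rho T (fun j => (s (j, false) * s (j, true)).primeFactors.card) ≤
        C * Real.exp (Sp (fun p => rho (∏ j, f j) p) z y)

/-- PW-MAK: the main average with the weight. -/
def S_MAKB : Prop := ∀ (g k : ℕ) (J : Type) [Fintype J] [DecidableEq J]
  (u : Fin (2 * g + 1) → ℤ[X]) (κ : PR (2 * g + 1) → ℤ) (cls : J → PR (2 * g + 1))
  (f : J → ℤ[X]), 1 ≤ g → 1 ≤ k → PenB u κ cls f →
  Bal (2 * g + 1) (fun c => (univ.filter (fun j => cls j = c)).card) →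
  ∃ T : Finset (J → ℝ), (∀ t ∈ T, ∀ j, 0 < t j) ∧ (∀ t ∈ T, 1 < ∏ j, t j) ∧
    MAKB u κ cls f k T

/-- PW-AVG: the weighted moments over short intervals, over the arguments where a second polynomial
has no small prime factors. -/
def S_AVGB : Prop := ∀ (g k B : ℕ) (J : Type) [Fintype J] [DecidableEq J]
  (u : Fin (2 * g + 1) → ℤ[X]) (κ : PR (2 * g + 1) → ℤ) (cls : J → PR (2 * g + 1))
  (f : J → ℤ[X]) (T : Finset (J → ℝ)), 1 ≤ g → 1 ≤ k → PenB u κ cls f →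
  (∀ t ∈ T, ∀ j, 0 < t j) → MAKB u κ cls f k T →
  ∀ G : ℤ[X], Squarefree (((∏ j, f j) * G).map (Int.castRingHom ℚ)) →
    ∃ z0 : ℕ, ∀ z, z0 ≤ z → ∃ C2 : ℝ, ∀ (N : ℤ) (X : ℕ), 1 ≤ X → N.natAbs ≤ X ^ B →
      ∀ T' : Finset ℕ, T' ⊆ Icc 1 X → (∀ t ∈ T', (∀ j, (f j).eval (N + (t : ℤ)) ≠ 0) ∧
        Sft G z X (N + (t : ℤ))) →
      ∑ t ∈ T', ((SelJ (fun i => (u i).eval (N + (t : ℤ)))).ncard : ℝ) ^ k *
        DT.rho T (omf f (N + (t : ℤ))) ≤ C2 * (X * Real.exp (-Sp (fun p => (rho G p : ℝ)) z X))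

end

open Classical in
/-- PW-BAD: the arguments of weight less than one are rare. -/
def S_BADB : Prop := ∀ (J : Type) [Fintype J] [DecidableEq J] (f : J → ℤ[X])
  (T : Finset (J → ℝ)) (B : ℕ), Irr f → (∀ t ∈ T, ∀ j, 0 < t j) → (∀ t ∈ T, 1 < ∏ j, t j) →
  ∀ ε : ℝ, 0 < ε → ∃ X0 : ℕ, ∀ (N : ℤ) (X : ℕ), X0 ≤ X → N.natAbs ≤ X ^ B →
    (((Icc 1 X).filter (fun t : ℕ => ¬ ((∀ j, (f j).eval (N + (t : ℤ)) ≠ 0) ∧
      DT.rho T (omf f (N + (t : ℤ))) = 1))).card : ℝ) ≤ ε * X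

open Classical in
/-- `R` has bounded moments outside of a set `Z` of density zero in all short intervals -/
def MomZ (R : ℤ → ℝ) (Z : Set ℤ) : Prop :=
  (∀ (B : ℕ) (ε : ℝ), 0 < ε → ∃ X0 : ℕ, ∀ (N : ℤ) (X : ℕ), X0 ≤ X → N.natAbs ≤ X ^ B →
    (((Icc 1 X).filter (fun t : ℕ => N + (t : ℤ) ∈ Z)).card : ℝ) ≤ ε * X) ∧
  ∀ k B : ℕ, ∃ C : ℝ, ∀ (N : ℤ) (X : ℕ), 1 ≤ X → N.natAbs ≤ X ^ B →
    ∑ t ∈ (Icc 1 X).filter (fun t : ℕ => N + (t : ℤ) ∉ Z), R (N + (t : ℤ)) ^ k ≤ C * X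

open Classical in
/-- PW-DIA: one exceptional set for all the moments. -/
def S_DIAB : Prop := ∀ (R : ℤ → ℝ) (P : ℕ → ℤ → Prop), (∀ t, 0 ≤ R t) →
  (∀ (k B : ℕ) (ε : ℝ), 1 ≤ k → 0 < ε → ∃ X0 : ℕ, ∀ (N : ℤ) (X : ℕ), X0 ≤ X →
    N.natAbs ≤ X ^ B → (((Icc 1 X).filter (fun t : ℕ => P k (N + (t : ℤ)))).card : ℝ) ≤ ε * X) →
  (∀ k B : ℕ, 1 ≤ k → ∃ C : ℝ, ∀ (N : ℤ) (X : ℕ), 1 ≤ X → N.natAbs ≤ X ^ B →
    ∑ t ∈ (Icc 1 X).filter (fun t : ℕ => ¬ P k (N + (t : ℤ))), R (N + (t : ℤ)) ^ k ≤ C * X) →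
  ∃ Z : Set ℤ, (∀ t, P 1 t → t ∈ Z) ∧ MomZ R Z

/-- the main result: all the moments of the orders of the 2-Selmer groups of a family outside of a
set of density zero -/
def S_PENB : Prop := ∀ (g : ℕ) (J : Type) [Fintype J] [DecidableEq J]
  (u : Fin (2 * g + 1) → ℤ[X]) (κ : PR (2 * g + 1) → ℤ) (cls : J → PR (2 * g + 1))
  (f : J → ℤ[X]), 1 ≤ g → PenB u κ cls f →
  Bal (2 * g + 1) (fun c => (univ.filter (fun j => cls j = c)).card) →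
  ∃ Z : Set ℤ, (∀ t, t ∉ Z → ∀ j, (f j).eval t ≠ 0) ∧
    MomZ (fun t => ((SelJ (fun i => (u i).eval t)).ncard : ℝ)) Z

end Pool.Agent.TH344.PW
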