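import Mathlib
import Pool.Agent.TH344.PW.Stm
import Pool.Agent.TH344.PJ.Avg

/-!
# Project PW: weighted moments over short intervals

Adapted from `Pool/Agent/TH344/PJ/Avg.lean` (helper751) and `Pool/Agent/TH344/JG/Avg.lean`
(helper511).
-/

set_option autoImplicit false

namespace Pool.Agent.TH344.PW

open Finset Polynomial Pool.Agent.W262.RK Pool.Agent.W307.RT Pool.Agent.W307.RS
open Pool.Agent.TH841.PT Pool.Agent.TH344.JG Pool.Agent.TH344.PJ

open Pool.Agent.H474R2.PG (rho)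

namespace AvgB

section Rho

variable {J : Type} [Fintype J] {T : Finset (J → ℝ)}

lemma rjn (hT : ∀ t ∈ T, ∀ j, 0 < t j) (n : J → ℕ) : 0 ≤ DT.rho T n := by
  classical
  unfold DT.rho
  rw [Finset.le_inf'_iff]
  intro t ht
  refine prod_nonneg fun j _ => ?_
  rcases mem_insert.1 ht with rfl | h
  · simp
  · exact (pow_pos (hT t h j) _).le

lemma rj1 (T : Finset (J → ℝ)) (n : J → ℕ) : DT.rho T n ≤ 1 := by
  classical
  unfold DT.rho
  refine (Finset.inf'_le _ (mem_insert_self _ _)).trans ?_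
  simp

/-- an upper bound for the coordinates -/
noncomputable def DDJ (T : Finset (J → ℝ)) : ℝ := 1 + ∑ t ∈ T, ∑ j, t j

lemma one_le_DDJ (hT : ∀ t ∈ T, ∀ j, 0 < t j) : 1 ≤ DDJ T := by
  unfold DDJ
  have : 0 ≤ ∑ t ∈ T, ∑ j, t j := sum_nonneg fun t ht => sum_nonneg fun j _ => (hT t ht j).le
  linarith

lemma le_DDJ (hT : ∀ t ∈ T, ∀ j, 0 < t j) {t : J → ℝ} (ht : t ∈ T) (j : J) : t j ≤ DDJ T := by
  unfold DDJ
  have h1 : t j ≤ ∑ j, t j :=
    single_le_sum (f := fun j => t j) (fun j _ => (hT t ht j).le) (mem_univ j)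
  have h2 : ∑ j, t j ≤ ∑ t ∈ T, ∑ j, t j :=
    single_le_sum (f := fun t' : J → ℝ => ∑ j, t' j)
      (fun t' ht' => sum_nonneg (f := fun j => t' j) fun j _ => (hT t' ht' j).le) ht
  linarith

/-- the weight grows slowly -/
lemma rj_lip (hT : ∀ t ∈ T, ∀ j, 0 < t j) (n n' : J → ℕ) (h : ∀ j, n j ≤ n' j) :
    DT.rho T n' ≤ DDJ T ^ (∑ j, (n' j - n j)) * DT.rho T n := by
  classical
  obtain ⟨t, ht, he⟩ := Finset.exists_mem_eq_inf' (insert_nonempty (fun _ => (1 : ℝ)) T)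
    (fun t : J → ℝ => ∏ j, t j ^ n j)
  have he' : DT.rho T n = ∏ j, t j ^ n j := by
    rw [← he]
    rfl
  have hpos : ∀ j, 0 < t j := by
    intro j
    rcases mem_insert.1 ht with rfl | h1
    · exact one_pos
    · exact hT t h1 j
  have hle : ∀ j, t j ≤ DDJ T := by
    intro j
    rcases mem_insert.1 ht with rfl | h1
    · exact one_le_DDJ hT
    · exact le_DDJ hT h1 j
  have h1 : DT.rho T n' ≤ ∏ j, t j ^ n' j := by
    unfold DT.rho
    exact Finset.inf'_le _ ht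
  refine h1.trans ?_
  have h2 : ∏ j, t j ^ n' j = (∏ j, t j ^ (n' j - n j)) * ∏ j, t j ^ n j := by
    rw [← prod_mul_distrib]
    refine prod_congr rfl fun j _ => ?_
    rw [← pow_add, Nat.sub_add_cancel (h j)]
  rw [h2, he']
  refine mul_le_mul_of_nonneg_right ?_ (prod_nonneg fun j _ => (pow_pos (hpos j) _).le)
  rw [← prod_pow_eq_pow_sum]
  exact prod_le_prod (fun j _ => (pow_pos (hpos j) _).le)
    fun j _ => pow_le_pow_left₀ (hpos j).le (hle j) _

/-- the weight grows slowly, with a bound for the exponent -/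
lemma rj_lip' (hT : ∀ t ∈ T, ∀ j, 0 < t j) (n n' : J → ℕ) (h : ∀ j, n j ≤ n' j) (m : ℕ)
    (hm : ∑ j, (n' j - n j) ≤ m) : DT.rho T n' ≤ DDJ T ^ m * DT.rho T n :=
  (rj_lip hT n n' h).trans (mul_le_mul_of_nonneg_right
    (pow_le_pow_right₀ (one_le_DDJ hT) hm) (rjn hT _))

end Rho


lemma pf_S1J {J : Type} (z y : ℕ) (f : J → ℤ) (j : J) : (S1 z y f j).primeFactors =
    (PS z y).filter (fun p : ℕ => (p : ℤ) ∣ f j ∧ ¬ (p : ℤ) ^ 2 ∣ f j) := by
  unfold S1
  refine Nat.primeFactors_prod fun p hp => ?_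
  exact (mem_filter.1 (mem_filter.1 hp).1).2

lemma pf_S2J {J : Type} (z y : ℕ) (f : J → ℤ) (j : J) : (S2 z y f j).primeFactors =
    (PS z y).filter (fun p : ℕ => (p : ℤ) ^ 2 ∣ f j) := by
  unfold S2
  refine Nat.primeFactors_prod fun p hp => ?_
  exact (mem_filter.1 (mem_filter.1 hp).1).2

/-- the large prime factors -/
lemma card_largeJ (y X k B m : ℕ) (hm : m ≠ 0) (hmX : m ≤ X ^ B) (hX : X < (y + 1) ^ k) :
    (m.primeFactors.filter (fun p => y < p)).card ≤ k * B := by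
  set P := m.primeFactors.filter (fun p => y < p) with hP
  have h1 : (y + 1) ^ P.card ≤ ∏ p ∈ P, p := by
    rw [← prod_const]
    exact prod_le_prod' fun p hp => (mem_filter.1 hp).2
  have h2 : ∏ p ∈ P, p ∣ m := (prod_dvd_prod_of_subset _ _ _ (filter_subset _ _)).trans
    (Nat.prod_primeFactors_dvd m)
  have h3 : ∏ p ∈ P, p ≤ m := Nat.le_of_dvd (Nat.pos_of_ne_zero hm) h2
  have h4 : X ^ B ≤ (y + 1) ^ (k * B) := by
    rw [pow_mul]
    exact Nat.pow_le_pow_left hX.le B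
  have h5 : (y + 1) ^ P.card ≤ (y + 1) ^ (k * B) := h1.trans (h3.trans (hmX.trans h4))
  by_contra hcon
  push Not at hcon
  -- `y + 1 ≥ 2` if there is a large prime factor
  by_cases hy : y = 0
  · subst hy
    have h6 : m ≤ 1 := by
      refine hmX.trans ?_
      have : X = 0 := by
        simp only [zero_add, one_pow] at hX
        omega
      rw [this]
      rcases Nat.eq_zero_or_pos B with hB | hB
      · rw [hB, pow_zero]
      · rw [zero_pow hB.ne']
        exact zero_le_one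
    have h7 : m = 1 := by omega
    have h8 : P = ∅ := by
      rw [hP, h7]
      simp
    rw [h8, card_empty] at hcon
    omega
  · exact absurd h5 (not_le.2 (Nat.pow_lt_pow_right (by omega) hcon))


section

variable {J : Type} [Fintype J] [DecidableEq J] {n : ℕ}

/-- the numbers of the prime factors of the products of the two types -/
def nn2 (s : J × Bool → ℕ) : J → ℕ := fun j => (s (j, false) * s (j, true)).primeFactors.card

omit [Fintype J] [DecidableEq J] in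
lemma S1_neB (z y : ℕ) (f : J × Bool → ℤ) (i : J × Bool) : S1 z y f i ≠ 0 := by
  unfold S1
  refine prod_ne_zero_iff.2 fun p hp => ?_
  exact (mem_filter.1 (mem_filter.1 hp).1).2.ne_zero

omit [Fintype J] [DecidableEq J] in
lemma om_sub {u : Fin n → ℤ[X]} {cls : J → PR n} {f : J → ℤ[X]} {z y : ℕ} {t : ℤ}
    (h0 : ∀ j, (f j).eval t ≠ 0) (j : J) :
    (S1 z y (prJ u cls f z t) (j, false) * S1 z y (prJ u cls f z t) (j, true)).primeFactors ⊆
      ((f j).eval t).natAbs.primeFactors := by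
  rw [Nat.primeFactors_mul (S1_neB _ _ _ _) (S1_neB _ _ _ _), pf_S1J, pf_S1J]
  intro p hp
  have key : ∀ b : Bool, p ∈ (PS z y).filter (fun p : ℕ => (p : ℤ) ∣ prJ u cls f z t (j, b) ∧
      ¬ (p : ℤ) ^ 2 ∣ prJ u cls f z t (j, b)) → p ∈ ((f j).eval t).natAbs.primeFactors := by
    intro b hb
    obtain ⟨h1, h2, _⟩ := mem_filter.1 hb
    have hpp := (mem_filter.1 h1).2
    have hzp := (mem_Ioc.1 (mem_filter.1 h1).1).1
    exact Nat.mem_primeFactors.2 ⟨hpp, Int.natCast_dvd.1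
      ((Pool.Agent.TH344.PJ.Avgf.prJ_dvd h0 (j, b) hpp hzp).1 h2).1, Int.natAbs_ne_zero.2 (h0 j)⟩
  rcases mem_union.1 hp with h | h
  · exact key false h
  · exact key true h

omit [Fintype J] [DecidableEq J] in
lemma om_cov {u : Fin n → ℤ[X]} {cls : J → PR n} {f : J → ℤ[X]} {z y : ℕ} {t : ℤ}
    (h0 : ∀ j, (f j).eval t ≠ 0) (j : J) :
    ((f j).eval t).natAbs.primeFactors ⊆
      (S1 z y (prJ u cls f z t) (j, false) * S1 z y (prJ u cls f z t) (j, true)).primeFactors ∪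
      ((S2 z y (prJ u cls f z t) (j, false)).primeFactors ∪
      ((S2 z y (prJ u cls f z t) (j, true)).primeFactors ∪
      (Icc 1 z ∪ ((f j).eval t).natAbs.primeFactors.filter (fun p => y < p)))) := by
  intro p hp
  have hpp := Nat.prime_of_mem_primeFactors hp
  have hpd : (p : ℤ) ∣ (f j).eval t := Int.natCast_dvd.2 (Nat.dvd_of_mem_primeFactors hp)
  rw [Nat.primeFactors_mul (S1_neB _ _ _ _) (S1_neB _ _ _ _), pf_S1J, pf_S1J, pf_S2J, pf_S2J]
  simp only [mem_union]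
  by_cases hz : p ≤ z
  · exact Or.inr (Or.inr (Or.inr (Or.inl (mem_Icc.2 ⟨hpp.one_lt.le, hz⟩))))
  by_cases hy : y < p
  · exact Or.inr (Or.inr (Or.inr (Or.inr (mem_filter.2 ⟨hp, hy⟩))))
  have hPS : p ∈ PS z y := mem_filter.2 ⟨mem_Ioc.2 ⟨by omega, by omega⟩, hpp⟩
  have key : ∀ b : Bool, tyJ u cls p t j = b →
      p ∈ (PS z y).filter (fun p : ℕ => (p : ℤ) ∣ prJ u cls f z t (j, b) ∧
        ¬ (p : ℤ) ^ 2 ∣ prJ u cls f z t (j, b)) ∨
      p ∈ (PS z y).filter (fun p : ℕ => (p : ℤ) ^ 2 ∣ prJ u cls f z t (j, b)) := by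
    intro b hb
    have h1 : (p : ℤ) ∣ prJ u cls f z t (j, b) :=
      (Pool.Agent.TH344.PJ.Avgf.prJ_dvd h0 (j, b) hpp (by omega)).2 ⟨hpd, hb⟩
    by_cases h2 : (p : ℤ) ^ 2 ∣ prJ u cls f z t (j, b)
    · exact Or.inr (mem_filter.2 ⟨hPS, h2⟩)
    · exact Or.inl (mem_filter.2 ⟨hPS, h1, h2⟩)
  cases hb : tyJ u cls p t j
  · rcases key false hb with h | h
    · exact Or.inl (Or.inl h)
    · exact Or.inr (Or.inl h)
  · rcases key true hb with h | h
    · exact Or.inl (Or.inr h)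
    · exact Or.inr (Or.inr (Or.inl h))

/-- the weight of an argument -/
lemma rho_omf {u : Fin n → ℤ[X]} {cls : J → PR n} {f : J → ℤ[X]} {z y X k B : ℕ} {t : ℤ}
    {T : Finset (J → ℝ)} (hT : ∀ t ∈ T, ∀ j, 0 < t j)
    (h0 : ∀ j, (f j).eval t ≠ 0) (hsize : ∀ j, ((f j).eval t).natAbs ≤ X ^ B)
    (hX : X < (y + 1) ^ k) :
    DT.rho T (omf f t) ≤ DDJ T ^ (Fintype.card J * z +
      ∑ i, (S2 z y (prJ u cls f z t) i).primeFactors.card + Fintype.card J * (k * B)) *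
      DT.rho T (nn2 (S1 z y (prJ u cls f z t))) := by
  refine rj_lip' hT _ _ (fun j => card_le_card (om_sub h0 j)) _ ?_
  have h1 : ∀ j, omf f t j - nn2 (S1 z y (prJ u cls f z t)) j ≤
      z + ((S2 z y (prJ u cls f z t) (j, true)).primeFactors.card +
        (S2 z y (prJ u cls f z t) (j, false)).primeFactors.card) + k * B := by
    intro j
    have h2 := card_le_card (om_cov (u := u) (cls := cls) (z := z) (y := y) h0 j)
    have h3 := card_union_le
      ((S1 z y (prJ u cls f z t) (j, false) * S1 z y (prJ u cls f z t) (j, true)).primeFactors)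
      ((S2 z y (prJ u cls f z t) (j, false)).primeFactors ∪
      ((S2 z y (prJ u cls f z t) (j, true)).primeFactors ∪
      (Icc 1 z ∪ ((f j).eval t).natAbs.primeFactors.filter (fun p => y < p))))
    have h4 := card_union_le ((S2 z y (prJ u cls f z t) (j, false)).primeFactors)
      ((S2 z y (prJ u cls f z t) (j, true)).primeFactors ∪
      (Icc 1 z ∪ ((f j).eval t).natAbs.primeFactors.filter (fun p => y < p)))
    have h5 := card_union_le ((S2 z y (prJ u cls f z t) (j, true)).primeFactors)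
      (Icc 1 z ∪ ((f j).eval t).natAbs.primeFactors.filter (fun p => y < p))
    have h6 := card_union_le (Icc 1 z)
      (((f j).eval t).natAbs.primeFactors.filter (fun p => y < p))
    have h7 := card_largeJ y X k B _ (Int.natAbs_ne_zero.2 (h0 j)) (hsize j) hX
    have h8 : (Icc 1 z).card = z := by rw [Nat.card_Icc]; omega
    simp only [omf, nn2]
    omega
  refine (sum_le_sum fun j _ => h1 j).trans (le_of_eq ?_)
  rw [sum_add_distrib, sum_add_distrib, sum_const, sum_const, card_univ, smul_eq_mul, smul_eq_mul,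
    Fintype.sum_prod_type]
  simp only [Fintype.sum_bool]

/-- growth of the weight -/
lemma nn2_growth {z y : ℕ} {T : Finset (J → ℝ)} (hT : ∀ t ∈ T, ∀ j, 0 < t j)
    (s e : J × Bool → ℕ) (hse : (fun i => s i * e i) ∈ Tup (J × Bool) z y) :
    DT.rho T (nn2 (fun i => s i * e i)) ≤ DDJ T ^ (∑ i, (e i).primeFactors.card) *
      DT.rho T (nn2 s) := by
  have hne : ∀ i, s i ≠ 0 ∧ e i ≠ 0 := by
    intro i
    have h1 := (Pool.Agent.W405.RK2.mem_Tup.1 hse).1 i
    have h2 : s i * e i ≠ 0 := fun h => (Pool.Agent.W405.RK2.PP_ne_zero z y) (Nat.eq_zero_of_zero_dvd (h ▸ h1))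
    exact ⟨left_ne_zero_of_mul h2, right_ne_zero_of_mul h2⟩
  have hpf : ∀ j : J, (s (j, false) * e (j, false) * (s (j, true) * e (j, true))).primeFactors =
      (s (j, false) * s (j, true)).primeFactors ∪
        ((e (j, false)).primeFactors ∪ (e (j, true)).primeFactors) := by
    intro j
    rw [Nat.primeFactors_mul (mul_ne_zero (hne _).1 (hne _).2) (mul_ne_zero (hne _).1 (hne _).2),
      Nat.primeFactors_mul (hne _).1 (hne _).2, Nat.primeFactors_mul (hne _).1 (hne _).2,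
      Nat.primeFactors_mul (hne _).1 (hne _).1]
    ext p
    simp only [mem_union]
    tauto
  refine rj_lip' hT _ _ (fun j => ?_) _ ?_
  · simp only [nn2]
    rw [hpf j]
    exact card_le_card subset_union_left
  · have h1 : ∀ j, nn2 (fun i => s i * e i) j - nn2 s j ≤
        (e (j, true)).primeFactors.card + (e (j, false)).primeFactors.card := by
      intro j
      simp only [nn2]
      rw [hpf j]
      have h2 := card_union_le (s (j, false) * s (j, true)).primeFactors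
        ((e (j, false)).primeFactors ∪ (e (j, true)).primeFactors)
      have h3 := card_union_le (e (j, false)).primeFactors (e (j, true)).primeFactors
      omega
    refine (sum_le_sum fun j _ => h1 j).trans (le_of_eq ?_)
    rw [Fintype.sum_prod_type]
    simp only [Fintype.sum_bool]

end

end AvgB

open Pool.Agent.TH344.PJ.Avgf AvgB in
/-- **the weighted moments of the 2-Selmer groups in the family** -/
theorem avgb_of (h1 : S_RNKB) (h2 : Pool.Agent.TH344.PJ.S_CNTJ)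
    (h3 : Pool.Agent.TH344.PJ.S_SUBJ) : S_AVGB := by
  intro g k0 B J _ _ u κ cls f TT hg hk0 hpen hTT0 hM G hDG
  classical
  have hDG0 : (∏ j, f j) * G ≠ 0 := by
    intro h0
    rw [h0, Polynomial.map_zero] at hDG
    exact not_squarefree_zero hDG
  set c := ((∏ j, f j) * G).natDegree + 1 with hc
  have hcc : (∏ j, f j).natDegree + 1 ≤ c := by
    rw [hc, natDegree_mul (left_ne_zero_of_mul hDG0) (right_ne_zero_of_mul hDG0)]
    omega
  obtain ⟨z0, hz0⟩ := hM c hcc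
  obtain ⟨zg, hzg⟩ := GDPf.gdp _ hDG
  refine ⟨z0 + zg, fun z hz => ?_⟩
  obtain ⟨hG, C', hC'⟩ := hz0 z (by omega)
  have hDGz : GoodD ((∏ j, f j) * G) z c := by
    intro p hp hzp
    obtain ⟨h1, h2⟩ := hzg z (by omega) p hp hzp
    exact ⟨h1.trans (by omega), h2⟩
  have hG2 := (good2_of hDGz).2
  have hz4 := hG.four
  have hz2 := hG.two
  have hc1 := hG.one
  obtain ⟨Cc, K, y0, hC0, hK1, hcn⟩ := h2 (2 * g + 1) J u κ cls f z c G hG hG2
  obtain ⟨Cr, hCr0, hrank⟩ := h1 g J u κ cls f z c hg hpen hG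
  obtain ⟨At, hAt0, hAt⟩ := tail_le (z := z) (by omega)
  obtain ⟨Kd, m, hKd⟩ := eval_le_all f
  set B' : ℕ := (B + 2) * m + 1 with hB'
  set y1 : ℕ := y0 + Kd + 3 with hy1
  -- the summand
  let r : ℤ → ℝ := fun w => ((SelJ (fun i => (u i).eval w)).ncard : ℝ) ^ k0 *
    DT.rho TT (omf f w)
  have hr0 : ∀ w, 0 ≤ r w := fun w => mul_nonneg (by positivity) (rjn hTT0 _)
  suffices key : ∃ C2 : ℝ, ∀ θ : {θ : (ℤ × ℕ) × Finset ℕ // (1 ≤ θ.1.2 ∧ θ.1.1.natAbs ≤ θ.1.2 ^ B) ∧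
      θ.2 ⊆ Icc 1 θ.1.2 ∧ ∀ t ∈ θ.2, (∀ j, (f j).eval (θ.1.1 + (t : ℤ)) ≠ 0) ∧
        Sft G z θ.1.2 (θ.1.1 + (t : ℤ))},
      ∑ t ∈ θ.1.2, r (θ.1.1.1 + (t : ℤ)) ≤
        C2 * ((θ.1.1.2 : ℝ) * Real.exp (-Sp (fun p => (rho G p : ℝ)) z θ.1.1.2)) by
    obtain ⟨C2, hC2⟩ := key
    exact ⟨C2, fun N X hX hN T hT hT' => hC2 ⟨((N, X), T), ⟨hX, hN⟩, hT, hT'⟩⟩
  obtain ⟨AD, hAD⟩ : ∃ AD : ℝ, AD = DDJ TT := ⟨_, rfl⟩
  have hAD1 : 1 ≤ AD := by rw [hAD]; exact one_le_DDJ hTT0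
  set GG : (J × Bool → ℕ) → ℝ := fun s => (NV (adJ cls) s (Eneg s) : ℝ) ^ k0 *
    DT.rho TT (nn2 s) with hGdef
  have hG0 : ∀ s, 0 ≤ GG s := fun s => by
    rw [hGdef]
    exact mul_nonneg (by positivity) (rjn hTT0 _)
  have hcz : c ≤ z := by omega
  have hgn : ∀ {y' : ℕ} {s : J × Bool → ℕ} (_ : s ∈ Tup (J × Bool) z y') (i : J × Bool),
      0 ≤ gp (rJ u cls f z i) c (s i) := fun hs i =>
    gp_nonneg (rJ_nonneg u cls f z i) hcz ((Pool.Agent.W405.RK2.mem_Tup.1 hs).1 i)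
  set A2 : ℝ := ((2 : ℝ) ^ (2 * g + 1)) ^ k0 * AD with hA2
  have hA21 : 1 ≤ A2 :=
    one_le_mul_of_one_le_of_one_le (one_le_pow₀ (one_le_pow₀ (by norm_num))) hAD1
  set D1 : ℝ := (((2 : ℝ) ^ (2 * g + 1)) ^ (B' * Fintype.card J)) ^ k0 *
    AD ^ (Fintype.card J * B') with hD1
  have hD11 : 1 ≤ D1 := one_le_mul_of_one_le_of_one_le
    (one_le_pow₀ (one_le_pow₀ (one_le_pow₀ (by norm_num)))) (one_le_pow₀ hAD1)
  refine antx (J × Bool) ℕ {θ : (ℤ × ℕ) × Finset ℕ // (1 ≤ θ.1.2 ∧ θ.1.1.natAbs ≤ θ.1.2 ^ B) ∧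
      θ.2 ⊆ Icc 1 θ.1.2 ∧ ∀ t ∈ θ.2, (∀ j, (f j).eval (θ.1.1 + (t : ℤ)) ≠ 0) ∧
        Sft G z θ.1.2 (θ.1.1 + (t : ℤ))}
    (fun θ => θ.1.2)
    (fun θ => θ.1.1.2) (fun θ t => prJ u cls f z (θ.1.1.1 + (t : ℤ)))
    (fun θ => (θ.1.1.2 : ℝ) * Real.exp (-Sp (fun p => (rho G p : ℝ)) z θ.1.1.2)) z
    (fun y => Real.exp (Sp (fun p => rho (∏ j, f j) p) z y))
    (fun s => GG s * ∏ i, gp (rJ u cls f z i) c (s i))
    (fun v => ∏ i, (A2 ^ (v i).primeFactors.card * (gp (rJ u cls f z i) c (v i) / v i)))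
    (fun w => ∏ i, ((c : ℝ) ^ (w i).primeFactors.card / (w i : ℝ)))
    (fun θ t => r (θ.1.1.1 + (t : ℤ)))
    (Cc * (Cr ^ k0 * AD ^ (Fintype.card J * z)) * Real.exp (c * At)) (D1 * Real.exp c) (K + 2) y1
    (by omega) (fun y _ => Real.exp_pos _)
    (fun θ => θ.2.1.1) (fun θ => by positivity) (fun X0 => ?_) (fun θ t ht => ?_)
    (fun θ t => hr0 _) (by positivity)
    (one_le_mul_of_one_le_of_one_le hD11 (Real.one_le_exp (Nat.cast_nonneg _))) (by omega)
    (fun y s hs => ⟨?_, ?_⟩) (fun y Y hzy w hw => ?_) (fun lam hlam => ?_)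
    (fun lam hlam => ?_) (fun lam hlam => ?_) ?_
  · -- small scales
    refine ⟨(∑ N ∈ Icc (-((X0 : ℤ) ^ B)) ((X0 : ℤ) ^ B), ∑ t ∈ Icc 1 X0, r (N + (t : ℤ))) *
      Real.exp (Sp (fun p => (rho G p : ℝ)) z X0), ?_⟩
    rintro ⟨⟨⟨N, X⟩, T⟩, ⟨hX, hN⟩, hT, hT'⟩ hle
    simp only at hX hN hT hT' hle ⊢
    have hX0 : X ^ B ≤ X0 ^ B := Nat.pow_le_pow_left hle B
    have hmem : N ∈ Icc (-((X0 : ℤ) ^ B)) ((X0 : ℤ) ^ B) := by
      rw [mem_Icc]
      have h1 : (N.natAbs : ℤ) ≤ (X0 : ℤ) ^ B := by exact_mod_cast hN.trans hX0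
      omega
    have h1 : ∑ t ∈ T, r (N + (t : ℤ)) ≤ ∑ t ∈ Icc 1 X0, r (N + (t : ℤ)) := by
      refine sum_le_sum_of_subset_of_nonneg ?_ fun t _ _ => hr0 _
      exact hT.trans (Icc_subset_Icc_right hle)
    have h2 : ∑ t ∈ Icc 1 X0, r (N + (t : ℤ)) ≤
        ∑ N ∈ Icc (-((X0 : ℤ) ^ B)) ((X0 : ℤ) ^ B), ∑ t ∈ Icc 1 X0, r (N + (t : ℤ)) :=
      single_le_sum (f := fun N : ℤ => ∑ t ∈ Icc 1 X0, r (N + (t : ℤ)))
        (fun _ _ => sum_nonneg fun _ _ => hr0 _) hmem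
    have h3 : 0 ≤ ∑ N ∈ Icc (-((X0 : ℤ) ^ B)) ((X0 : ℤ) ^ B), ∑ t ∈ Icc 1 X0, r (N + (t : ℤ)) :=
      sum_nonneg fun _ _ => sum_nonneg fun _ _ => hr0 _
    have h4 : (1 : ℝ) ≤ (X : ℝ) := by exact_mod_cast hX
    have h5 : Sp (fun p => (rho G p : ℝ)) z X ≤ Sp (fun p => (rho G p : ℝ)) z X0 := by
      unfold Sp
      refine sum_le_sum_of_subset_of_nonneg ?_ fun p _ _ =>
        div_nonneg (Nat.cast_nonneg _) (Nat.cast_nonneg _)
      intro p hp
      have := mem_PS'.1 hp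
      exact mem_PS'.2 ⟨⟨this.1.1, this.1.2.trans hle⟩, this.2⟩
    have h6 : (1 : ℝ) ≤ Real.exp (Sp (fun p => (rho G p : ℝ)) z X0) *
        Real.exp (-Sp (fun p => (rho G p : ℝ)) z X) := by
      rw [← Real.exp_add]
      exact Real.one_le_exp (by linarith)
    have h7 : (1 : ℝ) ≤ Real.exp (Sp (fun p => (rho G p : ℝ)) z X0) *
        (X * Real.exp (-Sp (fun p => (rho G p : ℝ)) z X)) := by
      have := mul_le_mul h4 h6 zero_le_one (by linarith : (0 : ℝ) ≤ X)
      calc (1 : ℝ) = 1 * 1 := by ring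
        _ ≤ X * (Real.exp (Sp (fun p => (rho G p : ℝ)) z X0) *
            Real.exp (-Sp (fun p => (rho G p : ℝ)) z X)) := this
        _ = _ := by ring
    rw [mul_assoc]
    exact (h1.trans h2).trans (le_mul_of_one_le_right h3 h7)
  · exact prJ_Gd hG (θ.2.2.2 t ht).1
  · exact mul_nonneg (hG0 s) (prod_nonneg fun i _ => hgn hs i)
  · exact prod_nonneg fun i _ => mul_nonneg (by positivity)
      (div_nonneg (hgn hs i) (Nat.cast_nonneg _))
  · exact prod_nonneg fun i _ => by positivity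
  · -- the first sum
    obtain ⟨A, hA⟩ := RSPf.rsp (J × Bool) z c (rJ u cls f z) GG
      (fun y => C' * Real.exp (Sp (fun p => rho (∏ j, f j) p) z y)) (2 ^ k0 * AD) lam (by omega)
      (fun i p => ⟨rJ_nonneg u cls f z i p, rJ_le hG i p⟩)
      (one_le_mul_of_one_le_of_one_le (one_le_pow₀ (by norm_num)) hAD1) hlam hG0
      (fun y hy s e hse => by
        have g1 := h3 J (fun j l => adj (cls j) (cls l)) k0 z y (by omega) s e hse
        have g2 := nn2_growth hTT0 s e hse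
        rw [← hAD] at g2
        rw [mul_pow]
        refine (mul_le_mul g1 g2 (rjn hTT0 _) (by positivity)).trans (le_of_eq ?_)
        simp only [hGdef]
        unfold adJ Eneg
        ring)
      (fun y hy => by
        refine le_trans (le_of_eq ?_) (hC' y hy)
        refine sum_congr rfl fun s _ => ?_
        simp only [hGdef]
        unfold nn2
        ring)
    refine ⟨A * C', fun y hy => ?_⟩
    have := hA y hy
    rw [mul_assoc]
    exact this
  · exact RVU.rvp (J × Bool) z c (rJ u cls f z) A2 lam (by omega)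
      (fun i p => ⟨rJ_nonneg u cls f z i p, rJ_le hG i p⟩) hA21 hlam
  · exact RVU.rup (J × Bool) (c : ℝ) lam (by exact_mod_cast hc1) hlam
  -- the local majorant
  rintro ⟨⟨⟨N, X⟩, T⟩, ⟨hX1, hN⟩, hT, hTT⟩ y Y k hy0 hzy hyK hk s hs v hv w hw h8 T' hT' hval
  simp only at hX1 hN hT hTT hyK hk h8 hT' hval ⊢
  have hy00 : y0 ≤ y := by omega
  have hyX : y ≤ X := le_trans (Nat.le_self_pow (by omega) y) hyK
  have hyK' : y ^ K ≤ X := (Nat.pow_le_pow_right (by omega) (by omega)).trans hyK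
  have hy2 : y ^ 2 ≤ X := (Nat.pow_le_pow_right (by omega) (by omega)).trans hyK
  have h1 : ∀ t ∈ T', r (N + (t : ℤ)) ≤
      (Cr ^ k0 * AD ^ (Fintype.card J * z)) * D1 ^ k *
        (∏ i, A2 ^ (v i).primeFactors.card) * GG s := by
    intro t ht
    have htT := hT' ht
    have ht1 := hT htT
    have ht0 := (hTT t htT).1
    obtain ⟨hts, htv, _⟩ := hval t ht
    have hsize : ∀ j, ((f j).eval (N + (t : ℤ))).natAbs ≤ X ^ B' := by
      intro j
      have e2 : t ≤ X := (mem_Icc.1 ht1).2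
      have e5 : X ^ B ≤ X ^ (B + 1) := Nat.pow_le_pow_right hX1 (by omega)
      have e6 : X ≤ X ^ (B + 1) := Nat.le_self_pow (by omega) X
      have e8 : (N + (t : ℤ)).natAbs ≤ X ^ (B + 2) := by
        calc (N + (t : ℤ)).natAbs ≤ N.natAbs + t :=
              (Int.natAbs_add_le _ _).trans (by rw [Int.natAbs_natCast])
          _ ≤ X ^ (B + 1) + X ^ (B + 1) := Nat.add_le_add (hN.trans e5) (e2.trans e6)
          _ = 2 * X ^ (B + 1) := by ring
          _ ≤ X * X ^ (B + 1) := Nat.mul_le_mul_right _ (by omega)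
          _ = X ^ (B + 2) := by ring
      calc ((f j).eval (N + (t : ℤ))).natAbs ≤ Kd * (X ^ (B + 2)) ^ m :=
            hKd _ _ (Nat.one_le_pow _ _ hX1) e8 j
        _ ≤ X * (X ^ (B + 2)) ^ m := Nat.mul_le_mul_right _ (by omega)
        _ = X ^ B' := by rw [hB', ← pow_mul]; ring
    have hr := (hrank y X k B' (N + (t : ℤ)) ht0 hsize hX1 (by omega) hk).2
    have hrh := rho_omf (u := u) (cls := cls) (z := z) hTT0 ht0 hsize hk
    rw [hts, htv] at hr hrh
    rw [← hAD] at hrh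
    have hNV : (0 : ℝ) ≤ (NV (adJ cls) s (Eneg s) : ℝ) ^ k0 := by positivity
    have hrk := pow_le_pow_left₀ (Nat.cast_nonneg _) hr k0
    refine (mul_le_mul hrk hrh (rjn hTT0 _) (by positivity)).trans (le_of_eq ?_)
    rw [mul_pow, mul_pow, mul_pow, ← prod_pow]
    have e1 : ((((2 : ℝ) ^ (2 * g + 1)) ^ (B' * Fintype.card J)) ^ k) ^ k0 *
        AD ^ (Fintype.card J * (k * B')) = D1 ^ k := by
      rw [hD1, mul_pow, ← pow_mul, ← pow_mul _ k0 k, ← pow_mul AD, mul_comm k k0]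
      congr 2
      ring
    have e2 : (∏ i : J × Bool, (((2 : ℝ) ^ (2 * g + 1)) ^ (v i).primeFactors.card) ^ k0) *
        AD ^ (∑ i, (v i).primeFactors.card) = ∏ i, A2 ^ (v i).primeFactors.card := by
      rw [← prod_pow_eq_pow_sum, ← prod_mul_distrib]
      refine prod_congr rfl fun i _ => ?_
      rw [hA2, mul_pow, ← pow_mul, ← pow_mul _ k0, mul_comm k0]
    rw [← e1, ← e2, pow_add, pow_add]
    simp only [hGdef]
    ring
  have hT'c : (T'.card : ℝ) ≤ _ := hcn N X y Y hy00 hzy hyK' s v w hs hv hw h8 T' fun t ht => by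
    have htT := hT' ht
    obtain ⟨hts, htv, htw⟩ := hval t ht
    refine ⟨hT htT, (hTT t htT).1, hts, htv, htw, fun p hp => ?_⟩
    have hp' := mem_PS'.1 hp
    exact (hTT t htT).2 p hp'.2 hp'.1.1 ((Nat.pow_le_pow_left hp'.1.2 2).trans hy2)
  set SG : ℝ := Real.exp (-Sp (fun p => (rho G p : ℝ)) z X) with hSG
  have hGc : ∀ p : ℕ, p.Prime → z < p → rho G p ≤ c := fun p hp hzp =>
    (Nat.le_add_left _ _).trans (hG2 p hp hzp).1
  have hexpG := exp_G hGc hzy (hAt y X k hzy hk)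
  have n1 : 0 ≤ ∏ i, gp (rJ u cls f z i) c (s i) := prod_nonneg fun i _ => hgn hs i
  have n2 : 0 ≤ ∏ i, gp (rJ u cls f z i) c (v i) / v i :=
    prod_nonneg fun i _ => div_nonneg (hgn hv i) (Nat.cast_nonneg _)
  have n3 : 0 ≤ ∏ i, (c : ℝ) ^ (w i).primeFactors.card / w i :=
    prod_nonneg fun i _ => by positivity
  have n4 : 0 ≤ (Cr ^ k0 * AD ^ (Fintype.card J * z)) * D1 ^ k *
      (∏ i, A2 ^ (v i).primeFactors.card) * GG s := by
    have := hG0 s
    have h5 : 0 ≤ D1 := by linarith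
    have h6 : 0 ≤ A2 := by linarith
    have h7 : 0 ≤ AD := by linarith
    positivity
  have h5 : (T'.card : ℝ) ≤ Cc * X * (∏ i, gp (rJ u cls f z i) c (s i)) *
      (∏ i, gp (rJ u cls f z i) c (v i) / v i) *
      (∏ i, (c : ℝ) ^ (w i).primeFactors.card / w i) *
      Real.exp (-Sp (fun p => rho (∏ j, f j) p) z y) *
      (Real.exp (c * At) * (Real.exp c) ^ k * SG) := by
    refine hT'c.trans (mul_le_mul_of_nonneg_left hexpG ?_)
    positivity
  calc ∑ t ∈ T', r (N + (t : ℤ))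
      ≤ ∑ t ∈ T', (Cr ^ k0 * AD ^ (Fintype.card J * z)) * D1 ^ k *
          (∏ i, A2 ^ (v i).primeFactors.card) * GG s := sum_le_sum h1
    _ = (T'.card : ℝ) * ((Cr ^ k0 * AD ^ (Fintype.card J * z)) * D1 ^ k *
          (∏ i, A2 ^ (v i).primeFactors.card) * GG s) := by
        rw [sum_const, nsmul_eq_mul]
    _ ≤ (Cc * X * (∏ i, gp (rJ u cls f z i) c (s i)) *
      (∏ i, gp (rJ u cls f z i) c (v i) / v i) *
      (∏ i, (c : ℝ) ^ (w i).primeFactors.card / w i) *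
      Real.exp (-Sp (fun p => rho (∏ j, f j) p) z y) *
      (Real.exp (c * At) * (Real.exp c) ^ k * SG)) *
        ((Cr ^ k0 * AD ^ (Fintype.card J * z)) * D1 ^ k *
          (∏ i, A2 ^ (v i).primeFactors.card) * GG s) :=
        mul_le_mul_of_nonneg_right h5 n4
    _ = _ := by
        rw [Real.exp_neg (Sp (fun p => (rho (∏ j, f j) p : ℝ)) z y), prod_mul_distrib, mul_pow D1]
        ring

end Pool.Agent.TH344.PW
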