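import Mathlib
import Pool.Agent.H474R2.GE.FA
import Pool.Agent.TH344.JG.Bad
import Pool.Agent.TH344.PW.Stm

/-! Project PW: the arguments of small weight are rare (Turan-Kubilius for polynomials in short
intervals). -/

set_option autoImplicit false

namespace Pool.Agent.TH344.PW.BadAux

open Finset Polynomial Filter

open Pool.Agent.H474R2.PG (rho Sg PR)

lemma countb {m X b : ℕ} (hm : 0 < m) (hb : b < m) :
    X / m ≤ ((range X).filter (fun a => a % m = b)).card ∧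
      ((range X).filter (fun a => a % m = b)).card ≤ X / m + 1 := by
  have h1 : ((range X).filter (fun a => a % m = b)).card = Nat.count (· ≡ b [MOD m]) X := by
    rw [Nat.count_eq_card_filter_range]
    congr 1
    ext a
    rw [mem_filter, mem_filter]
    refine and_congr_right fun _ => ?_
    unfold Nat.ModEq
    rw [Nat.mod_eq_of_lt hb]
  rw [h1, Nat.count_modEq_card _ hm]
  split_ifs <;> omega

lemma cnt {m X : ℕ} (hm : 0 < m) (H : Finset ℕ) (hH : H ⊆ range m) :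
    H.card * (X / m) ≤ ((range X).filter (fun t => t % m ∈ H)).card ∧
      ((range X).filter (fun t => t % m ∈ H)).card ≤ H.card * (X / m + 1) := by
  have h1 : ((range X).filter (fun t => t % m ∈ H)).card =
      ∑ b ∈ H, ((range X).filter (fun a => a % m = b)).card := by
    rw [card_eq_sum_card_fiberwise (f := fun t => t % m) (t := H)]
    · refine sum_congr rfl fun b hb => ?_
      congr 1
      ext a
      simp only [mem_filter]
      constructor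
      · rintro ⟨⟨h1, _⟩, h3⟩; exact ⟨h1, h3⟩
      · rintro ⟨h1, h3⟩; exact ⟨⟨h1, by rw [h3]; exact hb⟩, h3⟩
    · intro t ht
      exact (mem_filter.1 (mem_coe.1 ht)).2
  rw [h1]
  constructor
  · rw [← smul_eq_mul, ← sum_const]
    exact sum_le_sum fun b hb => (countb hm (mem_range.1 (hH hb))).1
  · rw [← smul_eq_mul, ← sum_const]
    exact sum_le_sum fun b hb => (countb hm (mem_range.1 (hH hb))).2

/-- the residues -/
noncomputable def H (f : ℤ[X]) (M : ℤ) (p : ℕ) : Finset ℕ :=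
  (range p).filter (fun a : ℕ => (p : ℤ) ∣ f.eval ((a : ℤ) + M))

lemma card_H (f : ℤ[X]) (M : ℤ) {p : ℕ} (hp : p.Prime) : (H f M p).card = rho f p :=
  Pool.Agent.H474R2.PG.rho_shift f p hp M

lemma mem_H (f : ℤ[X]) (M : ℤ) {p : ℕ} (hp : 0 < p) (t : ℕ) :
    t % p ∈ H f M p ↔ (p : ℤ) ∣ f.eval ((t : ℤ) + M) := by
  unfold H
  rw [mem_filter, mem_range, Pool.Agent.H474R2.GE.dvd_eval_mod]
  exact ⟨fun h => h.2, fun h => ⟨Nat.mod_lt _ hp, h⟩⟩

lemma cnt1 (f : ℤ[X]) (M : ℤ) {p : ℕ} (hp : p.Prime) (X : ℕ) :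
    rho f p * (X / p) ≤ ((range X).filter (fun t : ℕ => (p : ℤ) ∣ f.eval ((t : ℤ) + M))).card ∧
      ((range X).filter (fun t : ℕ => (p : ℤ) ∣ f.eval ((t : ℤ) + M))).card ≤
        rho f p * (X / p + 1) := by
  have h := cnt (X := X) hp.pos (H f M p) (filter_subset _ _)
  rw [card_H f M hp] at h
  have e : ((range X).filter (fun t => t % p ∈ H f M p)) =
      ((range X).filter (fun t : ℕ => (p : ℤ) ∣ f.eval ((t : ℤ) + M))) := by
    ext t
    rw [mem_filter, mem_filter, mem_H f M hp.pos]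
  rw [e] at h
  exact h

lemma cnt2 (f : ℤ[X]) (M : ℤ) {p q : ℕ} (hp : p.Prime) (hq : q.Prime) (hpq : p ≠ q) (X : ℕ) :
    ((range X).filter (fun t : ℕ => (p : ℤ) ∣ f.eval ((t : ℤ) + M) ∧
      (q : ℤ) ∣ f.eval ((t : ℤ) + M))).card ≤ rho f p * rho f q * (X / (p * q) + 1) := by
  have hcop : p.Coprime q := (Nat.coprime_primes hp hq).2 hpq
  set K : Finset ℕ := (range (p * q)).filter (fun v => v % p ∈ H f M p ∧ v % q ∈ H f M q) with hK
  have hKc : K.card ≤ rho f p * rho f q := by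
    rw [← card_H f M hp, ← card_H f M hq, ← card_product]
    refine card_le_card_of_injOn (fun v => (v % p, v % q)) ?_ ?_
    · intro v hv
      have hv' := (mem_filter.1 (mem_coe.1 hv)).2
      exact mem_coe.2 (mem_product.2 hv')
    · intro v hv w hw h
      have hv' := mem_range.1 (mem_filter.1 (mem_coe.1 hv)).1
      have hw' := mem_range.1 (mem_filter.1 (mem_coe.1 hw)).1
      simp only [Prod.mk.injEq] at h
      have h1 : v ≡ w [MOD p * q] := (Nat.modEq_and_modEq_iff_modEq_mul hcop).1 h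
      have h2 : v % (p * q) = w % (p * q) := h1
      rwa [Nat.mod_eq_of_lt hv', Nat.mod_eq_of_lt hw'] at h2
  have h := (cnt (X := X) (Nat.mul_pos hp.pos hq.pos) K (filter_subset _ _)).2
  have e : ((range X).filter (fun t => t % (p * q) ∈ K)) =
      ((range X).filter (fun t : ℕ => (p : ℤ) ∣ f.eval ((t : ℤ) + M) ∧
      (q : ℤ) ∣ f.eval ((t : ℤ) + M))) := by
    ext t
    have e1 : t % (p * q) % p = t % p := Nat.mod_mod_of_dvd t (dvd_mul_right p q)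
    have e2 : t % (p * q) % q = t % q := Nat.mod_mod_of_dvd t (dvd_mul_left q p)
    simp only [hK, mem_filter, mem_range, e1, e2]
    rw [mem_H f M hp.pos, mem_H f M hq.pos]
    constructor
    · rintro ⟨h1, _, h2⟩; exact ⟨h1, h2⟩
    · rintro ⟨h1, h2⟩; exact ⟨h1, Nat.mod_lt _ (Nat.mul_pos hp.pos hq.pos), h2⟩
  rw [e] at h
  exact h.trans (Nat.mul_le_mul_right _ hKc)

/-- the primes up to `Y` -/
def Q (Y : ℕ) : Finset ℕ := (Icc 1 Y).filter Nat.Prime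

lemma Sg_eq (r : ℕ → ℕ) (Y : ℕ) : Sg r (Y : ℝ) = ∑ p ∈ Q Y, (r p : ℝ) / (p : ℝ) := by
  unfold Sg PR Q
  rw [Nat.floor_natCast]

lemma card_Q (Y : ℕ) : (Q Y).card ≤ Y := by
  unfold Q
  refine (card_filter_le _ _).trans ?_
  rw [Nat.card_Icc]
  omega

/-- the number of the prime factors up to `Y` -/
noncomputable def o (f : ℤ[X]) (M : ℤ) (Y t : ℕ) : ℕ :=
  ((Q Y).filter (fun p : ℕ => (p : ℤ) ∣ f.eval ((t : ℤ) + M))).card

lemma o_eq (f : ℤ[X]) (M : ℤ) (Y t : ℕ) :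
    (o f M Y t : ℝ) = ∑ p ∈ Q Y, if (p : ℤ) ∣ f.eval ((t : ℤ) + M) then (1 : ℝ) else 0 := by
  unfold o
  rw [sum_ite, sum_const_zero, add_zero, sum_const, nsmul_eq_mul, mul_one]

lemma sum_ind (X : ℕ) (P : ℕ → Prop) [DecidablePred P] :
    ∑ t ∈ range X, (if P t then (1 : ℝ) else 0) = (((range X).filter P).card : ℝ) := by
  rw [sum_ite, sum_const_zero, add_zero, sum_const, nsmul_eq_mul, mul_one]

lemma sum_o_ge (f : ℤ[X]) {c : ℕ} (hc : ∀ p : ℕ, p.Prime → rho f p ≤ c) (M : ℤ) (X Y : ℕ) :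
    (X : ℝ) * Sg (rho f) Y - c * Y ≤ ∑ t ∈ range X, (o f M Y t : ℝ) := by
  classical
  simp only [o_eq]
  rw [sum_comm, Sg_eq, mul_sum]
  have h1 : ∀ p ∈ Q Y, (X : ℝ) * ((rho f p : ℝ) / p) - c ≤
      ∑ t ∈ range X, (if (p : ℤ) ∣ f.eval ((t : ℤ) + M) then (1 : ℝ) else 0) := by
    intro p hp
    have hpp : p.Prime := (mem_filter.1 hp).2
    rw [sum_ind]
    have h2 := (cnt1 f M hpp X).1
    have h2' : (rho f p : ℝ) * ((X / p : ℕ) : ℝ) ≤
        (((range X).filter (fun t : ℕ => (p : ℤ) ∣ f.eval ((t : ℤ) + M))).card : ℝ) := by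
      exact_mod_cast h2
    refine le_trans ?_ h2'
    have hp0 : (0 : ℝ) < p := by exact_mod_cast hpp.pos
    have h3 : (X : ℝ) / p - 1 ≤ ((X / p : ℕ) : ℝ) := by
      have h3 : X < (X / p + 1) * p := by
        rw [add_mul, one_mul]
        exact Nat.lt_div_mul_add hpp.pos
      have h4 : (X : ℝ) < ((X / p : ℕ) + 1) * p := by exact_mod_cast h3
      rw [← div_lt_iff₀ hp0] at h4
      linarith
    have h4 : (rho f p : ℝ) ≤ c := by exact_mod_cast hc p hpp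
    have h5 : (0 : ℝ) ≤ rho f p := Nat.cast_nonneg _
    calc (X : ℝ) * ((rho f p : ℝ) / p) - c ≤ (X : ℝ) * ((rho f p : ℝ) / p) - rho f p := by linarith
      _ = (rho f p : ℝ) * ((X : ℝ) / p - 1) := by ring
      _ ≤ _ := mul_le_mul_of_nonneg_left h3 h5
  have h2 := sum_le_sum h1
  rw [sum_sub_distrib, sum_const, nsmul_eq_mul] at h2
  have h3 : ((Q Y).card : ℝ) * c ≤ c * Y := by
    rw [mul_comm]
    exact mul_le_mul_of_nonneg_left (by exact_mod_cast card_Q Y) (Nat.cast_nonneg _)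
  linarith

lemma sum_o_sq (f : ℤ[X]) {c : ℕ} (hc : ∀ p : ℕ, p.Prime → rho f p ≤ c) (M : ℤ) (X Y : ℕ) :
    ∑ t ∈ range X, (o f M Y t : ℝ) ^ 2 ≤
      X * Sg (rho f) Y ^ 2 + c ^ 2 * Y ^ 2 + (X * Sg (rho f) Y + c * Y) := by
  classical
  have h1 : ∑ t ∈ range X, (o f M Y t : ℝ) ^ 2 =
      ∑ p ∈ Q Y, ∑ q ∈ Q Y, ∑ t ∈ range X, (if (p : ℤ) ∣ f.eval ((t : ℤ) + M) ∧
        (q : ℤ) ∣ f.eval ((t : ℤ) + M) then (1 : ℝ) else 0) := by
    simp only [o_eq]
    have : ∀ t : ℕ, (∑ p ∈ Q Y, if (p : ℤ) ∣ f.eval ((t : ℤ) + M) then (1 : ℝ) else 0) ^ 2 =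
        ∑ p ∈ Q Y, ∑ q ∈ Q Y, (if (p : ℤ) ∣ f.eval ((t : ℤ) + M) ∧
        (q : ℤ) ∣ f.eval ((t : ℤ) + M) then (1 : ℝ) else 0) := by
      intro t
      rw [sq, sum_mul_sum]
      refine sum_congr rfl fun p _ => sum_congr rfl fun q _ => ?_
      by_cases h1 : (p : ℤ) ∣ f.eval ((t : ℤ) + M) <;>
        by_cases h2 : (q : ℤ) ∣ f.eval ((t : ℤ) + M) <;> simp [h1, h2]
    simp only [this]
    rw [sum_comm]
    refine sum_congr rfl fun p _ => ?_
    rw [sum_comm]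
  rw [h1]
  have h2 : ∀ p ∈ Q Y, ∀ q ∈ Q Y, ∑ t ∈ range X, (if (p : ℤ) ∣ f.eval ((t : ℤ) + M) ∧
        (q : ℤ) ∣ f.eval ((t : ℤ) + M) then (1 : ℝ) else 0) ≤
      ((X : ℝ) * ((rho f p : ℝ) / p) * ((rho f q : ℝ) / q) + c ^ 2) +
        (if p = q then (X : ℝ) * ((rho f p : ℝ) / p) + c else 0) := by
    intro p hp q hq
    have hpp : p.Prime := (mem_filter.1 hp).2
    have hqq : q.Prime := (mem_filter.1 hq).2
    have hp0 : (0 : ℝ) < p := by exact_mod_cast hpp.pos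
    have hq0 : (0 : ℝ) < q := by exact_mod_cast hqq.pos
    have hpc : (rho f p : ℝ) ≤ c := by exact_mod_cast hc p hpp
    have hqc : (rho f q : ℝ) ≤ c := by exact_mod_cast hc q hqq
    have hp1 : (0 : ℝ) ≤ rho f p := Nat.cast_nonneg _
    have hq1 : (0 : ℝ) ≤ rho f q := Nat.cast_nonneg _
    rw [sum_ind]
    by_cases hpq : p = q
    · subst hpq
      rw [if_pos rfl]
      simp only [and_self]
      have h3 := (cnt1 f M hpp X).2
      have h3' : (((range X).filter (fun t : ℕ => (p : ℤ) ∣ f.eval ((t : ℤ) + M))).card : ℝ) ≤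
          (rho f p : ℝ) * (((X / p : ℕ) : ℝ) + 1) := by exact_mod_cast h3
      have h4 : ((X / p : ℕ) : ℝ) ≤ (X : ℝ) / p := Nat.cast_div_le
      have h5 : (0 : ℝ) ≤ (X : ℝ) * ((rho f p : ℝ) / p) * ((rho f p : ℝ) / p) + c ^ 2 := by
        positivity
      have h6 : (rho f p : ℝ) * (((X / p : ℕ) : ℝ) + 1) ≤ (rho f p : ℝ) * ((X : ℝ) / p + 1) :=
        mul_le_mul_of_nonneg_left (by linarith) hp1
      have h7 : (rho f p : ℝ) * ((X : ℝ) / p + 1) = (X : ℝ) * ((rho f p : ℝ) / p) + rho f p := by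
        ring
      linarith
    · rw [if_neg hpq, add_zero]
      have h3 := cnt2 f M hpp hqq hpq X
      have h3' : (((range X).filter (fun t : ℕ => (p : ℤ) ∣ f.eval ((t : ℤ) + M) ∧
          (q : ℤ) ∣ f.eval ((t : ℤ) + M))).card : ℝ) ≤
          (rho f p : ℝ) * rho f q * (((X / (p * q) : ℕ) : ℝ) + 1) := by exact_mod_cast h3
      have h4 : ((X / (p * q) : ℕ) : ℝ) ≤ (X : ℝ) / ((p * q : ℕ) : ℝ) := Nat.cast_div_le
      rw [Nat.cast_mul] at h4
      have h6 : (rho f p : ℝ) * rho f q * (((X / (p * q) : ℕ) : ℝ) + 1) ≤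
          (rho f p : ℝ) * rho f q * ((X : ℝ) / (p * q) + 1) :=
        mul_le_mul_of_nonneg_left (by linarith) (by positivity)
      have h7 : (rho f p : ℝ) * rho f q * ((X : ℝ) / (p * q) + 1) =
          (X : ℝ) * ((rho f p : ℝ) / p) * ((rho f q : ℝ) / q) + rho f p * rho f q := by
        field_simp
      have h8 : (rho f p : ℝ) * rho f q ≤ c ^ 2 := by
        rw [sq]
        exact mul_le_mul hpc hqc hq1 (by positivity)
      linarith
  refine (sum_le_sum fun p hp => sum_le_sum fun q hq => h2 p hp q hq).trans ?_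
  simp only [sum_add_distrib]
  have hcard : ((Q Y).card : ℝ) ≤ Y := by exact_mod_cast card_Q Y
  have hA : ∑ p ∈ Q Y, ∑ q ∈ Q Y, (X : ℝ) * ((rho f p : ℝ) / p) * ((rho f q : ℝ) / q) =
      X * Sg (rho f) Y ^ 2 := by
    rw [Sg_eq, sq, sum_mul_sum, mul_sum]
    refine sum_congr rfl fun p _ => ?_
    rw [mul_sum]
    exact sum_congr rfl fun q _ => by ring
  have hB : ∑ _p ∈ Q Y, ∑ _q ∈ Q Y, (c : ℝ) ^ 2 ≤ c ^ 2 * Y ^ 2 := by
    rw [sum_const, sum_const, nsmul_eq_mul, nsmul_eq_mul]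
    have : ((Q Y).card : ℝ) * ((Q Y).card * (c : ℝ) ^ 2) = (c : ℝ) ^ 2 * (Q Y).card ^ 2 := by ring
    rw [this]
    gcongr
  have hC : ∑ p ∈ Q Y, ∑ q ∈ Q Y, (if p = q then (X : ℝ) * ((rho f p : ℝ) / p) + c else 0) ≤
      X * Sg (rho f) Y + c * Y := by
    have : ∀ p ∈ Q Y, ∑ q ∈ Q Y, (if p = q then (X : ℝ) * ((rho f p : ℝ) / p) + c else 0) =
        (X : ℝ) * ((rho f p : ℝ) / p) + c := by
      intro p hp
      rw [sum_ite_eq, if_pos hp]
    rw [sum_congr rfl this, sum_add_distrib, ← mul_sum, ← Sg_eq, sum_const, nsmul_eq_mul]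
    have : ((Q Y).card : ℝ) * c ≤ c * Y := by
      rw [mul_comm]
      exact mul_le_mul_of_nonneg_left hcard (Nat.cast_nonneg _)
    linarith
  rw [hA]
  linarith

lemma Sg_nonneg (f : ℤ[X]) (Y : ℕ) : 0 ≤ Sg (rho f) (Y : ℝ) := by
  rw [Sg_eq]
  exact sum_nonneg fun p _ => by positivity

lemma Sg_le (f : ℤ[X]) {c : ℕ} (hc : ∀ p : ℕ, p.Prime → rho f p ≤ c) (Y : ℕ) :
    Sg (rho f) (Y : ℝ) ≤ c * Y := by
  rw [Sg_eq]
  have h1 : ∑ p ∈ Q Y, (rho f p : ℝ) / (p : ℝ) ≤ ∑ _p ∈ Q Y, (c : ℝ) := by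
    refine sum_le_sum fun p hp => ?_
    have hpp : p.Prime := (mem_filter.1 hp).2
    have hp1 : (1 : ℝ) ≤ p := by exact_mod_cast hpp.one_le
    have h2 : (rho f p : ℝ) ≤ c := by exact_mod_cast hc p hpp
    exact (div_le_self (Nat.cast_nonneg _) hp1).trans h2
  refine h1.trans ?_
  rw [sum_const, nsmul_eq_mul, mul_comm]
  exact mul_le_mul_of_nonneg_left (by exact_mod_cast card_Q Y) (Nat.cast_nonneg _)

/-- the variance -/
lemma var (f : ℤ[X]) {c : ℕ} (hc : ∀ p : ℕ, p.Prime → rho f p ≤ c) (M : ℤ) {X Y : ℕ}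
    (hY : Y ^ 2 ≤ X) :
    ∑ t ∈ range X, ((o f M Y t : ℝ) - Sg (rho f) Y) ^ 2 ≤
      X * (Sg (rho f) Y + (3 * c ^ 2 + c)) := by
  have h1 := sum_o_ge f hc M X Y
  have h2 := sum_o_sq f hc M X Y
  have h0 := Sg_nonneg f Y
  have h0' := Sg_le f hc Y
  set L := Sg (rho f) (Y : ℝ) with hL
  have h3 : ∑ t ∈ range X, ((o f M Y t : ℝ) - L) ^ 2 = ∑ t ∈ range X, (o f M Y t : ℝ) ^ 2 -
      2 * L * ∑ t ∈ range X, (o f M Y t : ℝ) + X * L ^ 2 := by
    have h4 : ∀ t : ℕ, ((o f M Y t : ℝ) - L) ^ 2 = (o f M Y t : ℝ) ^ 2 -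
      2 * L * (o f M Y t : ℝ) + L ^ 2 := fun n => by ring
    simp only [h4]
    rw [sum_add_distrib, sum_sub_distrib, ← mul_sum, sum_const, card_range, nsmul_eq_mul]
  rw [h3]
  have h6 : 2 * L * ((X : ℝ) * L - c * Y) ≤ 2 * L * ∑ t ∈ range X, (o f M Y t : ℝ) :=
    mul_le_mul_of_nonneg_left h1 (by positivity)
  have hYX : (Y : ℝ) ^ 2 ≤ X := by exact_mod_cast hY
  have hY1 : (Y : ℝ) ≤ (Y : ℝ) ^ 2 := by
    have : Y ≤ Y ^ 2 := Nat.le_self_pow (by norm_num) Y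
    exact_mod_cast this
  have hc0 : (0 : ℝ) ≤ c := Nat.cast_nonneg _
  have e1 : 2 * L * (c * Y) ≤ 2 * c ^ 2 * X := by
    calc 2 * L * (c * Y) ≤ 2 * (c * Y) * (c * Y) := by gcongr
      _ = 2 * c ^ 2 * (Y : ℝ) ^ 2 := by ring
      _ ≤ 2 * c ^ 2 * X := by gcongr
  have e2 : (c : ℝ) ^ 2 * Y ^ 2 ≤ c ^ 2 * X := by gcongr
  have e3 : (c : ℝ) * Y ≤ c * X := mul_le_mul_of_nonneg_left (hY1.trans hYX) hc0
  nlinarith

/-- the prime factors of a value and the primes up to `Y` -/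
lemma omega (g : ℤ[X]) (M : ℤ) {Y t K : ℕ} (hne : g.eval ((t : ℤ) + M) ≠ 0) (hY : 1 ≤ Y)
    (hle : (g.eval ((t : ℤ) + M)).natAbs < (Y + 1) ^ K) :
    o g M Y t ≤ (g.eval ((t : ℤ) + M)).natAbs.primeFactors.card ∧
      (g.eval ((t : ℤ) + M)).natAbs.primeFactors.card ≤ o g M Y t + K := by
  set v := (g.eval ((t : ℤ) + M)).natAbs with hv
  have hv0 : v ≠ 0 := Int.natAbs_ne_zero.2 hne
  have h1 : v.primeFactors.filter (fun p => p ≤ Y) =
      (Q Y).filter (fun p : ℕ => (p : ℤ) ∣ g.eval ((t : ℤ) + M)) := by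
    ext p
    unfold Q
    rw [mem_filter, mem_filter, mem_filter, mem_Icc, Nat.mem_primeFactors, Int.natCast_dvd, ← hv]
    constructor
    · rintro ⟨⟨h1, h2, h3⟩, h4⟩
      exact ⟨⟨⟨h1.one_le, h4⟩, h1⟩, h2⟩
    · rintro ⟨⟨⟨h1, h2⟩, h3⟩, h4⟩
      exact ⟨⟨h3, h4, hv0⟩, h2⟩
  have h2 := card_filter_add_card_filter_not (s := v.primeFactors) (fun p => p ≤ Y)
  have h3 : (v.primeFactors.filter (fun p => p ≤ Y)).card = o g M Y t := by
    rw [h1]; rfl
  have h4 : (v.primeFactors.filter (fun p => ¬ p ≤ Y)).card < K := by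
    set S := v.primeFactors.filter (fun p => ¬ p ≤ Y) with hS
    have h5 : (Y + 1) ^ S.card ≤ ∏ p ∈ S, p := by
      rw [← prod_const]
      refine prod_le_prod' fun p hp => ?_
      have := (mem_filter.1 hp).2
      omega
    have h6 : ∏ p ∈ S, p ≤ v :=
      Nat.le_of_dvd (Nat.pos_of_ne_zero hv0)
        ((prod_dvd_prod_of_subset _ _ _ (filter_subset _ _)).trans (Nat.prod_primeFactors_dvd v))
    exact (Nat.pow_lt_pow_iff_right (by omega : 1 < Y + 1)).1 ((h5.trans h6).trans_lt hle)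
  omega

lemma card_zero (g : ℤ[X]) (hg : g ≠ 0) (M : ℤ) (X : ℕ) :
    ((range X).filter (fun t : ℕ => g.eval ((t : ℤ) + M) = 0)).card ≤ g.natDegree := by
  classical
  refine le_trans ?_ ((Multiset.toFinset_card_le _).trans (card_roots' g))
  refine card_le_card_of_injOn (fun t : ℕ => (t : ℤ) + M) ?_ ?_
  · intro t ht
    have := (mem_filter.1 (mem_coe.1 ht)).2
    rw [mem_coe, Multiset.mem_toFinset, mem_roots hg]
    exact this
  · intro a _ b _ h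
    simp only at h
    exact_mod_cast (add_right_cancel h : (a : ℤ) = b)

lemma sqrt4 (X : ℕ) : (Nat.sqrt (Nat.sqrt X)) ^ 2 ≤ X ∧ X < (Nat.sqrt (Nat.sqrt X) + 1) ^ 4 := by
  have h1 : Nat.sqrt (Nat.sqrt X) ^ 2 ≤ Nat.sqrt X := Nat.sqrt_le' _
  have h2 : Nat.sqrt X < (Nat.sqrt (Nat.sqrt X) + 1) ^ 2 := Nat.lt_succ_sqrt' _
  have h3 : X < (Nat.sqrt X + 1) ^ 2 := Nat.lt_succ_sqrt' _
  refine ⟨h1.trans (Nat.sqrt_le_self X), h3.trans_le ?_⟩
  calc (Nat.sqrt X + 1) ^ 2 ≤ ((Nat.sqrt (Nat.sqrt X) + 1) ^ 2) ^ 2 :=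
        Nat.pow_le_pow_left h2 2
    _ = _ := by rw [← pow_mul]

lemma sqrt_tendsto : Tendsto (fun X : ℕ => Nat.sqrt (Nat.sqrt X)) atTop atTop := by
  have h : Tendsto Nat.sqrt atTop atTop := by
    refine tendsto_atTop_atTop.2 fun b => ⟨b * b, fun a ha => ?_⟩
    rw [Nat.le_sqrt]
    exact ha
  exact h.comp h

lemma loglog_tendsto : Tendsto (fun X : ℕ =>
    Real.log (Real.log ((Nat.sqrt (Nat.sqrt X) : ℕ) : ℝ))) atTop atTop :=
  Real.tendsto_log_atTop.comp (Real.tendsto_log_atTop.comp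
    (tendsto_natCast_atTop_atTop.comp sqrt_tendsto))

end Pool.Agent.TH344.PW.BadAux

namespace Pool.Agent.TH344.PW

open Finset Polynomial Filter BadAux

open Pool.Agent.TH841.PT (Irr eval_le_all)

open Pool.Agent.H474R2.PG (rho Sg PR)

/-- **PW-BAD** -/
theorem badb : S_BADB := by
  classical
  intro J _ _ f T B hf hT1 hT2 ε hε
  obtain ⟨δ, hδ, hδT⟩ := Pool.Agent.TH344.JG.BadAux.exists_delta T hT2
  obtain ⟨Kd, m, hKd⟩ := eval_le_all f
  choose B0 hB0 using fun j => Pool.Agent.H474R2.PG.rho_le (f j) (hf.irr j).ne_zero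
  choose C hC0 hC using fun j => Pool.Agent.H474R2.GE.mertens_rho (f j) (hf.irr j) (hf.deg j)
  obtain ⟨c, hcdef⟩ : ∃ c : ℕ, c = ∑ j, (B0 j + (f j).natDegree) := ⟨_, rfl⟩
  have hcj : ∀ j, B0 j + (f j).natDegree ≤ c := fun j => by
    rw [hcdef]
    exact single_le_sum (f := fun j => B0 j + (f j).natDegree) (fun _ _ => Nat.zero_le _)
      (mem_univ j)
  have hc : ∀ j, ∀ p : ℕ, p.Prime → rho (f j) p ≤ c := by
    intro j p hp
    by_cases h : B0 j < p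
    · exact (hB0 j p hp h).trans (le_trans (Nat.le_add_left _ _) (hcj j))
    · exact (Pool.Agent.H474R2.PG.rho_le_self (f j) p).trans
        ((not_lt.1 h).trans (le_trans (Nat.le_add_right _ _) (hcj j)))
  obtain ⟨Cs, hCs⟩ : ∃ Cs : ℝ, Cs = ∑ j, C j := ⟨_, rfl⟩
  have hCj : ∀ j, C j ≤ Cs := fun j => by
    rw [hCs]
    exact single_le_sum (f := C) (fun j _ => hC0 j) (mem_univ j)
  have hCs0 : 0 ≤ Cs := by
    rw [hCs]; exact sum_nonneg fun j _ => hC0 j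
  obtain ⟨B', hB'⟩ : ∃ B' : ℕ, B' = (B + 2) * m + 1 := ⟨_, rfl⟩
  obtain ⟨ε', hε'⟩ : ∃ ε' : ℝ, ε' = ε / (Fintype.card J + 1) := ⟨_, rfl⟩
  have hJ0 : (0 : ℝ) < Fintype.card J + 1 := by positivity
  have hε'0 : 0 < ε' := by rw [hε']; positivity
  obtain ⟨D, hD⟩ : ∃ D : ℝ, D = Cs + (3 * c ^ 2 + c) := ⟨_, rfl⟩
  have hD0 : 0 ≤ D := by rw [hD]; positivity
  obtain ⟨κ, hκ⟩ : ∃ κ : ℝ, κ = ε' / 2 * (δ / 2) ^ 2 := ⟨_, rfl⟩
  have hκ0 : 0 < κ := by rw [hκ]; positivity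
  have ev1 := loglog_tendsto.eventually_ge_atTop
    (max 1 (max ((1 + D) / κ) ((Cs + (4 * B' : ℕ)) / (δ / 2))))
  have ev2 := sqrt_tendsto.eventually_ge_atTop 3
  have ev3 := eventually_ge_atTop (Kd + 2)
  have ev4 := (tendsto_natCast_atTop_atTop (R := ℝ)).eventually_ge_atTop ((c : ℝ) / (ε' / 2))
  obtain ⟨X0, hX0⟩ := (ev1.and (ev2.and (ev3.and ev4))).exists_forall_of_atTop
  refine ⟨X0, fun N X hX hN => ?_⟩
  obtain ⟨e1, e2, e3, e4⟩ := hX0 X hX
  obtain ⟨Y, hY⟩ : ∃ Y : ℕ, Y = Nat.sqrt (Nat.sqrt X) := ⟨_, rfl⟩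
  obtain ⟨hYX, hXY⟩ := sqrt4 X
  rw [← hY] at e1 e2 hYX hXY
  obtain ⟨Λ, hΛ⟩ : ∃ Λ : ℝ, Λ = Real.log (Real.log (Y : ℝ)) := ⟨_, rfl⟩
  rw [← hΛ] at e1
  have hΛ1 : 1 ≤ Λ := (le_max_left _ _).trans e1
  have hΛ2 : (1 + D) / κ ≤ Λ := ((le_max_left _ _).trans (le_max_right _ _)).trans e1
  have hΛ3 : (Cs + (4 * B' : ℕ)) / (δ / 2) ≤ Λ :=
    ((le_max_right _ _).trans (le_max_right _ _)).trans e1
  have hΛ0 : 0 < Λ := by linarith
  rw [div_le_iff₀ hκ0] at hΛ2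
  rw [div_le_iff₀ (by positivity : (0 : ℝ) < δ / 2)] at hΛ3
  rw [div_le_iff₀ (by positivity : (0 : ℝ) < ε' / 2)] at e4
  have hX1 : 1 ≤ X := by omega
  have hXr : (0 : ℝ) < X := by exact_mod_cast hX1
  obtain ⟨M, hM⟩ : ∃ M : ℤ, M = N + 1 := ⟨_, rfl⟩
  -- the sums of the reciprocals
  have hL : ∀ j, |Sg (rho (f j)) (Y : ℝ) - Λ| ≤ Cs := by
    intro j
    rw [hΛ]
    exact (hC j (Y : ℝ) (by exact_mod_cast e2)).trans (hCj j)
  -- the two kinds of exceptions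
  set Z : J → Finset ℕ := fun j => (range X).filter (fun t : ℕ => (f j).eval ((t : ℤ) + M) = 0)
    with hZ
  set W : J → Finset ℕ := fun j => (range X).filter (fun t : ℕ =>
    δ / 2 * Λ < |(o (f j) M Y t : ℝ) - Sg (rho (f j)) (Y : ℝ)|) with hW
  have hZc : ∀ j, ((Z j).card : ℝ) ≤ ε' / 2 * X := by
    intro j
    have h1 : (Z j).card ≤ c := (card_zero (f j) (hf.irr j).ne_zero M X).trans
      (le_trans (Nat.le_add_left _ _) (hcj j))
    have h2 : ((Z j).card : ℝ) ≤ c := by exact_mod_cast h1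
    linarith
  have hWc : ∀ j, ((W j).card : ℝ) ≤ ε' / 2 * X := by
    intro j
    have h1 := var (f j) (hc j) M hYX
    have h2 : ((W j).card : ℝ) * (δ / 2 * Λ) ^ 2 ≤
        X * (Sg (rho (f j)) Y + (3 * c ^ 2 + c)) := by
      refine le_trans ?_ h1
      rw [← nsmul_eq_mul, ← sum_const]
      refine le_trans (sum_le_sum (g := fun t =>
        ((o (f j) M Y t : ℝ) - Sg (rho (f j)) Y) ^ 2) fun t ht => ?_) ?_
      · have h3 := (mem_filter.1 ht).2
        rw [← sq_abs ((o (f j) M Y t : ℝ) - Sg (rho (f j)) Y)]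
        exact pow_le_pow_left₀ (by positivity) h3.le 2
      · exact sum_le_sum_of_subset_of_nonneg (filter_subset _ _) fun n _ _ => sq_nonneg _
    have h3 : Sg (rho (f j)) (Y : ℝ) + (3 * c ^ 2 + c) ≤ Λ + D := by
      have := (abs_le.1 (hL j)).2
      rw [hD]
      linarith
    have h4 : Λ + D ≤ κ * Λ ^ 2 := by nlinarith
    have h5 : ((W j).card : ℝ) * (δ / 2 * Λ) ^ 2 ≤ (ε' / 2 * X) * (δ / 2 * Λ) ^ 2 := by
      refine h2.trans ?_
      calc (X : ℝ) * (Sg (rho (f j)) Y + (3 * c ^ 2 + c)) ≤ X * (κ * Λ ^ 2) :=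
            mul_le_mul_of_nonneg_left (h3.trans h4) hXr.le
        _ = (ε' / 2 * X) * (δ / 2 * Λ) ^ 2 := by rw [hκ]; ring
    exact le_of_mul_le_mul_right h5 (by positivity)
  -- the inclusion
  have hsub : (((Icc 1 X).filter (fun t : ℕ => ¬ ((∀ j, (f j).eval (N + (t : ℤ)) ≠ 0) ∧
      DT.rho T (omf f (N + (t : ℤ))) = 1))).image (fun t => t - 1)) ⊆
      (univ : Finset J).biUnion (fun j => Z j ∪ W j) := by
    intro s hs
    obtain ⟨t, ht, rfl⟩ := mem_image.1 hs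
    rw [mem_filter, mem_Icc] at ht
    obtain ⟨⟨ht1, ht2⟩, ht3⟩ := ht
    by_contra hcon
    apply ht3
    have hts : N + (t : ℤ) = ((t - 1 : ℕ) : ℤ) + M := by
      rw [hM, Nat.cast_sub ht1]; push_cast; ring
    have hr : t - 1 ∈ range X := mem_range.2 (by omega)
    have hgood : ∀ j, (f j).eval (((t - 1 : ℕ) : ℤ) + M) ≠ 0 ∧
        |(o (f j) M Y (t - 1) : ℝ) - Sg (rho (f j)) (Y : ℝ)| ≤ δ / 2 * Λ := by
      intro j
      have h1 : t - 1 ∉ Z j ∪ W j := fun h => hcon (mem_biUnion.2 ⟨j, mem_univ j, h⟩)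
      rw [mem_union, not_or] at h1
      refine ⟨fun h => h1.1 (mem_filter.2 ⟨hr, h⟩), ?_⟩
      by_contra h
      exact h1.2 (mem_filter.2 ⟨hr, not_le.1 h⟩)
    refine ⟨fun j => by rw [hts]; exact (hgood j).1, ?_⟩
    refine le_antisymm (DT.rho_le_one T _) ?_
    by_contra hlt
    obtain ⟨t0, ht0, hlt⟩ := DT.rho_lt_one (not_le.1 hlt)
    refine absurd hlt (not_lt.2 (le_of_lt
      (Pool.Agent.TH344.JG.BadAux.prod_gt (hT1 t0 ht0) hΛ0 (hδT t0 ht0) _ ?_)))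
    intro j
    have hsize : ((f j).eval (((t - 1 : ℕ) : ℤ) + M)).natAbs < (Y + 1) ^ (4 * B') := by
      rw [← hts]
      have e5 : X ^ B ≤ X ^ (B + 1) := Nat.pow_le_pow_right hX1 (by omega)
      have e6 : X ≤ X ^ (B + 1) := Nat.le_self_pow (by omega) X
      have e8 : (N + (t : ℤ)).natAbs ≤ X ^ (B + 2) := by
        calc (N + (t : ℤ)).natAbs ≤ N.natAbs + t :=
              (Int.natAbs_add_le _ _).trans (by rw [Int.natAbs_natCast])
          _ ≤ X ^ (B + 1) + X ^ (B + 1) := Nat.add_le_add (hN.trans e5) (ht2.trans e6)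
          _ = 2 * X ^ (B + 1) := by ring
          _ ≤ X * X ^ (B + 1) := Nat.mul_le_mul_right _ (by omega)
          _ = X ^ (B + 2) := by ring
      calc ((f j).eval (N + (t : ℤ))).natAbs ≤ Kd * (X ^ (B + 2)) ^ m :=
            hKd _ _ (Nat.one_le_pow _ _ hX1) e8 j
        _ ≤ X * (X ^ (B + 2)) ^ m := Nat.mul_le_mul_right _ (by omega)
        _ = X ^ B' := by rw [hB', ← pow_mul]; ring
        _ < ((Y + 1) ^ 4) ^ B' := Nat.pow_lt_pow_left hXY (by omega)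
        _ = _ := by rw [← pow_mul]
    obtain ⟨k1, k2⟩ := omega (f j) M (hgood j).1 (by omega) hsize
    have k3 := (hgood j).2
    have k4 := hL j
    have k1' : (o (f j) M Y (t - 1) : ℝ) ≤
      (((f j).eval (((t - 1 : ℕ) : ℤ) + M)).natAbs.primeFactors.card : ℝ) := by exact_mod_cast k1
    have k2' : (((f j).eval (((t - 1 : ℕ) : ℤ) + M)).natAbs.primeFactors.card : ℝ) ≤
      o (f j) M Y (t - 1) + (4 * B' : ℕ) := by exact_mod_cast k2
    have k5 : (0 : ℝ) ≤ ((4 * B' : ℕ) : ℝ) := Nat.cast_nonneg _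
    unfold omf
    rw [hts]
    rw [abs_le] at k3 k4 ⊢
    constructor <;> linarith [k3.1, k3.2, k4.1, k4.2]
  have hcard : ((Icc 1 X).filter (fun t : ℕ => ¬ ((∀ j, (f j).eval (N + (t : ℤ)) ≠ 0) ∧
      DT.rho T (omf f (N + (t : ℤ))) = 1))).card ≤ ∑ j, ((Z j).card + (W j).card) := by
    rw [← card_image_of_injOn (f := fun t => t - 1)]
    · refine (card_le_card hsub).trans (card_biUnion_le.trans ?_)
      exact sum_le_sum fun j _ => card_union_le _ _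
    · intro a ha b hb h
      have h1 := (mem_Icc.1 (mem_filter.1 (mem_coe.1 ha)).1).1
      have h2 := (mem_Icc.1 (mem_filter.1 (mem_coe.1 hb)).1).1
      simp only at h
      omega
  have hcard' : (((Icc 1 X).filter (fun t : ℕ => ¬ ((∀ j, (f j).eval (N + (t : ℤ)) ≠ 0) ∧
      DT.rho T (omf f (N + (t : ℤ))) = 1))).card : ℝ) ≤
      ∑ j, (((Z j).card : ℝ) + ((W j).card : ℝ)) := by exact_mod_cast hcard
  refine hcard'.trans ?_
  have h6 : ∑ j : J, (((Z j).card : ℝ) + ((W j).card : ℝ)) ≤ ∑ _j : J, ε' * X :=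
    sum_le_sum fun j _ => by linarith [hZc j, hWc j]
  refine h6.trans ?_
  rw [sum_const, card_univ, nsmul_eq_mul, hε']
  have h7 : (Fintype.card J : ℝ) * (ε / (Fintype.card J + 1) * X) =
      (ε * X) * (Fintype.card J / (Fintype.card J + 1)) := by
    field_simp
  rw [h7]
  have h8 : (Fintype.card J : ℝ) / (Fintype.card J + 1) ≤ 1 := by
    rw [div_le_one hJ0]; linarith
  exact mul_le_of_le_one_right (by positivity) h8

end Pool.Agent.TH344.PW
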