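import Mathlib
import Pool.Agent.TH344.PW.Stm
import Pool.Agent.TH841.PT.Prime

/-!
# Project PW, prime arguments: statements

As `S_PENB`, over the integers `t` for which a polynomial `G` has no small prime factors, and over the
`t` for which the values of several polynomials are prime.
-/

set_option autoImplicit false

namespace Pool.Agent.TH344.PW

open Finset Polynomial Pool.Agent.W262.RK Pool.Agent.W307.RT Pool.Agent.W307.RS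
open Pool.Agent.TH841.PT Pool.Agent.TH344.JG Pool.Agent.TH344.PJ

open Pool.Agent.H474R2.PG (rho)

/-- PW-OMG: exponential moments of the number of the prime factors of `f(N + t)` over the arguments
where a second polynomial has no small prime factors. -/
def S_OMG : Prop := ∀ (f G : ℤ[X]) (lam : ℝ) (B : ℕ), Irreducible f → 0 < f.natDegree →
  Squarefree ((f * G).map (Int.castRingHom ℚ)) → 0 < lam →
    ∃ z0 : ℕ, ∀ z, z0 ≤ z → ∃ C : ℝ, ∀ (N : ℤ) (X : ℕ), 2 ≤ X → N.natAbs ≤ X ^ B →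
      ∀ T' : Finset ℕ, T' ⊆ Icc 1 X → (∀ t ∈ T', f.eval (N + (t : ℤ)) ≠ 0 ∧
        Sft G z X (N + (t : ℤ))) →
      ∑ t ∈ T', lam ^ (f.eval (N + (t : ℤ))).natAbs.primeFactors.card ≤
        C * (X * Real.exp (-Sp (fun p => (rho G p : ℝ)) z X) * (Real.log X) ^ (lam - 1))

/-- PW-BAG: the sifted arguments of weight less than one are rare. -/
def S_BADG : Prop := ∀ (J : Type) [Fintype J] [DecidableEq J] (f : J → ℤ[X])
  (T : Finset (J → ℝ)) (B : ℕ) (G : ℤ[X]), Irr f → (∀ t ∈ T, ∀ j, 0 < t j) →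
  (∀ t ∈ T, 1 < ∏ j, t j) → Squarefree (((∏ j, f j) * G).map (Int.castRingHom ℚ)) →
    ∃ z0 : ℕ, ∀ z, z0 ≤ z → ∃ C η : ℝ, 0 < η ∧ ∀ (N : ℤ) (X : ℕ), 2 ≤ X → N.natAbs ≤ X ^ B →
      ∀ T' : Finset ℕ, T' ⊆ Icc 1 X → (∀ t ∈ T', (∀ j, (f j).eval (N + (t : ℤ)) ≠ 0) ∧
        Sft G z X (N + (t : ℤ)) ∧ DT.rho T (omf f (N + (t : ℤ))) < 1) →
      (T'.card : ℝ) ≤
        C * (X * Real.exp (-Sp (fun p => (rho G p : ℝ)) z X) * (Real.log X) ^ (-η))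

open Classical in
/-- `R` has bounded moments over the `t` with `Q t`, relative to the size `V X` of the set of the
`t` with `Q t` in an interval of length `X`, outside of a set `Z` of relative density zero in all
short intervals -/
def MomQ (Q : ℤ → Prop) (V : ℕ → ℝ) (R : ℤ → ℝ) (Z : Set ℤ) : Prop :=
  (∀ (B : ℕ) (ε : ℝ), 0 < ε → ∃ X0 : ℕ, ∀ (N : ℤ) (X : ℕ), X0 ≤ X → N.natAbs ≤ X ^ B →
    (((Icc 1 X).filter (fun t : ℕ => Q (N + (t : ℤ)) ∧ N + (t : ℤ) ∈ Z)).card : ℝ) ≤ ε * V X) ∧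
  ∀ k B : ℕ, ∃ C : ℝ, ∀ (N : ℤ) (X : ℕ), 2 ≤ X → N.natAbs ≤ X ^ B →
    ∑ t ∈ (Icc 1 X).filter (fun t : ℕ => Q (N + (t : ℤ)) ∧ N + (t : ℤ) ∉ Z),
      R (N + (t : ℤ)) ^ k ≤ C * V X

open Classical in
/-- PW-DIQ: one exceptional set for all the moments. -/
def S_DIAQ : Prop := ∀ (Q : ℤ → Prop) (V : ℕ → ℝ) (v0 : ℝ) (R : ℤ → ℝ) (P : ℕ → ℤ → Prop),
  0 < v0 → (∀ X : ℕ, 2 ≤ X → v0 ≤ V X) → (∀ t, 0 ≤ R t) →
  (∀ (k B : ℕ) (ε : ℝ), 1 ≤ k → 0 < ε → ∃ X0 : ℕ, ∀ (N : ℤ) (X : ℕ), X0 ≤ X →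
    N.natAbs ≤ X ^ B →
    (((Icc 1 X).filter (fun t : ℕ => Q (N + (t : ℤ)) ∧ P k (N + (t : ℤ)))).card : ℝ) ≤ ε * V X) →
  (∀ B : ℕ, ∃ C : ℝ, ∀ (N : ℤ) (X : ℕ), 2 ≤ X → N.natAbs ≤ X ^ B →
    (((Icc 1 X).filter (fun t : ℕ => Q (N + (t : ℤ)))).card : ℝ) ≤ C * V X) →
  (∀ k B : ℕ, 1 ≤ k → ∃ C : ℝ, ∀ (N : ℤ) (X : ℕ), 2 ≤ X → N.natAbs ≤ X ^ B →
    ∑ t ∈ (Icc 1 X).filter (fun t : ℕ => Q (N + (t : ℤ)) ∧ ¬ P k (N + (t : ℤ))),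
      R (N + (t : ℤ)) ^ k ≤ C * V X) →
  ∃ Z : Set ℤ, (∀ t, P 1 t → t ∈ Z) ∧ MomQ Q V R Z

/-- the main result at prime arguments -/
def S_PENQ : Prop := ∀ (g : ℕ) (J : Type) [Fintype J] [DecidableEq J]
  (u : Fin (2 * g + 1) → ℤ[X]) (κ : PR (2 * g + 1) → ℤ) (cls : J → PR (2 * g + 1))
  (f : J → ℤ[X]) (r : ℕ) (G : Fin r → ℤ[X]), 1 ≤ g → PenB u κ cls f →
  Bal (2 * g + 1) (fun c => (univ.filter (fun j => cls j = c)).card) → Irr G →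
  (∀ i j, ¬ Associated (f j) (G i)) →
  ∃ Z : Set ℤ, (∀ t, t ∉ Z → ∀ j, (f j).eval t ≠ 0) ∧
    MomQ (AllPr G) (fun X => X / (Real.log X) ^ r)
      (fun t => ((SelJ (fun i => (u i).eval t)).ncard : ℝ)) Z

end Pool.Agent.TH344.PW
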