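import Mathlib
import Pool.Agent.TH344.PW.Stm2
import Pool.Agent.TH344.DT.Rho

/-! Project PW: the sifted arguments of small weight are rare (helper986, job 3759). -/

set_option autoImplicit false

namespace Pool.Agent.TH344.PW

open Finset Polynomial Pool.Agent.W262.RK Pool.Agent.W307.RT Pool.Agent.W307.RS
open Pool.Agent.TH841.PT Pool.Agent.TH344.JG Pool.Agent.TH344.PJ

open Pool.Agent.H474R2.PG (rho)

namespace BagAux

lemma prod_gt {J : Type} [Fintype J] {t : J → ℝ} (ht : ∀ j, 0 < t j) {δ L : ℝ} (hL : 0 < L)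
    (hδ : δ * ∑ j, |Real.log (t j)| < Real.log (∏ j, t j)) (n : J → ℕ)
    (hn : ∀ j, |(n j : ℝ) - L| ≤ δ * L) : 1 < ∏ j, t j ^ n j := by
  have h0 : 0 < ∏ j, t j ^ n j := prod_pos fun j _ => pow_pos (ht j) _
  rw [← Real.log_pos_iff h0.le, Real.log_prod (fun j _ => (pow_pos (ht j) _).ne')]
  simp only [Real.log_pow]
  have h1 : ∑ j, (n j : ℝ) * Real.log (t j) = L * Real.log (∏ j, t j) +
      ∑ j, ((n j : ℝ) - L) * Real.log (t j) := by
    rw [Real.log_prod (fun j _ => (ht j).ne'), mul_sum, ← sum_add_distrib]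
    exact sum_congr rfl fun j _ => by ring
  have h2 : |∑ j, ((n j : ℝ) - L) * Real.log (t j)| ≤ δ * L * ∑ j, |Real.log (t j)| := by
    refine (abs_sum_le_sum_abs _ _).trans ?_
    rw [mul_sum]
    refine sum_le_sum fun j _ => ?_
    rw [abs_mul]
    exact mul_le_mul_of_nonneg_right (hn j) (abs_nonneg _)
  rw [h1]
  have h3 := (abs_le.1 h2).1
  have h4 : L * (δ * ∑ j, |Real.log (t j)|) < L * Real.log (∏ j, t j) :=
    mul_lt_mul_of_pos_left hδ hL
  linarith

lemma exists_delta {J : Type} [Fintype J] (T : Finset (J → ℝ)) (hT : ∀ t ∈ T, 1 < ∏ j, t j) :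
    ∃ δ : ℝ, 0 < δ ∧ δ < 1 ∧ ∀ t ∈ T, δ * ∑ j, |Real.log (t j)| < Real.log (∏ j, t j) := by
  have h : ∀ᶠ δ : ℝ in nhdsWithin 0 (Set.Ioi 0), ∀ t ∈ T,
      δ * ∑ j, |Real.log (t j)| < Real.log (∏ j, t j) := by
    rw [Filter.eventually_all_finset]
    intro t ht
    have h1 : Filter.Tendsto (fun δ : ℝ => δ * ∑ j, |Real.log (t j)|) (nhdsWithin 0 (Set.Ioi 0))
        (nhds (0 * ∑ j, |Real.log (t j)|)) :=
      (Filter.tendsto_id.mul_const _).mono_left nhdsWithin_le_nhds
    rw [zero_mul] at h1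
    exact h1.eventually_lt_const (Real.log_pos (hT t ht))
  have h2 : ∀ᶠ δ : ℝ in nhdsWithin 0 (Set.Ioi 0), 0 < δ := self_mem_nhdsWithin
  have h3 : ∀ᶠ δ : ℝ in nhdsWithin 0 (Set.Ioi 0), δ < 1 :=
    (eventually_lt_nhds (by norm_num)).filter_mono nhdsWithin_le_nhds
  obtain ⟨δ, h3, h4, h5⟩ := (h2.and (h3.and h)).exists
  exact ⟨δ, h3, h4, h5⟩

/-- the exponent -/
noncomputable def et (lam : ℝ) : ℝ := lam * Real.log lam - lam + 1

lemma et_pos {lam : ℝ} (h0 : 0 < lam) (h1 : lam ≠ 1) : 0 < et lam := by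
  have h := Real.log_lt_sub_one_of_pos (inv_pos.2 h0) (by simpa using h1)
  rw [Real.log_inv] at h
  have h2 := mul_lt_mul_of_pos_left h h0
  rw [mul_sub, mul_inv_cancel₀ h0.ne', mul_one, mul_neg] at h2
  unfold et
  linarith

lemma markov {lam S LX : ℝ} (h0 : 0 < lam) (hLX : 1 < LX) (A : Finset ℕ) (om : ℕ → ℕ)
    (hA : ∀ t ∈ A, lam ^ (lam * Real.log LX) ≤ lam ^ (om t))
    (hS : ∑ t ∈ A, lam ^ om t ≤ S * LX ^ (lam - 1)) : (A.card : ℝ) ≤ S * LX ^ (-et lam) := by
  have hLX0 : 0 < LX := by linarith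
  have h1 : (A.card : ℝ) * lam ^ (lam * Real.log LX) ≤ S * LX ^ (lam - 1) := by
    refine le_trans ?_ hS
    rw [← nsmul_eq_mul]
    exact card_nsmul_le_sum _ _ _ hA
  have h2 : lam ^ (lam * Real.log LX) = LX ^ (lam * Real.log lam) := by
    rw [Real.rpow_def_of_pos h0, Real.rpow_def_of_pos hLX0]
    congr 1
    ring
  rw [h2] at h1
  have h3 : (0 : ℝ) < LX ^ (lam * Real.log lam) := Real.rpow_pos_of_pos hLX0 _
  have h4 : LX ^ (-et lam) = LX ^ (lam - 1) / LX ^ (lam * Real.log lam) := by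
    rw [← Real.rpow_sub hLX0]
    congr 1
    unfold et
    ring
  rw [h4, ← mul_div_assoc, le_div_iff₀ h3]
  exact h1

end BagAux

open BagAux in
theorem badg_of (h : S_OMG) : S_BADG := by
  classical
  intro J _ _ f T B G hf hT1 hT2 hsq
  obtain ⟨δ, hδ0, hδ1, hδT⟩ := exists_delta T hT2
  have hsqj : ∀ j, Squarefree (((f j) * G).map (Int.castRingHom ℚ)) := by
    intro j
    refine hsq.squarefree_of_dvd ?_
    exact Polynomial.map_dvd _ (mul_dvd_mul_right (dvd_prod_of_mem f (mem_univ j)) G)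
  have h1 := fun j => h (f j) G (1 + δ) B (hf.irr j) (hf.deg j) (hsqj j) (by linarith)
  have h2 := fun j => h (f j) G (1 - δ) B (hf.irr j) (hf.deg j) (hsqj j) (by linarith)
  choose z1 hz1 using h1
  choose z2 hz2 using h2
  refine ⟨2 + ∑ j, (z1 j + z2 j), fun z hz => ?_⟩
  have hzj : ∀ j, z1 j ≤ z ∧ z2 j ≤ z := by
    intro j
    have h3 := single_le_sum (f := fun j => z1 j + z2 j) (fun _ _ => Nat.zero_le _) (mem_univ j)
    omega
  have hz2' : 2 ≤ z := by omega
  choose C1 hC1 using fun j => hz1 j z (hzj j).1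
  choose C2 hC2 using fun j => hz2 j z (hzj j).2
  have he1 : 0 < et (1 + δ) := et_pos (by linarith) (by
    intro h3
    linarith)
  have he2 : 0 < et (1 - δ) := et_pos (by linarith) (by
    intro h3
    linarith)
  obtain ⟨η, hη⟩ : ∃ η, η = min (et (1 + δ)) (et (1 - δ)) := ⟨_, rfl⟩
  have hη0 : 0 < η := by rw [hη]; exact lt_min he1 he2
  refine ⟨1 + ∑ j, (|C1 j| + |C2 j|), η, hη0, fun N X hX hN T' hT' hTT => ?_⟩
  have hC0 : 0 ≤ ∑ j, (|C1 j| + |C2 j|) := sum_nonneg fun j _ => by positivity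
  have hXp : (0 : ℝ) < X := by exact_mod_cast (by omega : 0 < X)
  rcases Nat.lt_or_ge X 3 with hX3 | hX3
  · have hX2 : X = 2 := by omega
    have e1 : (T'.card : ℝ) ≤ X := by
      have h3 := card_le_card hT'
      rw [Nat.card_Icc] at h3
      exact_mod_cast (by omega : T'.card ≤ X)
    have e2 : Sp (fun p => (rho G p : ℝ)) z X = 0 := by
      unfold Sp PS
      rw [Ioc_eq_empty (by omega), filter_empty, sum_empty]
    have e3 : 1 ≤ Real.log X ^ (-η) := by
      refine Real.one_le_rpow_of_pos_of_le_one_of_nonpos ?_ ?_ (by linarith)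
      · exact Real.log_pos (by exact_mod_cast (by omega : 1 < X))
      · rw [hX2]
        have := Real.log_two_lt_d9
        push_cast
        linarith
    rw [e2, neg_zero, Real.exp_zero, mul_one]
    calc (T'.card : ℝ) ≤ 1 * (X * 1) := by linarith
      _ ≤ (1 + ∑ j, (|C1 j| + |C2 j|)) * (X * Real.log X ^ (-η)) := by
        refine mul_le_mul (by linarith) (mul_le_mul_of_nonneg_left e3 hXp.le) (by positivity)
          (by linarith)
  · have hlog : 1 < Real.log X := by
      rw [Real.lt_log_iff_exp_lt hXp]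
      have h3 : Real.exp 1 < 3 := by
        have := Real.exp_one_lt_d9
        linarith
      have h4 : (3 : ℝ) ≤ X := by exact_mod_cast hX3
      linarith
    have hLL : 0 < Real.log (Real.log X) := Real.log_pos hlog
    obtain ⟨S, hS⟩ : ∃ S : ℝ, S = X * Real.exp (-Sp (fun p => (rho G p : ℝ)) z X) := ⟨_, rfl⟩
    have hS0 : 0 < S := by
      rw [hS]
      exact mul_pos hXp (Real.exp_pos _)
    rw [← hS]
    set A : J → Finset ℕ := fun j => T'.filter (fun t =>
      (1 + δ) * Real.log (Real.log X) ≤ (omf f (N + (t : ℤ)) j : ℝ)) with hA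
    set A' : J → Finset ℕ := fun j => T'.filter (fun t =>
      (omf f (N + (t : ℤ)) j : ℝ) ≤ (1 - δ) * Real.log (Real.log X)) with hA'
    have hsub : T' ⊆ univ.biUnion (fun j => A j ∪ A' j) := by
      intro t ht
      obtain ⟨t0, ht0, hlt⟩ := DT.rho_lt_one (hTT t ht).2.2
      by_contra hc
      refine absurd hlt (not_lt.2 (le_of_lt (prod_gt (hT1 t0 ht0) hLL (hδT t0 ht0) _ ?_)))
      intro j
      rw [mem_biUnion] at hc
      push Not at hc
      have h3 := hc j (mem_univ j)
      rw [mem_union, not_or, hA, hA', mem_filter, mem_filter, not_and, not_and, not_le, not_le]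
        at h3
      have h4 := h3.1 ht
      have h5 := h3.2 ht
      rw [abs_le]
      constructor <;> linarith
    have hcA : ∀ j, ((A j).card : ℝ) ≤ |C1 j| * (S * Real.log X ^ (-η)) := by
      intro j
      have hsA : A j ⊆ T' := filter_subset _ _
      have h3 := hC1 j N X hX hN (A j) (hsA.trans hT')
        (fun t ht => ⟨(hTT t (hsA ht)).1 j, (hTT t (hsA ht)).2.1⟩)
      rw [← hS, ← mul_assoc] at h3
      have h4 := markov (by linarith : 0 < 1 + δ) hlog (A j)
        (fun t : ℕ => ((f j).eval (N + (t : ℤ))).natAbs.primeFactors.card) (by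
          intro t ht
          rw [← Real.rpow_natCast]
          exact Real.rpow_le_rpow_of_exponent_le (by linarith) (mem_filter.1 ht).2) h3
      refine h4.trans ?_
      rw [mul_assoc]
      refine mul_le_mul (le_abs_self _) ?_ (by positivity) (abs_nonneg _)
      refine mul_le_mul_of_nonneg_left ?_ hS0.le
      refine Real.rpow_le_rpow_of_exponent_le hlog.le ?_
      rw [hη]
      exact neg_le_neg (min_le_left _ _)
    have hcA' : ∀ j, ((A' j).card : ℝ) ≤ |C2 j| * (S * Real.log X ^ (-η)) := by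
      intro j
      have hsA : A' j ⊆ T' := filter_subset _ _
      have h3 := hC2 j N X hX hN (A' j) (hsA.trans hT')
        (fun t ht => ⟨(hTT t (hsA ht)).1 j, (hTT t (hsA ht)).2.1⟩)
      rw [← hS, ← mul_assoc] at h3
      have h4 := markov (by linarith : 0 < 1 - δ) hlog (A' j)
        (fun t : ℕ => ((f j).eval (N + (t : ℤ))).natAbs.primeFactors.card) (by
          intro t ht
          rw [← Real.rpow_natCast]
          exact Real.rpow_le_rpow_of_exponent_ge (by linarith) (by linarith)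
            (mem_filter.1 ht).2) h3
      refine h4.trans ?_
      rw [mul_assoc]
      refine mul_le_mul (le_abs_self _) ?_ (by positivity) (abs_nonneg _)
      refine mul_le_mul_of_nonneg_left ?_ hS0.le
      refine Real.rpow_le_rpow_of_exponent_le hlog.le ?_
      rw [hη]
      exact neg_le_neg (min_le_right _ _)
    have h5 : (T'.card : ℝ) ≤ ∑ j, (((A j).card : ℝ) + ((A' j).card : ℝ)) := by
      have h6 : T'.card ≤ ∑ j, ((A j).card + (A' j).card) :=
        (card_le_card hsub).trans (card_biUnion_le.trans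
          (sum_le_sum fun j _ => card_union_le _ _))
      exact_mod_cast h6
    have h6 : 0 ≤ S * Real.log X ^ (-η) := by positivity
    calc (T'.card : ℝ) ≤ ∑ j, (((A j).card : ℝ) + ((A' j).card : ℝ)) := h5
      _ ≤ ∑ j, (|C1 j| + |C2 j|) * (S * Real.log X ^ (-η)) :=
        sum_le_sum fun j _ => by
          rw [add_mul]
          exact add_le_add (hcA j) (hcA' j)
      _ = (∑ j, (|C1 j| + |C2 j|)) * (S * Real.log X ^ (-η)) := by rw [sum_mul]
      _ ≤ (1 + ∑ j, (|C1 j| + |C2 j|)) * (S * Real.log X ^ (-η)) := by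
        refine mul_le_mul_of_nonneg_right (by linarith) h6

end Pool.Agent.TH344.PW
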