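import Mathlib
import Pool.Agent.TH344.PW.Stm

/-!
Project PW (helper344), piece DIA: one exceptional set for all the moments in short intervals
(helper147).
-/

set_option autoImplicit false

namespace Pool.Agent.TH344.PW

open Finset

lemma dia_geom (a b : ℕ) : ∑ k ∈ Ico a b, (1 / 2 : ℝ) ^ (k + 1) ≤ (1 / 2) ^ a := by
  rcases le_or_gt a b with h | h
  · have : ∑ k ∈ Ico a b, (1 / 2 : ℝ) ^ (k + 1) = (1 / 2) ^ a - (1 / 2) ^ b := by
      induction b, h using Nat.le_induction with
      | base => simp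
      | succ b hb ih =>
        rw [sum_Ico_succ_top hb, ih]
        ring
    rw [this]
    have : (0 : ℝ) ≤ (1 / 2) ^ b := by positivity
    linarith
  · rw [Ico_eq_empty (by omega), sum_empty]
    positivity

lemma dia_abs {N : ℤ} {X B t : ℕ} (hN : N.natAbs ≤ X ^ B) (ht : t ≤ X) :
    (N + (t : ℤ)).natAbs ≤ X ^ B + X := by
  have := Int.natAbs_add_le N (t : ℤ)
  rw [Int.natAbs_natCast] at this
  omega

theorem diab : S_DIAB := by
  classical
  intro R P hR H1 H2
  -- thresholds
  have h1 : ∀ k : ℕ, ∃ G : ℕ, 1 ≤ k → ∀ B ≤ k, ∀ (N : ℤ) (X : ℕ), G ≤ X → N.natAbs ≤ X ^ B →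
      (((Icc 1 X).filter (fun t : ℕ => P k (N + (t : ℤ)))).card : ℝ) ≤ (1 / 2) ^ (k + 1) * X := by
    intro k
    by_cases hk : 1 ≤ k
    · choose X0 hX0 using fun B => H1 k B ((1 / 2) ^ (k + 1)) hk (by positivity)
      refine ⟨(range (k + 1)).sup X0, fun _ B hB N X hX hN => hX0 B N X ?_ hN⟩
      exact (le_sup (f := X0) (mem_range.2 (by omega))).trans hX
    · exact ⟨0, fun h => absurd h hk⟩
  choose G hG using h1
  let M : ℕ → ℕ := fun k => if k = 1 then 0 else 2 * (G k + 1) ^ k + k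
  have hM1 : M 1 = 0 := if_pos rfl
  have hMk : ∀ k, k ≠ 1 → M k = 2 * (G k + 1) ^ k + k := fun k hk => if_neg hk
  have hMid : ∀ k, k ≠ 1 → k ≤ M k := fun k hk => by rw [hMk k hk]; omega
  refine ⟨{t | ∃ k, 1 ≤ k ∧ M k ≤ t.natAbs ∧ P k t}, fun t ht => ⟨1, le_rfl, by omega, ht⟩,
    ?_, ?_⟩
  · intro B ε hε
    -- the cut
    obtain ⟨k1, hk1⟩ := exists_pow_lt_of_lt_one (half_pos hε) (show (1 / 2 : ℝ) < 1 by norm_num)
    set k0 : ℕ := max (max B 2) k1 with hk0
    have hk0B : B ≤ k0 := (le_max_left _ _).trans (le_max_left _ _)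
    have hk02 : 2 ≤ k0 := (le_max_right _ _).trans (le_max_left _ _)
    have hk01 : k1 ≤ k0 := le_max_right _ _
    have hk0r : (0 : ℝ) < k0 := by
      have : 0 < k0 := by omega
      exact_mod_cast this
    have hgeo : (1 / 2 : ℝ) ^ k0 ≤ ε / 2 :=
      (pow_le_pow_of_le_one (by norm_num) (by norm_num) hk01).trans hk1.le
    have h2 : ∀ k : ℕ, ∃ Y : ℕ, 1 ≤ k → ∀ (N : ℤ) (X : ℕ), Y ≤ X → N.natAbs ≤ X ^ B →
        (((Icc 1 X).filter (fun t : ℕ => P k (N + (t : ℤ)))).card : ℝ) ≤ ε / (2 * k0) * X := by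
      intro k
      by_cases hk : 1 ≤ k
      · obtain ⟨Y, hY⟩ := H1 k B (ε / (2 * k0)) hk (by positivity)
        exact ⟨Y, fun _ => hY⟩
      · exact ⟨0, fun h => absurd h hk⟩
    choose Y hY using h2
    refine ⟨(range k0).sup Y + 1, fun N X hX hN => ?_⟩
    have hX1 : 1 ≤ X := by omega
    set K : ℕ := X ^ B + X + 1 with hK
    have hsub : (Icc 1 X).filter (fun t : ℕ => N + (t : ℤ) ∈
          {t | ∃ k, 1 ≤ k ∧ M k ≤ t.natAbs ∧ P k t}) ⊆
        (Ico 1 k0).biUnion (fun k => (Icc 1 X).filter (fun t : ℕ => P k (N + (t : ℤ)))) ∪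
        ((Ico k0 K).filter (fun k => G k ≤ X)).biUnion
          (fun k => (Icc 1 X).filter (fun t : ℕ => P k (N + (t : ℤ)))) := by
      intro t ht
      rw [mem_filter] at ht
      obtain ⟨ht1, k, hk, hMt, hPt⟩ := ht
      rw [mem_union, mem_biUnion, mem_biUnion]
      by_cases hkk : k < k0
      · exact Or.inl ⟨k, mem_Ico.2 ⟨hk, hkk⟩, mem_filter.2 ⟨ht1, hPt⟩⟩
      · right
        have ha := dia_abs hN (mem_Icc.1 ht1).2
        have hk1' : k ≠ 1 := by omega
        refine ⟨k, mem_filter.2 ⟨mem_Ico.2 ⟨by omega, ?_⟩, ?_⟩, mem_filter.2 ⟨ht1, hPt⟩⟩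
        · have := hMid k hk1'
          omega
        · by_contra hcon
          have h3 : X ^ B ≤ X ^ k := Nat.pow_le_pow_right hX1 (by omega)
          have h4 : X ≤ X ^ k := Nat.le_self_pow (by omega) X
          have h5 : X ^ k ≤ (G k + 1) ^ k := Nat.pow_le_pow_left (by omega) k
          have h6 := hMk k hk1'
          omega
    have hA : (((Ico 1 k0).biUnion (fun k => (Icc 1 X).filter
        (fun t : ℕ => P k (N + (t : ℤ))))).card : ℝ) ≤ ε / 2 * X := by
      calc _ ≤ ∑ k ∈ Ico 1 k0, (((Icc 1 X).filter (fun t : ℕ => P k (N + (t : ℤ)))).card : ℝ) := by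
            exact_mod_cast card_biUnion_le
        _ ≤ ∑ _k ∈ Ico 1 k0, ε / (2 * k0) * X := by
            refine sum_le_sum fun k hk => ?_
            obtain ⟨hk1', hk2'⟩ := mem_Ico.1 hk
            refine hY k hk1' N X ?_ hN
            have := le_sup (f := Y) (mem_range.2 hk2')
            omega
        _ = ((k0 - 1 : ℕ) : ℝ) * (ε / (2 * k0) * X) := by
            rw [sum_const, Nat.card_Ico, nsmul_eq_mul]
        _ ≤ (k0 : ℝ) * (ε / (2 * k0) * X) := by
            have : ((k0 - 1 : ℕ) : ℝ) ≤ k0 := by exact_mod_cast Nat.sub_le _ _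
            gcongr
        _ = ε / 2 * X := by field_simp
    have hB : ((((Ico k0 K).filter (fun k => G k ≤ X)).biUnion
          (fun k => (Icc 1 X).filter (fun t : ℕ => P k (N + (t : ℤ))))).card : ℝ) ≤
        ε / 2 * X := by
      calc _ ≤ ∑ k ∈ (Ico k0 K).filter (fun k => G k ≤ X),
            (((Icc 1 X).filter (fun t : ℕ => P k (N + (t : ℤ)))).card : ℝ) := by
            exact_mod_cast card_biUnion_le
        _ ≤ ∑ k ∈ (Ico k0 K).filter (fun k => G k ≤ X), (1 / 2 : ℝ) ^ (k + 1) * X := by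
            refine sum_le_sum fun k hk => ?_
            obtain ⟨hk1', hk2'⟩ := mem_filter.1 hk
            have hk3 := (mem_Ico.1 hk1').1
            exact hG k (by omega) B (by omega) N X hk2' hN
        _ ≤ ∑ k ∈ Ico k0 K, (1 / 2 : ℝ) ^ (k + 1) * X :=
            sum_le_sum_of_subset_of_nonneg (filter_subset _ _) fun _ _ _ => by positivity
        _ = (∑ k ∈ Ico k0 K, (1 / 2 : ℝ) ^ (k + 1)) * X := by rw [sum_mul]
        _ ≤ ε / 2 * X := by
            have := (dia_geom k0 K).trans hgeo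
            gcongr
    have hU := (card_le_card hsub).trans (card_union_le _ _)
    have hU' : (((Icc 1 X).filter (fun t : ℕ => N + (t : ℤ) ∈
          {t | ∃ k, 1 ≤ k ∧ M k ≤ t.natAbs ∧ P k t})).card : ℝ) ≤
        (((Ico 1 k0).biUnion (fun k => (Icc 1 X).filter
          (fun t : ℕ => P k (N + (t : ℤ))))).card : ℝ) +
        ((((Ico k0 K).filter (fun k => G k ≤ X)).biUnion
          (fun k => (Icc 1 X).filter (fun t : ℕ => P k (N + (t : ℤ))))).card : ℝ) := by
      exact_mod_cast hU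
    linarith
  · intro k B
    rcases Nat.eq_zero_or_pos k with rfl | hk
    · refine ⟨1, fun N X _ _ => ?_⟩
      simp only [pow_zero, sum_const, nsmul_eq_mul, mul_one, one_mul]
      have h3 := card_filter_le (Icc 1 X) (fun t : ℕ => N + (t : ℤ) ∉
        {t | ∃ k, 1 ≤ k ∧ M k ≤ t.natAbs ∧ P k t})
      rw [Nat.card_Icc, Nat.add_sub_cancel] at h3
      exact_mod_cast h3
    · obtain ⟨C, hC⟩ := H2 k B hk
      set D : ℝ := ∑ s ∈ Icc (-(M k : ℤ)) (M k), R s ^ k with hD
      have hD0 : 0 ≤ D := sum_nonneg fun s _ => pow_nonneg (hR s) k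
      refine ⟨C + D, fun N X hX hN => ?_⟩
      have hsub : (Icc 1 X).filter (fun t : ℕ => N + (t : ℤ) ∉
            {t | ∃ k, 1 ≤ k ∧ M k ≤ t.natAbs ∧ P k t}) ⊆
          (Icc 1 X).filter (fun t : ℕ => ¬ P k (N + (t : ℤ))) ∪
          (Icc 1 X).filter (fun t : ℕ => (N + (t : ℤ)).natAbs < M k) := by
        intro t ht
        rw [mem_filter] at ht
        rw [mem_union, mem_filter, mem_filter]
        by_cases h2 : P k (N + (t : ℤ))
        · right
          refine ⟨ht.1, ?_⟩
          by_contra h3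
          exact ht.2 ⟨k, hk, not_lt.1 h3, h2⟩
        · exact Or.inl ⟨ht.1, h2⟩
      have hX1 : (1 : ℝ) ≤ X := by exact_mod_cast hX
      calc _ ≤ ∑ t ∈ (Icc 1 X).filter (fun t : ℕ => ¬ P k (N + (t : ℤ))) ∪
            (Icc 1 X).filter (fun t : ℕ => (N + (t : ℤ)).natAbs < M k), R (N + (t : ℤ)) ^ k :=
            sum_le_sum_of_subset_of_nonneg hsub fun t _ _ => pow_nonneg (hR _) k
        _ ≤ ∑ t ∈ (Icc 1 X).filter (fun t : ℕ => ¬ P k (N + (t : ℤ))), R (N + (t : ℤ)) ^ k +
            ∑ t ∈ (Icc 1 X).filter (fun t : ℕ => (N + (t : ℤ)).natAbs < M k),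
              R (N + (t : ℤ)) ^ k := by
            rw [← sum_union_inter]
            exact le_add_of_nonneg_right (sum_nonneg fun t _ => pow_nonneg (hR _) k)
        _ ≤ C * X + D := by
            refine add_le_add (hC N X hX hN) ?_
            rw [hD]
            have hinj : Set.InjOn (fun t : ℕ => N + (t : ℤ))
                ((Icc 1 X).filter (fun t : ℕ => (N + (t : ℤ)).natAbs < M k)) := by
              intro a _ b _ hab
              simp only [add_right_inj, Nat.cast_inj] at hab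
              exact hab
            rw [← sum_image (f := fun s : ℤ => R s ^ k) (g := fun t : ℕ => N + (t : ℤ)) hinj]
            apply sum_le_sum_of_subset_of_nonneg
            · intro s hs
              obtain ⟨t, ht, rfl⟩ := mem_image.1 hs
              have := (mem_filter.1 ht).2
              rw [mem_Icc]
              omega
            · intro s _ _
              exact pow_nonneg (hR s) k
        _ ≤ (C + D) * X := by
            rw [add_mul]
            exact add_le_add le_rfl (le_mul_of_one_le_right hD0 hX1)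

end Pool.Agent.TH344.PW
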