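import Mathlib
import Pool.Agent.TH344.PW.Stm2
/-!
# Project PW: one exceptional set for all the moments, relative version (`S_DIAQ`)
-/

set_option autoImplicit false

namespace Pool.Agent.TH344.PW

open Finset

namespace DIQ

/-- a large integer -/
noncomputable def Mk (X0 : ℕ → ℕ → ℕ) (k : ℕ) : ℕ :=
  if k ≤ 1 then 0 else 2 * ((range (k + 1)).sup (X0 k) + 2) ^ (k + 1) + k

lemma Mk_le (X0 : ℕ → ℕ → ℕ) (k : ℕ) (hk : 2 ≤ k) : k ≤ Mk X0 k := by
  unfold Mk
  rw [if_neg (by omega)]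
  exact Nat.le_add_left _ _

/-- if `M_k` is reached at the length `X` then `X` is large -/
lemma le_of_Mk (X0 : ℕ → ℕ → ℕ) {k B X : ℕ} (hk : 2 ≤ k) (hB : B ≤ k) (hX : 1 ≤ X)
    (h : Mk X0 k ≤ X ^ B + X) : X0 k B ≤ X := by
  unfold Mk at h
  rw [if_neg (by omega)] at h
  have h1 : X0 k B ≤ (range (k + 1)).sup (X0 k) :=
    le_sup (f := X0 k) (mem_range.2 (by omega))
  have h2 : X ^ B ≤ X ^ (k + 1) := Nat.pow_le_pow_right hX (by omega)
  have h3 : X ≤ X ^ (k + 1) := by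
    calc X = X ^ 1 := (pow_one _).symm
      _ ≤ X ^ (k + 1) := Nat.pow_le_pow_right hX (by omega)
  have h4 : ((range (k + 1)).sup (X0 k) + 2) ^ (k + 1) ≤ X ^ (k + 1) := by omega
  have h5 := (Nat.pow_le_pow_iff_left (by omega : k + 1 ≠ 0)).1 h4
  omega

lemma sum_half (n : ℕ) : ∑ k ∈ Icc 1 n, (1 / 2 : ℝ) ^ k ≤ 1 := by
  have h : ∑ k ∈ Icc 1 n, (1 / 2 : ℝ) ^ k = 1 - (1 / 2) ^ n := by
    induction n with
    | zero => simp
    | succ n ih =>
      rw [Finset.sum_Icc_succ_top (by omega), ih, pow_succ]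
      ring
  rw [h]
  have : (0 : ℝ) < (1 / 2) ^ n := by positivity
  linarith

end DIQ

open DIQ

open Classical in
theorem diaq : S_DIAQ := by
  intro Q V v0 R P hv0 hV hR hrare hcount hmom
  choose X0 hX0 using fun (k B : ℕ) => fun (h : 1 ≤ k) =>
    hrare k B ((1 / 4 : ℝ) ^ k) h (by positivity)
  let Y0 : ℕ → ℕ → ℕ := fun k B => if h : 1 ≤ k then X0 k B h else 0
  have hY0 : ∀ k B, 1 ≤ k → ∀ (N : ℤ) (X : ℕ), Y0 k B ≤ X → N.natAbs ≤ X ^ B →
      (((Icc 1 X).filter (fun t : ℕ => Q (N + (t : ℤ)) ∧ P k (N + (t : ℤ)))).card : ℝ) ≤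
        (1 / 4 : ℝ) ^ k * V X := by
    intro k B hk N X hX hN
    refine hX0 k B hk N X ?_ hN
    have : Y0 k B = X0 k B hk := dif_pos hk
    omega
  refine ⟨{t | ∃ k, 1 ≤ k ∧ Mk Y0 k ≤ t.natAbs ∧ P k t}, ?_, ?_, ?_⟩
  · intro t ht
    exact ⟨1, le_refl _, by simp [Mk], ht⟩
  · intro B ε hε
    obtain ⟨n0, hn0⟩ := exists_pow_lt_of_lt_one hε (by norm_num : (1 / 2 : ℝ) < 1)
    choose W hW using fun (k : ℕ) => fun (h : 1 ≤ k) =>
      hrare k B (ε * (1 / 2 : ℝ) ^ k) h (by positivity)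
    let W0 : ℕ → ℕ := fun k => if h : 1 ≤ k then W k h else 0
    set k0 := n0 + B + 2 with hk0
    refine ⟨(range k0).sup W0 + 2, fun N X hX hN => ?_⟩
    have hVX : 0 < V X := lt_of_lt_of_le hv0 (hV X (by omega))
    have hkey : ∀ k, 1 ≤ k → (((Icc 1 X).filter (fun t : ℕ => Q (N + (t : ℤ)) ∧
        (Mk Y0 k ≤ (N + (t : ℤ)).natAbs ∧ P k (N + (t : ℤ))))).card : ℝ) ≤
          ε * (1 / 2 : ℝ) ^ k * V X := by
      intro k hk
      have hsub : ((Icc 1 X).filter (fun t : ℕ => Q (N + (t : ℤ)) ∧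
        (Mk Y0 k ≤ (N + (t : ℤ)).natAbs ∧ P k (N + (t : ℤ))))) ⊆
          (Icc 1 X).filter (fun t : ℕ => Q (N + (t : ℤ)) ∧ P k (N + (t : ℤ))) := by
        intro t ht
        rw [mem_filter] at ht ⊢
        exact ⟨ht.1, ht.2.1, ht.2.2.2⟩
      have hle : (((Icc 1 X).filter (fun t : ℕ => Q (N + (t : ℤ)) ∧
        (Mk Y0 k ≤ (N + (t : ℤ)).natAbs ∧ P k (N + (t : ℤ))))).card : ℝ) ≤
          (((Icc 1 X).filter (fun t : ℕ => Q (N + (t : ℤ)) ∧ P k (N + (t : ℤ)))).card : ℝ) := by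
        exact_mod_cast card_le_card hsub
      by_cases hkk : k < k0
      · refine hle.trans (hW k hk N X ?_ hN)
        have h1 : W0 k ≤ (range k0).sup W0 := le_sup (f := W0) (mem_range.2 hkk)
        have h2 : W0 k = W k hk := dif_pos hk
        omega
      · by_cases hne : ((Icc 1 X).filter (fun t : ℕ => Q (N + (t : ℤ)) ∧
            (Mk Y0 k ≤ (N + (t : ℤ)).natAbs ∧ P k (N + (t : ℤ))))).Nonempty
        · obtain ⟨t, ht⟩ := hne
          rw [mem_filter, mem_Icc] at ht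
          have h1 : Mk Y0 k ≤ X ^ B + X := by
            have h2 := ht.2.2.1
            have h3 : (N + (t : ℤ)).natAbs ≤ N.natAbs + t := by
              have := Int.natAbs_add_le N (t : ℤ)
              simpa using this
            omega
          have h4 : Y0 k B ≤ X := le_of_Mk Y0 (by omega) (by omega) (by omega) h1
          refine (hle.trans (hY0 k B hk N X h4 hN)).trans ?_
          refine mul_le_mul_of_nonneg_right ?_ hVX.le
          have h5 : (1 / 4 : ℝ) ^ k = (1 / 2) ^ k * (1 / 2) ^ k := by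
            rw [← mul_pow]
            norm_num
          rw [h5]
          refine mul_le_mul_of_nonneg_right ?_ (by positivity)
          refine le_trans ?_ hn0.le
          exact pow_le_pow_of_le_one (by norm_num) (by norm_num) (by omega)
        · rw [not_nonempty_iff_eq_empty] at hne
          rw [hne, card_empty, Nat.cast_zero]
          positivity
    have hcov : (Icc 1 X).filter (fun t : ℕ => Q (N + (t : ℤ)) ∧ N + (t : ℤ) ∈
        {t : ℤ | ∃ k, 1 ≤ k ∧ Mk Y0 k ≤ t.natAbs ∧ P k t}) ⊆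
        (Icc 1 (N.natAbs + X)).biUnion (fun k => (Icc 1 X).filter (fun t : ℕ => Q (N + (t : ℤ)) ∧
          (Mk Y0 k ≤ (N + (t : ℤ)).natAbs ∧ P k (N + (t : ℤ))))) := by
      intro t ht
      rw [mem_filter, mem_Icc] at ht
      obtain ⟨htX, hQ, k, hk1, hk2, hk3⟩ := ht
      rw [mem_biUnion]
      refine ⟨k, ?_, mem_filter.2 ⟨mem_Icc.2 htX, hQ, hk2, hk3⟩⟩
      rw [mem_Icc]
      refine ⟨hk1, ?_⟩
      by_cases hk : k = 1
      · omega
      · have h1 := Mk_le Y0 k (by omega)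
        have h3 : (N + (t : ℤ)).natAbs ≤ N.natAbs + t := by
          have := Int.natAbs_add_le N (t : ℤ)
          simpa using this
        omega
    calc (((Icc 1 X).filter (fun t : ℕ => Q (N + (t : ℤ)) ∧ N + (t : ℤ) ∈
        {t : ℤ | ∃ k, 1 ≤ k ∧ Mk Y0 k ≤ t.natAbs ∧ P k t})).card : ℝ)
        ≤ (((Icc 1 (N.natAbs + X)).biUnion (fun k => (Icc 1 X).filter (fun t : ℕ =>
          Q (N + (t : ℤ)) ∧ (Mk Y0 k ≤ (N + (t : ℤ)).natAbs ∧ P k (N + (t : ℤ)))))).card : ℝ) := by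
          exact_mod_cast card_le_card hcov
      _ ≤ ∑ k ∈ Icc 1 (N.natAbs + X), (((Icc 1 X).filter (fun t : ℕ => Q (N + (t : ℤ)) ∧
          (Mk Y0 k ≤ (N + (t : ℤ)).natAbs ∧ P k (N + (t : ℤ))))).card : ℝ) := by
          exact_mod_cast card_biUnion_le
      _ ≤ ∑ k ∈ Icc 1 (N.natAbs + X), ε * (1 / 2 : ℝ) ^ k * V X :=
          sum_le_sum fun k hk => hkey k (mem_Icc.1 hk).1
      _ = ε * V X * ∑ k ∈ Icc 1 (N.natAbs + X), (1 / 2 : ℝ) ^ k := by
          rw [mul_sum]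
          exact sum_congr rfl fun k _ => by ring
      _ ≤ ε * V X * 1 := mul_le_mul_of_nonneg_left (sum_half _) (by positivity)
      _ = ε * V X := mul_one _
  · intro k B
    rcases Nat.eq_zero_or_pos k with hk | hk
    · subst hk
      obtain ⟨C, hC⟩ := hcount B
      refine ⟨C, fun N X hX hN => le_trans ?_ (hC N X hX hN)⟩
      simp only [pow_zero, sum_const, nsmul_eq_mul, mul_one]
      exact_mod_cast card_le_card fun t ht => by
        rw [mem_filter] at ht ⊢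
        exact ⟨ht.1, ht.2.1⟩
    · obtain ⟨C, hC⟩ := hmom k B hk
      set D : ℝ := ∑ s ∈ Ioo (-(Mk Y0 k : ℤ)) (Mk Y0 k), R s ^ k with hD
      have hD0 : 0 ≤ D := sum_nonneg fun s _ => pow_nonneg (hR s) k
      refine ⟨C + D / v0, fun N X hX hN => ?_⟩
      have hVX := hV X hX
      have hsub : (Icc 1 X).filter (fun t : ℕ => Q (N + (t : ℤ)) ∧ N + (t : ℤ) ∉
          {t : ℤ | ∃ k, 1 ≤ k ∧ Mk Y0 k ≤ t.natAbs ∧ P k t}) ⊆
          (Icc 1 X).filter (fun t : ℕ => Q (N + (t : ℤ)) ∧ ¬ P k (N + (t : ℤ))) ∪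
          (Icc 1 X).filter (fun t : ℕ => (N + (t : ℤ)).natAbs < Mk Y0 k) := by
        intro t ht
        rw [mem_filter] at ht
        rw [mem_union, mem_filter, mem_filter]
        by_cases h : (N + (t : ℤ)).natAbs < Mk Y0 k
        · exact Or.inr ⟨ht.1, h⟩
        · refine Or.inl ⟨ht.1, ht.2.1, fun hP => ht.2.2 ⟨k, hk, not_lt.1 h, hP⟩⟩
      have h2 : ∑ t ∈ (Icc 1 X).filter (fun t : ℕ => (N + (t : ℤ)).natAbs < Mk Y0 k),
          R (N + (t : ℤ)) ^ k ≤ D := by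
        have hinj : Set.InjOn (fun t : ℕ => N + (t : ℤ))
            ((Icc 1 X).filter (fun t : ℕ => (N + (t : ℤ)).natAbs < Mk Y0 k)) := by
          intro a _ b _ hab
          have : N + (a : ℤ) = N + (b : ℤ) := hab
          omega
        rw [hD, ← sum_image (f := fun s : ℤ => R s ^ k) hinj]
        refine sum_le_sum_of_subset_of_nonneg ?_ fun s _ _ => pow_nonneg (hR s) k
        intro s hs
        rw [mem_image] at hs
        obtain ⟨t, ht, rfl⟩ := hs
        rw [mem_filter] at ht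
        have h3 := ht.2
        rw [mem_Ioo]
        omega
      calc ∑ t ∈ (Icc 1 X).filter (fun t : ℕ => Q (N + (t : ℤ)) ∧ N + (t : ℤ) ∉
          {t : ℤ | ∃ k, 1 ≤ k ∧ Mk Y0 k ≤ t.natAbs ∧ P k t}), R (N + (t : ℤ)) ^ k
          ≤ ∑ t ∈ (Icc 1 X).filter (fun t : ℕ => Q (N + (t : ℤ)) ∧ ¬ P k (N + (t : ℤ))) ∪
          (Icc 1 X).filter (fun t : ℕ => (N + (t : ℤ)).natAbs < Mk Y0 k),
            R (N + (t : ℤ)) ^ k :=
            sum_le_sum_of_subset_of_nonneg hsub fun t _ _ => pow_nonneg (hR _) k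
        _ ≤ ∑ t ∈ (Icc 1 X).filter (fun t : ℕ => Q (N + (t : ℤ)) ∧ ¬ P k (N + (t : ℤ))),
              R (N + (t : ℤ)) ^ k +
            ∑ t ∈ (Icc 1 X).filter (fun t : ℕ => (N + (t : ℤ)).natAbs < Mk Y0 k),
              R (N + (t : ℤ)) ^ k := by
            rw [← sum_union_inter]
            exact le_add_of_nonneg_right (sum_nonneg fun t _ => pow_nonneg (hR _) k)
        _ ≤ C * V X + D := add_le_add (hC N X hX hN) h2
        _ ≤ C * V X + D / v0 * V X := by
            refine add_le_add (le_refl _) ?_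
            calc D = D / v0 * v0 := by field_simp
              _ ≤ D / v0 * V X := mul_le_mul_of_nonneg_left hVX (by positivity)
        _ = (C + D / v0) * V X := by ring

end Pool.Agent.TH344.PW
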