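import Pool.Agent.TH344.PW.Stm2
import Pool.Agent.TH344.DT.Rho
import Pool.Agent.TH841.PT.PenP
import Pool.Agent.TH841.PT.Fin2

/-!
# Project PW: assembly (`S_PENB`, `S_PENQ`)
-/

set_option autoImplicit false

namespace Pool.Agent.TH344.PW

open Finset Polynomial Pool.Agent.W262.RK Pool.Agent.W307.RT Pool.Agent.W307.RS
open Pool.Agent.TH841.PT Pool.Agent.TH344.JG Pool.Agent.TH344.PJ

open Pool.Agent.H474R2.PG (rho)

namespace FN

lemma sft_one (z X : ℕ) (t : ℤ) : Sft 1 z X t := by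
  intro p hp _ _ hd
  rw [eval_one] at hd
  exact (Nat.prime_iff_prime_int.1 hp).not_dvd_one hd

lemma Sp_nn {a : ℕ → ℝ} (ha : ∀ p, 0 ≤ a p) (z y : ℕ) : 0 ≤ Sp a z y := by
  unfold Sp
  exact sum_nonneg fun p _ => div_nonneg (ha p) (Nat.cast_nonneg p)

/-- the integers close to zero -/
lemma small_card (S : Finset ℕ) (N : ℤ) (R : ℕ) (hS : ∀ t ∈ S, (N + (t : ℤ)).natAbs ≤ R) :
    S.card ≤ 2 * R + 1 := by
  have h1 : S.card ≤ (Icc (-(R : ℤ)) R).card := by
    refine card_le_card_of_injOn (fun t : ℕ => N + (t : ℤ)) ?_ ?_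
    · intro t ht
      have := hS t ht
      simp only [coe_Icc, Set.mem_Icc]
      omega
    · intro a _ b _ hab
      have : N + (a : ℤ) = N + (b : ℤ) := hab
      omega
  rw [Int.card_Icc] at h1
  omega

/-- a sum over integers close to zero -/
lemma small_sum (g : ℤ → ℝ) (hg : ∀ t, 0 ≤ g t) (Q : ℤ → Prop) [DecidablePred Q] (S : Finset ℕ)
    (N : ℤ) (R : ℕ) (hS : ∀ t ∈ S, (N + (t : ℤ)).natAbs ≤ R ∧ Q (N + (t : ℤ))) :
    ∑ t ∈ S, g (N + (t : ℤ)) ≤
      ∑ t ∈ (Icc 1 (2 * R + 1)).filter (fun t : ℕ => Q ((-(R : ℤ) - 1) + (t : ℤ))),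
        g ((-(R : ℤ) - 1) + (t : ℤ)) := by
  have h1 : ∑ t ∈ S, g (N + (t : ℤ)) = ∑ x ∈ S.image (fun t : ℕ => N + (t : ℤ)), g x := by
    refine (sum_image ?_).symm
    intro a _ b _ hab
    have : N + (a : ℤ) = N + (b : ℤ) := hab
    omega
  rw [h1]
  refine (sum_le_sum_of_subset_of_nonneg ?_ fun t _ _ => hg t).trans
    (to_Ioc g hg Q (-(R : ℤ) - 1) (2 * R + 1))
  intro x hx
  obtain ⟨t, ht, rfl⟩ := mem_image.1 hx
  obtain ⟨h2, h3⟩ := hS t ht
  rw [mem_filter, mem_Ioc]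
  refine ⟨⟨by omega, by push_cast; omega⟩, h3⟩

open Classical in
/-- the roots -/
lemma root_card {J : Type} [Fintype J] {f : J → ℤ[X]} (hf : ∀ j, f j ≠ 0) (N : ℤ) (X : ℕ) :
    ((Icc 1 X).filter (fun t : ℕ => ∃ j, (f j).eval (N + (t : ℤ)) = 0)).card ≤
      ∑ j, (f j).natDegree := by
  have h1 : (Icc 1 X).filter (fun t : ℕ => ∃ j, (f j).eval (N + (t : ℤ)) = 0) ⊆
      univ.biUnion fun j => (Icc 1 X).filter (fun t : ℕ => (f j).eval (N + (t : ℤ)) = 0) := by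
    intro t ht
    obtain ⟨ht1, j, hj⟩ := mem_filter.1 ht
    exact mem_biUnion.2 ⟨j, mem_univ j, mem_filter.2 ⟨ht1, hj⟩⟩
  refine (card_le_card h1).trans (card_biUnion_le.trans (sum_le_sum fun j _ => ?_))
  have h2 : ((Icc 1 X).filter (fun t : ℕ => (f j).eval (N + (t : ℤ)) = 0)).card ≤
      (f j).roots.toFinset.card := by
    refine card_le_card_of_injOn (fun t : ℕ => N + (t : ℤ)) ?_ ?_
    · intro t ht
      have h3 := (mem_filter.1 ht).2
      rw [mem_coe, Multiset.mem_toFinset, mem_roots (hf j)]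
      exact h3
    · intro a _ b _ hab
      have : N + (a : ℤ) = N + (b : ℤ) := hab
      omega
  exact h2.trans ((Multiset.toFinset_card_le _).trans (card_roots' _))

section

variable {J : Type} [Fintype J] [DecidableEq J] {g : ℕ} {u : Fin (2 * g + 1) → ℤ[X]}
  {κ : PR (2 * g + 1) → ℤ} {cls : J → PR (2 * g + 1)} {f : J → ℤ[X]}

/-- the exceptional arguments of the `k`-th moment -/
def Ex (f : J → ℤ[X]) (T : ℕ → Finset (J → ℝ)) (k : ℕ) (t : ℤ) : Prop :=
  ¬ ((∀ j, (f j).eval t ≠ 0) ∧ DT.rho (T k) (omf f t) = 1)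

open Classical in
/-- the moments over sifted arguments -/
lemma mom_gen (h1 : S_AVGB) (hg : 1 ≤ g) (hP : PenB u κ cls f) {T : ℕ → Finset (J → ℝ)} {k : ℕ}
    (hk : 1 ≤ k) (hT : ∀ t ∈ T k, ∀ j, 0 < t j) (hM : MAKB u κ cls f k (T k)) (B : ℕ)
    (G : ℤ[X]) (hG : Squarefree (((∏ j, f j) * G).map (Int.castRingHom ℚ))) :
    ∃ z0 : ℕ, ∀ z, z0 ≤ z → ∃ C : ℝ, ∀ (N : ℤ) (X : ℕ), 1 ≤ X → N.natAbs ≤ X ^ B →
      ∀ T' : Finset ℕ, T' ⊆ Icc 1 X → (∀ t ∈ T', ¬ Ex f T k (N + (t : ℤ)) ∧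
        Sft G z X (N + (t : ℤ))) →
      ∑ t ∈ T', ((SelJ (fun i => (u i).eval (N + (t : ℤ)))).ncard : ℝ) ^ k ≤
        C * (X * Real.exp (-Sp (fun p => (rho G p : ℝ)) z X)) := by
  obtain ⟨z0, hz0⟩ := h1 g k B J u κ cls f (T k) hg hk hP hT hM G hG
  refine ⟨z0, fun z hz => ?_⟩
  obtain ⟨C, hC⟩ := hz0 z hz
  refine ⟨C, fun N X hX hN T' hT' hT2 => ?_⟩
  have h2 : ∀ t ∈ T', (∀ j, (f j).eval (N + (t : ℤ)) ≠ 0) ∧
      DT.rho (T k) (omf f (N + (t : ℤ))) = 1 := fun t ht => not_not.1 (hT2 t ht).1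
  refine le_trans (le_of_eq ?_) (hC N X hX hN T' hT' fun t ht => ⟨(h2 t ht).1, (hT2 t ht).2⟩)
  refine sum_congr rfl fun t ht => ?_
  rw [(h2 t ht).2, mul_one]

open Classical in
/-- the moments over all arguments -/
lemma mom_one (h1 : S_AVGB) (hg : 1 ≤ g) (hP : PenB u κ cls f) {T : ℕ → Finset (J → ℝ)} {k : ℕ}
    (hk : 1 ≤ k) (hT : ∀ t ∈ T k, ∀ j, 0 < t j) (hM : MAKB u κ cls f k (T k)) (B : ℕ) :
    ∃ C : ℝ, 0 ≤ C ∧ ∀ (N : ℤ) (X : ℕ), 1 ≤ X → N.natAbs ≤ X ^ B →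
      ∑ t ∈ (Icc 1 X).filter (fun t : ℕ => ¬ Ex f T k (N + (t : ℤ))),
        ((SelJ (fun i => (u i).eval (N + (t : ℤ)))).ncard : ℝ) ^ k ≤ C * X := by
  obtain ⟨z0, hz0⟩ := mom_gen h1 hg hP hk hT hM B 1 (by
    have := hP.irr.sqf
    unfold mQ at this
    rwa [mul_one])
  obtain ⟨C, hC⟩ := hz0 z0 le_rfl
  refine ⟨|C|, abs_nonneg _, fun N X hX hN => ?_⟩
  refine (hC N X hX hN _ (filter_subset _ _) fun t ht =>
    ⟨(mem_filter.1 ht).2, sft_one _ _ _⟩).trans ?_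
  have h2 : Real.exp (-Sp (fun p => (rho (1 : ℤ[X]) p : ℝ)) z0 X) ≤ 1 := by
    rw [Real.exp_le_one_iff, neg_nonpos]
    exact Sp_nn (fun p => Nat.cast_nonneg _) _ _
  have h3 : (0 : ℝ) ≤ X * Real.exp (-Sp (fun p => (rho (1 : ℤ[X]) p : ℝ)) z0 X) := by positivity
  calc C * (X * Real.exp (-Sp (fun p => (rho (1 : ℤ[X]) p : ℝ)) z0 X))
      ≤ |C| * (X * Real.exp (-Sp (fun p => (rho (1 : ℤ[X]) p : ℝ)) z0 X)) :=
        mul_le_mul_of_nonneg_right (le_abs_self _) h3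
    _ ≤ |C| * (X * 1) := mul_le_mul_of_nonneg_left
        (mul_le_mul_of_nonneg_left h2 (Nat.cast_nonneg _)) (abs_nonneg _)
    _ = _ := by rw [mul_one]

/-- the weights -/
lemma exists_T (h2 : S_MAKB) (hg : 1 ≤ g) (hP : PenB u κ cls f)
    (hbal : Bal (2 * g + 1) (fun c => (univ.filter (fun j => cls j = c)).card)) :
    ∃ T : ℕ → Finset (J → ℝ), ∀ k, 1 ≤ k → (∀ t ∈ T k, ∀ j, 0 < t j) ∧
      (∀ t ∈ T k, 1 < ∏ j, t j) ∧ MAKB u κ cls f k (T k) := by
  have hT : ∀ k : ℕ, ∃ T : Finset (J → ℝ), 1 ≤ k → (∀ t ∈ T, ∀ j, 0 < t j) ∧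
      (∀ t ∈ T, 1 < ∏ j, t j) ∧ MAKB u κ cls f k T := by
    intro k
    by_cases hk : 1 ≤ k
    · obtain ⟨T, hT⟩ := h2 g k J u κ cls f hg hk hP hbal
      exact ⟨T, fun _ => hT⟩
    · exact ⟨∅, fun h => absurd h hk⟩
  choose T hT using hT
  exact ⟨T, hT⟩

end

end FN

theorem penb_of (h1 : S_AVGB) (h2 : S_MAKB) (h3 : S_BADB) (h4 : S_DIAB) : S_PENB := by
  intro g J _ _ u κ cls f hg hP hbal
  classical
  obtain ⟨T, hT⟩ := FN.exists_T h2 hg hP hbal
  obtain ⟨Z, hZ1, hZ2⟩ := h4 (fun t => ((SelJ (fun i => (u i).eval t)).ncard : ℝ))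
    (FN.Ex f T) (fun t => Nat.cast_nonneg _) (fun k B ε hk hε => by
      obtain ⟨X0, hX0⟩ := h3 J f (T k) B hP.irr (hT k hk).1 (hT k hk).2.1 ε hε
      refine ⟨X0, fun N X hX hN => ?_⟩
      refine le_trans (le_of_eq ?_) (hX0 N X hX hN)
      refine congrArg (fun s : Finset ℕ => (s.card : ℝ)) ?_
      ext t
      simp only [mem_filter]
      rfl)
    (fun k B hk => by
      obtain ⟨C, _, hC⟩ := FN.mom_one h1 hg hP hk (hT k hk).1 (hT k hk).2.2 B
      exact ⟨C, hC⟩)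
  refine ⟨Z, fun t ht => ?_, hZ2⟩
  by_contra hcon
  exact ht (hZ1 t fun h => hcon h.1)

section

variable {r : ℕ} {G : Fin r → ℤ[X]}

/-- close to zero -/
lemma FN.near (hG : Irr G) : ∃ K : ℕ, ∀ (t : ℤ) (X : ℕ),
    (∃ i, ((G i).eval t).natAbs ^ 2 ≤ X) → t.natAbs ≤ Nat.sqrt X + K := by
  choose K hK using fun i => grow (hG.deg i)
  refine ⟨∑ i, K i, fun t X => ?_⟩
  rintro ⟨i, hi⟩
  have h3 := hK i t
  have h4 : ((G i).eval t).natAbs ≤ Nat.sqrt X := Nat.le_sqrt'.2 hi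
  have h5 : K i ≤ ∑ i, K i := single_le_sum (f := K) (fun _ _ => Nat.zero_le _) (mem_univ i)
  omega

/-- the size of a short interval -/
lemma FN.near_le (K : ℕ) {X : ℕ} (hX : 1 ≤ X) :
    ((2 * (Nat.sqrt X + K) + 1 : ℕ) : ℝ) ≤ (2 * K + 3) * Real.sqrt X := by
  have h3 : (Nat.sqrt X : ℝ) ≤ Real.sqrt X := by
    apply Real.le_sqrt_of_sq_le
    exact_mod_cast Nat.sqrt_le' X
  have h4 : (1 : ℝ) ≤ Real.sqrt X := Real.one_le_sqrt.2 (by exact_mod_cast hX)
  push_cast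
  have h6 : (K : ℝ) ≤ K * Real.sqrt X := le_mul_of_one_le_right (Nat.cast_nonneg _) h4
  linarith

end

theorem penq_of (h1 : S_AVGB) (h2 : S_MAKB) (h3 : S_BADG) (h4 : S_DIAQ) : S_PENQ := by
  intro g J _ _ u κ cls f r G hg hP hbal hG hfG
  classical
  obtain ⟨T, hT⟩ := FN.exists_T h2 hg hP hbal
  have hall : Irr (Sum.elim f G) := irr_sum hP.irr hG fun j i => hfG i j
  have hsq : Squarefree (((∏ j, f j) * ∏ i, G i).map (Int.castRingHom ℚ)) := by
    have := hall.sqf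
    rw [Fintype.prod_sum_type] at this
    exact this
  obtain ⟨K, hK⟩ := FN.near hG
  obtain ⟨zE, hzE⟩ := exp_prod GDPf.gdp hG
  obtain ⟨C1, hC10, hC1⟩ := sqrt_log (r + 1)
  obtain ⟨C0, hC00, hC0⟩ := sqrt_log r
  have hV1 : ∀ X : ℕ, 2 ≤ X → (1 : ℝ) / (C0 + 1) ≤ X / (Real.log X) ^ r := by
    intro X hX
    have h5 : (1 : ℝ) ≤ Real.sqrt X := Real.one_le_sqrt.2 (by exact_mod_cast (by omega : 1 ≤ X))
    have h6 := h5.trans (hC0 X hX)
    have hX2 : (2 : ℝ) ≤ X := by exact_mod_cast hX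
    have hlX : 0 < Real.log X := Real.log_pos (by linarith)
    have h7 : (0 : ℝ) ≤ X / (Real.log X) ^ r := by positivity
    rw [div_le_iff₀ (by positivity)]
    nlinarith
  obtain ⟨Z, hZ1, hZ2⟩ := h4 (AllPr G) (fun X => X / (Real.log X) ^ r) (1 / (C0 + 1))
    (fun t => ((SelJ (fun i => (u i).eval t)).ncard : ℝ))
    (FN.Ex f T) (by positivity) hV1 (fun t => Nat.cast_nonneg _) (fun k B ε hk hε => by
      obtain ⟨zB, hzB⟩ := h3 J f (T k) B (∏ i, G i) hP.irr (hT k hk).1 (hT k hk).2.1 hsq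
      obtain ⟨CB, η, hη, hCB⟩ := hzB (zB + zE) (by omega)
      obtain ⟨CE, hCE0, hCE⟩ := hzE (zB + zE) (by omega)
      set K1 : ℕ := ∑ j, (f j).natDegree with hK1
      have hlim : Filter.Tendsto (fun X : ℕ => (K1 + 2 * K + 3) * C1 * (Real.log X)⁻¹ +
          |CB| * CE * (Real.log X) ^ (-η)) Filter.atTop (nhds 0) := by
        have h5 : Filter.Tendsto (fun X : ℕ => Real.log X) Filter.atTop Filter.atTop :=
          Real.tendsto_log_atTop.comp tendsto_natCast_atTop_atTop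
        have h6 := (tendsto_inv_atTop_zero.comp h5).const_mul ((K1 + 2 * K + 3) * C1)
        have h7 := ((tendsto_rpow_neg_atTop hη).comp h5).const_mul (|CB| * CE)
        have h8 := h6.add h7
        simpa using h8
      obtain ⟨X0, hX0⟩ := Filter.eventually_atTop.1 (hlim.eventually_le_const hε)
      refine ⟨X0 + 2, fun N X hX hN => ?_⟩
      have hX2 : (2 : ℝ) ≤ X := by exact_mod_cast (by omega : 2 ≤ X)
      have hlX : 0 < Real.log X := Real.log_pos (by linarith)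
      have hX0' := hX0 X (by omega)
      -- the three parts
      have hsub : (Icc 1 X).filter (fun t : ℕ => AllPr G (N + (t : ℤ)) ∧
          FN.Ex f T k (N + (t : ℤ))) ⊆
          ((Icc 1 X).filter (fun t : ℕ => ∃ j, (f j).eval (N + (t : ℤ)) = 0) ∪
          (Icc 1 X).filter (fun t : ℕ => (N + (t : ℤ)).natAbs ≤ Nat.sqrt X + K)) ∪
          (Icc 1 X).filter (fun t : ℕ => (∀ j, (f j).eval (N + (t : ℤ)) ≠ 0) ∧
            Sft (∏ i, G i) (zB + zE) X (N + (t : ℤ)) ∧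
            DT.rho (T k) (omf f (N + (t : ℤ))) < 1) := by
        intro t ht
        obtain ⟨ht1, ht2, ht3⟩ := mem_filter.1 ht
        rw [mem_union, mem_union, mem_filter, mem_filter, mem_filter]
        by_cases hj : ∃ j, (f j).eval (N + (t : ℤ)) = 0
        · exact Or.inl (Or.inl ⟨ht1, hj⟩)
        by_cases hi : ∃ i, ((G i).eval (N + (t : ℤ))).natAbs ^ 2 ≤ X
        · exact Or.inl (Or.inr ⟨ht1, hK _ _ hi⟩)
        right
        push Not at hj hi
        refine ⟨ht1, hj, Sft_of ht2 hi, lt_of_le_of_ne (DT.rho_le_one _ _) fun h5 => ?_⟩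
        exact ht3 ⟨hj, h5⟩
      have hA := FN.root_card (fun j => (hP.irr.irr j).ne_zero) N X
      have hB := FN.small_card ((Icc 1 X).filter
        (fun t : ℕ => (N + (t : ℤ)).natAbs ≤ Nat.sqrt X + K)) N (Nat.sqrt X + K)
        fun t ht => (mem_filter.1 ht).2
      have hC := hCB N X (by omega) hN ((Icc 1 X).filter
        (fun t : ℕ => (∀ j, (f j).eval (N + (t : ℤ)) ≠ 0) ∧
            Sft (∏ i, G i) (zB + zE) X (N + (t : ℤ)) ∧
            DT.rho (T k) (omf f (N + (t : ℤ))) < 1)) (filter_subset _ _)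
        fun t ht => (mem_filter.1 ht).2
      have hcard := (card_le_card hsub).trans ((card_union_le _ _).trans
        (Nat.add_le_add_right (card_union_le _ _) _))
      have hcard' : (((Icc 1 X).filter (fun t : ℕ => AllPr G (N + (t : ℤ)) ∧
          FN.Ex f T k (N + (t : ℤ)))).card : ℝ) ≤ (K1 : ℝ) +
          ((2 * (Nat.sqrt X + K) + 1 : ℕ) : ℝ) +
          ((Icc 1 X).filter (fun t : ℕ => (∀ j, (f j).eval (N + (t : ℤ)) ≠ 0) ∧
            Sft (∏ i, G i) (zB + zE) X (N + (t : ℤ)) ∧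
            DT.rho (T k) (omf f (N + (t : ℤ))) < 1)).card := by
        exact_mod_cast hcard.trans (Nat.add_le_add_right (Nat.add_le_add hA hB) _)
      refine hcard'.trans ?_
      have h5 := FN.near_le K (X := X) (by omega)
      have h6 : (1 : ℝ) ≤ Real.sqrt X := Real.one_le_sqrt.2 (by linarith)
      have h7 := hC1 X (by omega)
      have h8 : (K1 : ℝ) + ((2 * (Nat.sqrt X + K) + 1 : ℕ) : ℝ) ≤
          (K1 + 2 * K + 3) * C1 * (Real.log X)⁻¹ * (X / (Real.log X) ^ r) := by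
        have h9 : (K1 : ℝ) ≤ K1 * Real.sqrt X := le_mul_of_one_le_right (Nat.cast_nonneg _) h6
        calc (K1 : ℝ) + ((2 * (Nat.sqrt X + K) + 1 : ℕ) : ℝ) ≤
            K1 * Real.sqrt X + (2 * K + 3) * Real.sqrt X := add_le_add h9 h5
          _ = (K1 + 2 * K + 3) * Real.sqrt X := by ring
          _ ≤ (K1 + 2 * K + 3) * (C1 * (X / (Real.log X) ^ (r + 1))) :=
            mul_le_mul_of_nonneg_left h7 (by positivity)
          _ = _ := by
            rw [pow_succ]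
            field_simp
      have h9 : (((Icc 1 X).filter (fun t : ℕ => (∀ j, (f j).eval (N + (t : ℤ)) ≠ 0) ∧
            Sft (∏ i, G i) (zB + zE) X (N + (t : ℤ)) ∧
            DT.rho (T k) (omf f (N + (t : ℤ))) < 1)).card : ℝ) ≤
            |CB| * CE * (Real.log X) ^ (-η) * (X / (Real.log X) ^ r) := by
        refine hC.trans ?_
        have h10 : (0 : ℝ) ≤ (Real.log X) ^ (-η) := Real.rpow_nonneg hlX.le _
        calc CB * (X * Real.exp (-Sp (fun p => (rho (∏ i, G i) p : ℝ)) (zB + zE) X) *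
              (Real.log X) ^ (-η))
            ≤ |CB| * (X * Real.exp (-Sp (fun p => (rho (∏ i, G i) p : ℝ)) (zB + zE) X) *
              (Real.log X) ^ (-η)) :=
              mul_le_mul_of_nonneg_right (le_abs_self _) (by positivity)
          _ ≤ |CB| * (X * (CE / (Real.log X) ^ r) * (Real.log X) ^ (-η)) := by
              refine mul_le_mul_of_nonneg_left (mul_le_mul_of_nonneg_right
                (mul_le_mul_of_nonneg_left (hCE X (by omega)) (by linarith)) h10) (abs_nonneg _)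
          _ = _ := by ring
      have hV0 : (0 : ℝ) ≤ X / (Real.log X) ^ r := by positivity
      calc (K1 : ℝ) + ((2 * (Nat.sqrt X + K) + 1 : ℕ) : ℝ) +
          ((Icc 1 X).filter (fun t : ℕ => (∀ j, (f j).eval (N + (t : ℤ)) ≠ 0) ∧
            Sft (∏ i, G i) (zB + zE) X (N + (t : ℤ)) ∧
            DT.rho (T k) (omf f (N + (t : ℤ))) < 1)).card
          ≤ (K1 + 2 * K + 3) * C1 * (Real.log X)⁻¹ * (X / (Real.log X) ^ r) +
            |CB| * CE * (Real.log X) ^ (-η) * (X / (Real.log X) ^ r) := add_le_add h8 h9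
        _ = ((K1 + 2 * K + 3) * C1 * (Real.log X)⁻¹ + |CB| * CE * (Real.log X) ^ (-η)) *
            (X / (Real.log X) ^ r) := by ring
        _ ≤ ε * (X / (Real.log X) ^ r) := mul_le_mul_of_nonneg_right hX0' hV0)
    (fun B => by
      obtain ⟨C, _, hC⟩ := count_prime avh hG B
      refine ⟨C, fun N X hX hN => ?_⟩
      have hinj : Function.Injective (fun t : ℕ => N + (t : ℤ)) := by
        intro a b hab
        have : N + (a : ℤ) = N + (b : ℤ) := hab
        omega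
      have h5 := hC N X hX (by
        rw [Int.abs_eq_natAbs]
        exact_mod_cast hN) (((Icc 1 X).filter (fun t : ℕ => AllPr G (N + (t : ℤ)))).image
          (fun t : ℕ => N + (t : ℤ))) (by
          intro x hx
          obtain ⟨t, ht, rfl⟩ := mem_image.1 hx
          have := mem_Icc.1 (mem_filter.1 ht).1
          rw [mem_Ioc]
          omega) (by
          intro x hx
          obtain ⟨t, ht, rfl⟩ := mem_image.1 hx
          exact (mem_filter.1 ht).2)
      rw [card_image_of_injective _ hinj] at h5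
      exact h5)
    (fun k B hk => by
      obtain ⟨zA, hzA⟩ := FN.mom_gen h1 hg hP hk (hT k hk).1 (hT k hk).2.2 B (∏ i, G i) hsq
      obtain ⟨CA, hCA⟩ := hzA (zA + zE) (by omega)
      obtain ⟨CE, hCE0, hCE⟩ := hzE (zA + zE) (by omega)
      obtain ⟨CO, hCO0, hCO⟩ := FN.mom_one h1 hg hP hk (hT k hk).1 (hT k hk).2.2 1
      refine ⟨|CA| * CE + CO * (2 * K + 3) * C0, fun N X hX hN => ?_⟩
      have hX2 : (2 : ℝ) ≤ X := by exact_mod_cast hX
      have hlX : 0 < Real.log X := Real.log_pos (by linarith)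
      set R : ℤ → ℝ := fun t => ((SelJ (fun i => (u i).eval t)).ncard : ℝ) ^ k with hR
      have hR0 : ∀ t, 0 ≤ R t := fun t => pow_nonneg (Nat.cast_nonneg _) _
      have hlarge : ∑ t ∈ (Icc 1 X).filter (fun t : ℕ => ¬ FN.Ex f T k (N + (t : ℤ)) ∧
          Sft (∏ i, G i) (zA + zE) X (N + (t : ℤ))), R (N + (t : ℤ)) ≤
          |CA| * CE * (X / (Real.log X) ^ r) := by
        refine (hCA N X (by omega) hN _ (filter_subset _ _) fun t ht =>
          (mem_filter.1 ht).2).trans ?_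
        calc CA * (X * Real.exp (-Sp (fun p => (rho (∏ i, G i) p : ℝ)) (zA + zE) X))
            ≤ |CA| * (X * Real.exp (-Sp (fun p => (rho (∏ i, G i) p : ℝ)) (zA + zE) X)) :=
              mul_le_mul_of_nonneg_right (le_abs_self _) (by positivity)
          _ ≤ |CA| * (X * (CE / (Real.log X) ^ r)) :=
              mul_le_mul_of_nonneg_left (mul_le_mul_of_nonneg_left (hCE X hX) (by linarith))
                (abs_nonneg _)
          _ = _ := by ring
      have hsmall : ∑ t ∈ (Icc 1 X).filter (fun t : ℕ => ¬ FN.Ex f T k (N + (t : ℤ)) ∧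
          (N + (t : ℤ)).natAbs ≤ Nat.sqrt X + K), R (N + (t : ℤ)) ≤
          CO * (2 * K + 3) * C0 * (X / (Real.log X) ^ r) := by
        refine (FN.small_sum R hR0 (fun t => ¬ FN.Ex f T k t) _ N (Nat.sqrt X + K)
          fun t ht => ⟨(mem_filter.1 ht).2.2, (mem_filter.1 ht).2.1⟩).trans ?_
        refine (hCO _ _ (by omega) (by rw [pow_one]; omega)).trans ?_
        have h5 := FN.near_le K (X := X) (by omega)
        calc CO * ((2 * (Nat.sqrt X + K) + 1 : ℕ) : ℝ) ≤ CO * ((2 * K + 3) * Real.sqrt X) :=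
              mul_le_mul_of_nonneg_left h5 hCO0
          _ ≤ CO * ((2 * K + 3) * (C0 * (X / (Real.log X) ^ r))) :=
              mul_le_mul_of_nonneg_left (mul_le_mul_of_nonneg_left (hC0 X hX)
                (by positivity)) hCO0
          _ = _ := by ring
      have hsub : (Icc 1 X).filter (fun t : ℕ => AllPr G (N + (t : ℤ)) ∧
          ¬ FN.Ex f T k (N + (t : ℤ))) ⊆
          (Icc 1 X).filter (fun t : ℕ => ¬ FN.Ex f T k (N + (t : ℤ)) ∧
            Sft (∏ i, G i) (zA + zE) X (N + (t : ℤ))) ∪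
          (Icc 1 X).filter (fun t : ℕ => ¬ FN.Ex f T k (N + (t : ℤ)) ∧
          (N + (t : ℤ)).natAbs ≤ Nat.sqrt X + K) := by
        intro t ht
        obtain ⟨ht1, ht2, ht3⟩ := mem_filter.1 ht
        rw [mem_union, mem_filter, mem_filter]
        by_cases hi : ∃ i, ((G i).eval (N + (t : ℤ))).natAbs ^ 2 ≤ X
        · exact Or.inr ⟨ht1, ht3, hK _ _ hi⟩
        · push Not at hi
          exact Or.inl ⟨ht1, ht3, Sft_of ht2 hi⟩
      refine (sum_le_sum_of_subset_of_nonneg hsub fun t _ _ => hR0 _).trans ?_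
      have hui := sum_union_inter (s₁ := (Icc 1 X).filter (fun t : ℕ =>
          ¬ FN.Ex f T k (N + (t : ℤ)) ∧ Sft (∏ i, G i) (zA + zE) X (N + (t : ℤ))))
          (s₂ := (Icc 1 X).filter (fun t : ℕ => ¬ FN.Ex f T k (N + (t : ℤ)) ∧
          (N + (t : ℤ)).natAbs ≤ Nat.sqrt X + K)) (f := fun t : ℕ => R (N + (t : ℤ)))
      have hnn : 0 ≤ ∑ t ∈ (Icc 1 X).filter (fun t : ℕ =>
          ¬ FN.Ex f T k (N + (t : ℤ)) ∧ Sft (∏ i, G i) (zA + zE) X (N + (t : ℤ))) ∩
          (Icc 1 X).filter (fun t : ℕ => ¬ FN.Ex f T k (N + (t : ℤ)) ∧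
          (N + (t : ℤ)).natAbs ≤ Nat.sqrt X + K), R (N + (t : ℤ)) :=
        sum_nonneg fun t _ => hR0 _
      have h10 : (|CA| * CE + CO * (2 * K + 3) * C0) * (X / (Real.log X) ^ r) =
          |CA| * CE * (X / (Real.log X) ^ r) +
          CO * (2 * K + 3) * C0 * (X / (Real.log X) ^ r) := by ring
      rw [h10]
      linarith)
  refine ⟨Z, fun t ht => ?_, hZ2⟩
  by_contra hcon
  exact ht (hZ1 t fun h => hcon h.1)

end Pool.Agent.TH344.PW
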