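import Pool.Agent.TH344.PW.Stm
import Pool.Agent.TH344.JG.Cmb

/-!
# PW-CMB: the unlinked sets for a graph with edge weights and copies of the indices (job 3628)

Generalises `Pool/Agent/TH344/JG/Cmb.lean`.
-/

set_option autoImplicit false
set_option linter.unusedSectionVars false
set_option linter.unusedVariables false

namespace Pool.Agent.TH344.PW

open Finset Pool.Agent.W262.RK Pool.Agent.W307.RT Pool.Agent.W307.FK Pool.Agent.TH344.DT
  Pool.Agent.TH344.JG

open Pool.Agent.TH344.JG.CmbV

namespace CmbB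

variable {V : Type} [Fintype V] [DecidableEq V]

/-- the number of the elements of `U` of a class -/
def uB {k m : ℕ} (U : Finset (IV V k (fun _ _ => true) × Fin m)) (c : V) : ℕ :=
  (U.filter (fun i => i.1.1.1 = c)).card

theorem sum_clsB {k m : ℕ} (U : Finset (IV V k (fun _ _ => true) × Fin m)) (t : V → ℝ) :
    ∑ i ∈ U, 1 / (2 ^ k * (m : ℝ)) * t i.1.1.1 = ∑ c, (uB U c : ℝ) / (2 ^ k * m) * t c := by
  rw [← Finset.sum_fiberwise U (fun i => i.1.1.1)]
  apply Finset.sum_congr rfl
  intro c _
  have h1 : ∀ i ∈ U.filter (fun i => i.1.1.1 = c), (1 / (2 ^ k * (m : ℝ)) : ℝ) * t i.1.1.1 =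
      1 / (2 ^ k * (m : ℝ)) * t c := by
    intro i hi
    rw [(Finset.mem_filter.1 hi).2]
  rw [Finset.sum_congr rfl h1, Finset.sum_const, nsmul_eq_mul]
  unfold uB
  ring

theorem uB_le {k m : ℕ} (U : Finset (IV V k (fun _ _ => true) × Fin m)) (c : V) :
    uB U c ≤ m * uV (U.image Prod.fst) c := by
  unfold uB uV
  have h1 : U.filter (fun i => i.1.1.1 = c) ⊆
      ((U.image Prod.fst).filter (fun i => i.1.1 = c)) ×ˢ (univ : Finset (Fin m)) := by
    intro i hi
    obtain ⟨h2, h3⟩ := Finset.mem_filter.1 hi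
    rw [Finset.mem_product]
    exact ⟨Finset.mem_filter.2 ⟨Finset.mem_image_of_mem _ h2, h3⟩, mem_univ _⟩
  have h2 := Finset.card_le_card h1
  rw [Finset.card_product, Finset.card_univ, Fintype.card_fin] at h2
  rw [mul_comm]
  exact h2

/-- all the copies are in `U` in the case of equality -/
theorem copies {k m : ℕ} (U : Finset (IV V k (fun _ _ => true) × Fin m)) (c : V)
    (h : uB U c = m * uV (U.image Prod.fst) c) (i : IV V k (fun _ _ => true)) (hi : i.1.1 = c)
    (hiU : i ∈ U.image Prod.fst) (θ : Fin m) : (i, θ) ∈ U := by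
  have h1 : U.filter (fun i => i.1.1.1 = c) ⊆
      ((U.image Prod.fst).filter (fun i => i.1.1 = c)) ×ˢ (univ : Finset (Fin m)) := by
    intro i hi
    obtain ⟨h2, h3⟩ := Finset.mem_filter.1 hi
    rw [Finset.mem_product]
    exact ⟨Finset.mem_filter.2 ⟨Finset.mem_image_of_mem _ h2, h3⟩, mem_univ _⟩
  have h2 : U.filter (fun i => i.1.1.1 = c) =
      ((U.image Prod.fst).filter (fun i => i.1.1 = c)) ×ˢ (univ : Finset (Fin m)) := by
    apply Finset.eq_of_subset_of_card_le h1
    rw [Finset.card_product, Finset.card_univ, Fintype.card_fin, mul_comm]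
    exact h.ge
  have h3 : (i, θ) ∈ U.filter (fun i => i.1.1.1 = c) := by
    rw [h2, Finset.mem_product]
    exact ⟨Finset.mem_filter.2 ⟨hiU, hi⟩, mem_univ _⟩
  exact (Finset.mem_filter.1 h3).1

/-- the product of the densities of the classes -/
theorem numB {ad : V → V → Bool} {a : V → V → ℝ} (hsa : ∀ c c', a c c' = a c' c)
    (hpos : ∀ c c', ad c c' = true → 0 < a c c') (hzero : ∀ c c', ad c c' = false → a c c' = 0)
    (hrow : ∀ c, ∑ c', a c c' = 1)
    (htri : ∀ c, ∃ c' c'', ad c c' = true ∧ ad c c'' = true ∧ ad c' c'' = true)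
    (α : V → ℝ) (h0 : ∀ c, 0 ≤ α c) (hu : ∀ c c', ad c c' = true → α c * α c' ≤ 1)
    (hne : ∃ c, α c ≠ 1) : ∏ c, α c < 1 := by
  by_contra h
  push Not at h
  have hp : ∀ c, 0 < α c := by
    intro c
    refine lt_of_le_of_ne (h0 c) (Ne.symm ?_)
    have h1 : ∏ c, α c ≠ 0 := by
      intro h2
      rw [h2] at h
      linarith
    exact Finset.prod_ne_zero_iff.1 h1 c (mem_univ c)
  have hlog : 0 ≤ ∑ c, Real.log (α c) := by
    rw [← Real.log_prod (fun c _ => (hp c).ne')]
    exact Real.log_nonneg h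
  have hsum : ∑ c, ∑ c', a c c' * Real.log (α c * α c') = 2 * ∑ c, Real.log (α c) := by
    have h1 : ∀ c c', a c c' * Real.log (α c * α c') =
        a c c' * Real.log (α c) + a c' c * Real.log (α c') := by
      intro c c'
      rw [Real.log_mul (hp c).ne' (hp c').ne', hsa c' c]
      ring
    simp only [h1, Finset.sum_add_distrib]
    rw [Finset.sum_comm (f := fun c c' => a c' c * Real.log (α c'))]
    simp only [← Finset.sum_mul, hrow, one_mul]
    ring
  have hle : ∀ c c', a c c' * Real.log (α c * α c') ≤ 0 := by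
    intro c c'
    cases hc : ad c c'
    · rw [hzero c c' hc, zero_mul]
    · apply mul_nonpos_of_nonneg_of_nonpos (hpos c c' hc).le
      exact Real.log_nonpos (mul_nonneg (h0 c) (h0 c')) (hu c c' hc)
  have heq : ∀ c c', ad c c' = true → α c * α c' = 1 := by
    intro c c' hcc
    have h1 : ∑ c, ∑ c', a c c' * Real.log (α c * α c') = 0 := by
      apply le_antisymm
      · exact Finset.sum_nonpos fun c _ => Finset.sum_nonpos fun c' _ => hle c c'
      · rw [hsum]; linarith
    have h2 := (Finset.sum_eq_zero_iff_of_nonpos (fun c _ =>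
      Finset.sum_nonpos fun c' _ => hle c c')).1 h1 c (mem_univ c)
    have h3 := (Finset.sum_eq_zero_iff_of_nonpos (fun c' _ => hle c c')).1 h2 c' (mem_univ c')
    rcases mul_eq_zero.1 h3 with h4 | h4
    · exact absurd h4 (hpos c c' hcc).ne'
    · have h5 : 0 < α c * α c' := mul_pos (hp c) (hp c')
      rw [← Real.exp_log h5, h4, Real.exp_zero]
  obtain ⟨c, hc⟩ := hne
  obtain ⟨c', c'', h1, h2, h3⟩ := htri c
  have e1 := heq c c' h1
  have e2 := heq c c'' h2
  have e3 := heq c' c'' h3
  have e4 : α c' = α c'' := by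
    have : α c * α c' = α c * α c'' := e1.trans e2.symm
    exact mul_left_cancel₀ (hp c).ne' this
  rw [← e4] at e3
  have e5 : α c' = 1 := by
    have := hp c'
    nlinarith
  rw [e5, mul_one] at e1
  exact hc e1

end CmbB

open CmbB

theorem cmbb : S_CMBB := by
  classical
  intro V _ _ _ ad a k m _ hm hirr hsym hsa hpos hzero hrow htri
  have h4 : (4 : ℕ) ^ k = 2 ^ k * 2 ^ k := by rw [← mul_pow]; norm_num
  have hM : (0 : ℝ) < 2 ^ k := by positivity
  have hm0 : (0 : ℝ) < m := by exact_mod_cast hm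
  have hMm : (0 : ℝ) < 2 ^ k * m := by positivity
  have himg : ∀ U : Finset (IV V k (fun _ _ => true) × Fin m),
      (∀ i ∈ U, ∀ j ∈ U, LV ad i.1 j.1 = LV ad j.1 i.1) →
      ∀ i ∈ U.image Prod.fst, ∀ j ∈ U.image Prod.fst, LV ad i j = LV ad j i := by
    intro U hU i hi j hj
    obtain ⟨i', hi', rfl⟩ := Finset.mem_image.1 hi
    obtain ⟨j', hj', rfl⟩ := Finset.mem_image.1 hj
    exact hU i' hi' j' hj'
  -- the products of the classes
  have hprod : ∀ U : Finset (IV V k (fun _ _ => true) × Fin m),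
      (∀ i ∈ U, ∀ j ∈ U, LV ad i.1 j.1 = LV ad j.1 i.1) →
      (∃ c, (uB U c : ℝ) / (2 ^ k * m) ≠ 1) → ∏ c, ((uB U c : ℝ) / (2 ^ k * m)) < 1 := by
    intro U hU hne
    refine numB hsa hpos hzero hrow htri (fun c => (uB U c : ℝ) / (2 ^ k * m))
      (fun c => by positivity) (fun c c' hcc => ?_) hne
    have h5 := uV_le hsym (U.image Prod.fst) (himg U hU) c c' hcc
    have h6 : uB U c * uB U c' ≤ m * m * 4 ^ k := by
      calc uB U c * uB U c' ≤ (m * uV (U.image Prod.fst) c) * (m * uV (U.image Prod.fst) c') :=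
            Nat.mul_le_mul (uB_le U c) (uB_le U c')
        _ = m * m * (uV (U.image Prod.fst) c * uV (U.image Prod.fst) c') := by ring
        _ ≤ m * m * 4 ^ k := Nat.mul_le_mul_left _ h5
    rw [h4] at h6
    have h7 : (uB U c : ℝ) * (uB U c' : ℝ) ≤ (m : ℝ) * m * (2 ^ k * 2 ^ k) := by exact_mod_cast h6
    rw [div_mul_div_comm, div_le_one (by positivity)]
    calc (uB U c : ℝ) * (uB U c' : ℝ) ≤ (m : ℝ) * m * (2 ^ k * 2 ^ k) := h7
      _ = 2 ^ k * m * (2 ^ k * m) := by ring
  have hex : ∀ U : Finset (IV V k (fun _ _ => true) × Fin m), ∃ t : V → ℝ, (∀ j, 0 < t j) ∧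
      1 < ∏ j, t j ∧ ((∀ i ∈ U, ∀ j ∈ U, LV ad i.1 j.1 = LV ad j.1 i.1) →
        (∃ c, (uB U c : ℝ) / (2 ^ k * m) ≠ 1) →
        ∑ i ∈ U, 1 / (2 ^ k * (m : ℝ)) * t i.1.1.1 < Fintype.card V) := by
    intro U
    by_cases h : (∀ i ∈ U, ∀ j ∈ U, LV ad i.1 j.1 = LV ad j.1 i.1) ∧
        ∃ c, (uB U c : ℝ) / (2 ^ k * m) ≠ 1
    · obtain ⟨t, ht1, ht2, ht3⟩ := exists_tV (fun c => (uB U c : ℝ) / (2 ^ k * m))
        (fun c => by positivity) (hprod U h.1 h.2)
      refine ⟨t, ht1, ht2, fun _ _ => ?_⟩
      rw [sum_clsB]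
      exact ht3
    · refine ⟨fun _ => 2, fun _ => by norm_num, ?_, fun h1 h2 => ?_⟩
      · rw [Finset.prod_const, Finset.card_univ]
        exact one_lt_pow₀ (by norm_num) Fintype.card_ne_zero
      · exact absurd ⟨h1, h2⟩ h
  choose t ht1 ht2 ht3 using hex
  refine ⟨Finset.univ.image t, ?_, ?_, ?_⟩
  · intro s hs j
    obtain ⟨U, _, rfl⟩ := Finset.mem_image.1 hs
    exact ht1 U j
  · intro s hs
    obtain ⟨U, _, rfl⟩ := Finset.mem_image.1 hs
    exact ht2 U
  · intro U hU
    by_cases hne : ∃ c, (uB U c : ℝ) / (2 ^ k * m) ≠ 1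
    · left
      exact ⟨t U, Finset.mem_image_of_mem t (mem_univ U), ht3 U hU hne⟩
    · right
      push Not at hne
      have hcls : ∀ s : V → ℝ, ∑ i ∈ U, 1 / (2 ^ k * (m : ℝ)) * s i.1.1.1 = ∑ c, s c := by
        intro s
        rw [sum_clsB]
        apply Finset.sum_congr rfl
        intro c _
        rw [hne c, one_mul]
      have huB : ∀ c, uB U c = m * 2 ^ k := by
        intro c
        have h5 := hne c
        rw [div_eq_one_iff_eq hMm.ne'] at h5
        have h6 : (uB U c : ℝ) = ((m * 2 ^ k : ℕ) : ℝ) := by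
          rw [h5]; push_cast; ring
        exact_mod_cast h6
      have huV1 : ∀ c, 2 ^ k ≤ uV (U.image Prod.fst) c := by
        intro c
        have h5 := uB_le U c
        rw [huB c] at h5
        exact Nat.le_of_mul_le_mul_left h5 (by omega)
      have huV : ∀ c, uV (U.image Prod.fst) c = 2 ^ k := by
        intro c
        obtain ⟨c', -, hc', -, -⟩ := htri c
        have h5 := uV_le hsym (U.image Prod.fst) (himg U hU) c c' hc'
        have h6 := huV1 c
        have h7 := huV1 c'
        rw [h4] at h5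
        have h8 : 0 < 2 ^ k := by positivity
        by_contra h9
        have h10 : 2 ^ k + 1 ≤ uV (U.image Prod.fst) c := by omega
        have h11 : (2 ^ k + 1) * 2 ^ k ≤ uV (U.image Prod.fst) c * uV (U.image Prod.fst) c' :=
          Nat.mul_le_mul h10 h7
        nlinarith
      refine ⟨?_, ?_, ?_⟩
      · have h5 := hcls (fun _ => 1)
        simp only [mul_one] at h5
        rw [h5]
        simp
      · intro s hs
        obtain ⟨W, _, rfl⟩ := Finset.mem_image.1 hs
        obtain ⟨θ, hθ, hlt⟩ := exists_thetaV (t W) (ht1 W) (ht2 W)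
        refine ⟨θ, hθ, ?_⟩
        rw [hcls (fun c => t W c ^ (-θ))]
        exact hlt
      · intro j hj
        by_contra hcon
        push Not at hcon
        have hjU : j.1 ∉ U.image Prod.fst := by
          intro h5
          exact hj (copies U j.1.1.1 (by rw [huB, huV]) j.1 rfl h5 j.2)
        have hcon' : ∀ i ∈ U.image Prod.fst, LV ad i j.1 = LV ad j.1 i := by
          intro i hi
          obtain ⟨i', hi', rfl⟩ := Finset.mem_image.1 hi
          exact hcon i' hi'
        have hU' := himg U hU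
        obtain ⟨c', -, hc', -, -⟩ := htri j.1.1.1
        have h6 := pair_leV hsym
          (insert j.1 ((U.image Prod.fst).filter (fun i => i.1.1 = j.1.1.1)))
          ((U.image Prod.fst).filter (fun i => i.1.1 = c')) j.1.1.1 c' hc' (by
            intro i hi
            rcases Finset.mem_insert.1 hi with rfl | hi
            · rfl
            · exact (Finset.mem_filter.1 hi).2) (fun i hi => (Finset.mem_filter.1 hi).2) (by
            intro i hi i' hi'
            rcases Finset.mem_insert.1 hi with rfl | hi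
            · exact (hcon' i' (Finset.mem_filter.1 hi').1).symm
            · exact hU' i (Finset.mem_filter.1 hi).1 i' (Finset.mem_filter.1 hi').1)
        rw [Finset.card_insert_of_notMem (by
          intro h7
          exact hjU (Finset.mem_filter.1 h7).1)] at h6
        have e1 : ((U.image Prod.fst).filter (fun i => i.1.1 = j.1.1.1)).card = 2 ^ k :=
          huV j.1.1.1
        have e2 : ((U.image Prod.fst).filter (fun i => i.1.1 = c')).card = 2 ^ k := huV c'
        rw [e1, e2, h4] at h6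
        have h8 : 0 < 2 ^ k := by positivity
        nlinarith

end Pool.Agent.TH344.PW
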