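import Mathlib
import Pool.Agent.TH344.PW.Stm
import Pool.Agent.TH344.JG.Graph
import Pool.Agent.TH841.PT.Mak3
import Pool.Agent.TH841.PT.Fin1

/-!
# PW-MAK: the main average with the weight (job 3632)

Follows `Pool/Agent/TH841/PT/Mak3.lean`.
-/

set_option autoImplicit false

namespace Pool.Agent.TH344.PW

open Finset Polynomial Pool.Agent.W262.RK Pool.Agent.W307.RT Pool.Agent.W307.RS
open Pool.Agent.TH841.PT Pool.Agent.TH344.JG Pool.Agent.TH344.PJ

open Pool.Agent.H474R2.PG (rho)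

namespace MakB

section

variable {J : Type} [Fintype J] [DecidableEq J] {n : ℕ}

/-! ### The polynomials -/

lemma diff {u : Fin n → ℤ[X]} {κ : PR n → ℤ} {cls : J → PR n} {f : J → ℤ[X]}
    (h : PenB u κ cls f) (x y : Fin n) (hxy : x ≠ y) :
    ∃ (c : PR n) (ε : ℤ), (ε = 1 ∨ ε = -1) ∧ ((c.1.1 = x ∧ c.1.2 = y) ∨ (c.1.1 = y ∧ c.1.2 = x)) ∧
      u x - u y = C (ε * κ c) * ∏ j ∈ univ.filter (fun j => cls j = c), f j := by
  rcases lt_or_gt_of_ne hxy with h1 | h1
  · refine ⟨⟨(x, y), h1⟩, 1, Or.inl rfl, Or.inl ⟨rfl, rfl⟩, ?_⟩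
    have h2 := h.fac ⟨(x, y), h1⟩
    rw [one_mul]
    exact h2
  · refine ⟨⟨(y, x), h1⟩, -1, Or.inr rfl, Or.inr ⟨rfl, rfl⟩, ?_⟩
    have h2 := h.fac ⟨(y, x), h1⟩
    rw [neg_mul, one_mul, map_neg, neg_mul, ← h2, neg_sub]

lemma ne_of_pair {c c' : PR n} {l : Fin n} (h1 : l ≠ c.1.1) (h2 : l ≠ c.1.2)
    (h : (c'.1.1 = c.1.1 ∧ c'.1.2 = l) ∨ (c'.1.1 = l ∧ c'.1.2 = c.1.1)) : c ≠ c' := by
  rintro rfl
  rcases h with h | h
  · exact h2 h.2.symm
  · exact h1 h.1.symm

lemma sP_ndvd {u : Fin n → ℤ[X]} {κ : PR n → ℤ} {cls : J → PR n} {f : J → ℤ[X]}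
    (h : PenB u κ cls f) (j : J) : ¬ mQ (f j) ∣ mQ (sP u (cls j)) := by
  intro hd
  unfold sP mQ at hd
  rw [Polynomial.map_prod] at hd
  have hp := (h.irr.irrQ j).prime
  obtain ⟨l, hl, h1⟩ := (hp.dvd_finsetProd_iff _).1 hd
  rw [mem_filter] at hl
  obtain ⟨c, ε, hε, hc, h2⟩ := diff h (cls j).1.1 l hl.2.1.symm
  rw [h2] at h1
  refine h.irr.ndvd_prod (b := ε * κ c) ?_ ?_ h1
  · refine mul_ne_zero ?_ (h.ne c)
    rcases hε with rfl | rfl <;> norm_num
  · intro h3
    exact ne_of_pair hl.2.1 hl.2.2 hc (mem_filter.1 h3).2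

lemma sP_eval {u : Fin n → ℤ[X]} {κ : PR n → ℤ} {cls : J → PR n} {f : J → ℤ[X]} {z c : ℕ}
    (h : PenB u κ cls f) (hG : GoodP κ f z c) {p : ℕ} (hp : p.Prime) (hz : z < p) {t : ℤ} {j : J}
    (hj : (p : ℤ) ∣ (f j).eval t) : ¬ (p : ℤ) ∣ (sP u (cls j)).eval t := by
  have hpi := Nat.prime_iff_prime_int.1 hp
  intro hd
  unfold sP at hd
  rw [eval_prod] at hd
  obtain ⟨l, hl, h1⟩ := (hpi.dvd_finsetProd_iff _).1 hd
  rw [mem_filter] at hl
  obtain ⟨c', ε, hε, hc, h2⟩ := diff h (cls j).1.1 l hl.2.1.symm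
  rw [h2, eval_mul, eval_C, eval_prod] at h1
  rcases hpi.dvd_mul.1 h1 with h3 | h3
  · rcases hpi.dvd_mul.1 h3 with h4 | h4
    · rcases hε with rfl | rfl
      · exact hpi.not_dvd_one h4
      · rw [dvd_neg] at h4
        exact hpi.not_dvd_one h4
    · exact hG.const p hp hz c' h4
  · obtain ⟨l', hl', h4⟩ := (hpi.dvd_finsetProd_iff _).1 h3
    have h5 : j ≠ l' := by
      rintro rfl
      exact ne_of_pair hl.2.1 hl.2.2 hc (mem_filter.1 hl').2
    exact hG.pair p hp hz j l' h5 t ⟨hj, h4⟩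

lemma sign_ty' {u : Fin n → ℤ[X]} {κ : PR n → ℤ} {cls : J → PR n} {f : J → ℤ[X]} {z c : ℕ}
    (h : PenB u κ cls f) (hG : GoodP κ f z c) {p : ℕ} (hp : p.Prime) (hz : z < p) {t : ℤ} {j : J}
    (hj : (p : ℤ) ∣ (f j).eval t) :
    (if tyJ u cls p t j = true then (-1 : ℝ) else 1) = Jr ((sP u (cls j)).eval t) p := by
  have h1 := sP_eval h hG hp hz hj
  unfold tyJ Jr
  simp only [decide_eq_true_eq]
  have h2 : Int.gcd ((sP u (cls j)).eval t) p = 1 := by
    rw [← Int.isCoprime_iff_gcd_eq_one]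
    exact ((Nat.prime_iff_prime_int.1 hp).coprime_iff_not_dvd.2 h1).symm
  rcases jacobiSym.eq_one_or_neg_one h2 with h3 | h3
  · rw [h3]; norm_num
  · rw [h3]; norm_num

lemma toGp {κ : PR n → ℤ} {f : J → ℤ[X]} {z c : ℕ} (h : GoodP κ f z c) :
    Gp (fun _ => 1) f z c where
  two := h.two
  four := h.four
  one := h.one
  const := fun p hp _ _ h1 => (Nat.prime_iff_prime_int.1 hp).not_dvd_one h1
  pair := h.pair
  good := h.good

lemma exists_GoodP {f : J → ℤ[X]} (h : Irr f) {κ : PR n → ℤ} (hκ : ∀ c, κ c ≠ 0)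
    (c : ℕ) (hc : (∏ j, f j).natDegree + 1 ≤ c) : ∃ z0 : ℕ, ∀ z, z0 ≤ z → GoodP κ f z c := by
  obtain ⟨z1, hz1⟩ := exists_Gp GDPf.gdp h (a := fun _ => 1) (fun _ => one_ne_zero) c hc
  refine ⟨z1 + ∑ c, (κ c).natAbs, fun z hz => ?_⟩
  have h1 := hz1 z (by omega)
  refine ⟨h1.two, h1.four, h1.one, ?_, h1.pair, h1.good⟩
  intro p hp hzp k hk
  have h2 := Nat.le_of_dvd (Int.natAbs_pos.2 (hκ k)) (Int.natCast_dvd.1 hk)
  have h3 := single_le_sum (f := fun k => (κ k).natAbs) (fun _ _ => Nat.zero_le _) (mem_univ k)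
  omega

/-! ### The weights -/

/-- the polynomials of the indices -/
noncomputable def gI (u : Fin n → ℤ[X]) (cls : J → PR n) {k : ℕ}
    (i : IV J k (fun _ _ => true)) : ℤ[X] :=
  if dtp i.1.2.1 i.1.2.2 = true then sP u (cls i.1.1) else 1

lemma gI_ndvd {u : Fin n → ℤ[X]} {κ : PR n → ℤ} {cls : J → PR n} {f : J → ℤ[X]}
    (h : PenB u κ cls f) {k : ℕ} (i : IV J k (fun _ _ => true)) :
    ¬ mQ (f i.1.1) ∣ mQ (gI u cls i) := by
  unfold gI
  split_ifs
  · exact sP_ndvd h _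
  · unfold mQ
    rw [Polynomial.map_one]
    exact fun hd => (h.irr.irrQ i.1.1).not_isUnit (isUnit_of_dvd_one hd)

/-- the weights with signs -/
noncomputable def aI (u : Fin n → ℤ[X]) (cls : J → PR n) (f : J → ℤ[X]) (z k : ℕ)
    (i : IV J k (fun _ _ => true)) (p : ℕ) : ℝ :=
  if p.Prime ∧ z < p then rhoc (f i.1.1) (gI u cls i) p / 2 ^ k else 0

/-- the weights -/
noncomputable def bI (f : J → ℤ[X]) (z k : ℕ) (i : IV J k (fun _ _ => true)) (p : ℕ) : ℝ :=
  if p.Prime ∧ z < p then (rho (f i.1.1) p : ℝ) / 2 ^ k else 0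

lemma aI_abs (u : Fin n → ℤ[X]) (cls : J → PR n) (f : J → ℤ[X]) (z k : ℕ)
    (i : IV J k (fun _ _ => true)) (p : ℕ) : |aI u cls f z k i p| ≤ bI f z k i p := by
  unfold aI bI
  split_ifs
  · rw [abs_div, abs_of_pos (by positivity : (0 : ℝ) < 2 ^ k)]
    exact div_le_div_of_nonneg_right (rhoc_abs _ _ _) (by positivity)
  · simp

lemma types {u : Fin n → ℤ[X]} {κ : PR n → ℤ} {cls : J → PR n} {f : J → ℤ[X]} {z c : ℕ}
    (h : PenB u κ cls f) (hG : GoodP κ f z c) {k : ℕ} (i : IV J k (fun _ _ => true)) (p : ℕ) :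
    (rJ u cls f z (i.1.1, false) p + (if dtp i.1.2.1 i.1.2.2 = true then -1 else 1) *
      rJ u cls f z (i.1.1, true) p) / 2 ^ k = aI u cls f z k i p := by
  unfold aI
  by_cases h1 : p.Prime ∧ z < p
  · rw [if_pos h1]
    congr 1
    unfold rJ rhoc
    simp only [if_pos h1]
    set R := (range p).filter (fun x : ℕ => (p : ℤ) ∣ (f i.1.1).eval (x : ℤ)) with hR
    have h2 : ∀ b : Bool, (range p).filter (fun x : ℕ => (p : ℤ) ∣ (f i.1.1).eval (x : ℤ) ∧
        tyJ u cls p x i.1.1 = b) = R.filter (fun x : ℕ => tyJ u cls p x i.1.1 = b) := by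
      intro b
      rw [hR, filter_filter]
    rw [h2, h2]
    have h3 : ∀ x ∈ R, Jr ((gI u cls i).eval (x : ℤ)) p =
        (if tyJ u cls p x i.1.1 = true then (if dtp i.1.2.1 i.1.2.2 = true then (-1 : ℝ) else 1)
          else 1) := by
      intro x hx
      have hx' := (mem_filter.1 hx).2
      have h4 := sign_ty' h hG h1.1 h1.2 hx'
      unfold gI
      split_ifs with h5 h6 h6
      · rw [← h4, if_pos h6]
      · rw [← h4, if_neg h6]
      · simp [Jr]
      · simp [Jr]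
    rw [sum_congr rfl h3, sum_ite, sum_const, sum_const, nsmul_eq_mul, nsmul_eq_mul, mul_one]
    have h4 : R.filter (fun x : ℕ => tyJ u cls p x i.1.1 = false) =
        R.filter (fun x : ℕ => ¬ tyJ u cls p x i.1.1 = true) := by
      refine filter_congr fun x _ => ?_
      rw [Bool.not_eq_true]
    rw [h4]
    ring
  · rw [if_neg h1]
    unfold rJ
    simp [if_neg h1]

/-! ### The numbers of the prime factors -/

lemma card_prod {ι : Type} [DecidableEq ι] (s : Finset ι) (d : ι → ℕ) (h0 : ∀ i ∈ s, d i ≠ 0)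
    (hc : ∀ i ∈ s, ∀ j ∈ s, i ≠ j → (d i).Coprime (d j)) :
    (∏ i ∈ s, d i).primeFactors.card = ∑ i ∈ s, (d i).primeFactors.card := by
  induction s using Finset.induction_on with
  | empty => simp
  | insert a s ha ih =>
    have h1 : (d a).Coprime (∏ i ∈ s, d i) := Nat.Coprime.prod_right fun i hi =>
      hc a (mem_insert_self _ _) i (mem_insert_of_mem hi) (by rintro rfl; exact ha hi)
    rw [prod_insert ha, sum_insert ha, h1.primeFactors_mul,
      card_union_of_disjoint h1.disjoint_primeFactors,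
      ih (fun i hi => h0 i (mem_insert_of_mem hi))
        (fun i hi j hj => hc i (mem_insert_of_mem hi) j (mem_insert_of_mem hj))]

end

end MakB

open MakB in
theorem makb_of (h1 : S_EXPB) (h2 : S_CMBB) (h3 : S_ATSW) : S_MAKB := by
  classical
  intro g k J _ _ u κ cls f hg hk hP hB
  obtain ⟨A, hA1, hA2, hA3, hA4⟩ := hB
  obtain ⟨D0, hD0⟩ : ∃ D0 : ℕ, D0 = (∏ j, f j).natDegree := ⟨_, rfl⟩
  obtain ⟨m, hm⟩ : ∃ m : ℕ, m = D0 + 1 := ⟨_, rfl⟩
  have hm1 : 1 ≤ m := by omega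
  have hmR : (0 : ℝ) < m := by exact_mod_cast hm1
  have hn : 3 ≤ 2 * g + 1 := by omega
  -- the graph
  obtain ⟨ad, had⟩ : ∃ ad : J → J → Bool, ad = fun j l => adj (cls j) (cls l) := ⟨_, rfl⟩
  obtain ⟨ν, hν⟩ : ∃ ν : PR (2 * g + 1) → ℕ, ν = fun c => (univ.filter (fun j => cls j = c)).card :=
    ⟨_, rfl⟩
  have hν0 : ∀ c, (0 : ℝ) < ν c := by
    intro c
    obtain ⟨j, hj⟩ := hP.pos c
    rw [hν]
    have : 0 < (univ.filter (fun j => cls j = c)).card :=
      card_pos.2 ⟨j, mem_filter.2 ⟨mem_univ _, hj⟩⟩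
    exact_mod_cast this
  have hA4' : ∀ c, ∑ c', A c c' = (ν c : ℝ) := by
    intro c
    rw [hν]
    exact hA4 c
  have hJ : Nonempty J := by
    obtain ⟨c⟩ := nonempty_PR (n := 2 * g + 1) (by omega)
    obtain ⟨j, _⟩ := hP.pos c
    exact ⟨j⟩
  have hirr : ∀ j, ad j j = false := fun j => by rw [had]; exact adj_self _
  have hsym : ∀ j l, ad j l = ad l j := fun j l => by rw [had]; exact adj_comm _ _
  obtain ⟨T, hT1, hT2, hT3⟩ := h2 J ad
    (fun j l => A (cls j) (cls l) / ((ν (cls j) : ℝ) * (ν (cls l) : ℝ))) k m hk hm1 hirr hsym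
    (fun j l => by
      beta_reduce
      rw [hA1 (cls j) (cls l), mul_comm (ν (cls j) : ℝ)])
    (fun j l hjl => by
      rw [had] at hjl
      exact div_pos (hA2 _ _ hjl) (mul_pos (hν0 _) (hν0 _)))
    (fun j l hjl => by
      rw [had] at hjl
      beta_reduce
      rw [hA3 _ _ hjl, zero_div])
    (fun j => by
      beta_reduce
      rw [← sum_fiberwise univ cls]
      have e1 : ∀ c', ∑ l ∈ univ.filter (fun l => cls l = c'),
          A (cls j) (cls l) / ((ν (cls j) : ℝ) * (ν (cls l) : ℝ)) = A (cls j) c' / (ν (cls j) : ℝ) := by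
        intro c'
        have e2 : ∀ l ∈ univ.filter (fun l => cls l = c'),
            A (cls j) (cls l) / ((ν (cls j) : ℝ) * (ν (cls l) : ℝ)) =
              A (cls j) c' / ((ν (cls j) : ℝ) * (ν c' : ℝ)) := by
          intro l hl
          rw [(mem_filter.1 hl).2]
        rw [sum_congr rfl e2, sum_const, nsmul_eq_mul]
        have e3 : (((univ.filter (fun l => cls l = c')).card : ℕ) : ℝ) = (ν c' : ℝ) := by rw [hν]
        rw [e3]
        have e4 := hν0 c'
        have e5 := hν0 (cls j)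
        field_simp
      rw [sum_congr rfl fun c' _ => e1 c', ← sum_div, hA4']
      exact div_self (hν0 _).ne')
    (fun j => by
      obtain ⟨c', c'', e1, e2, e3⟩ := adj_tri hn (cls j)
      obtain ⟨l', rfl⟩ := hP.pos c'
      obtain ⟨l'', rfl⟩ := hP.pos c''
      rw [had]
      exact ⟨l', l'', e1, e2, e3⟩)
  refine ⟨T, hT1, hT2, ?_⟩
  intro c hc
  obtain ⟨zg, hzg⟩ := exists_GoodP hP.irr hP.ne c hc
  obtain ⟨zd, hzd⟩ := GDPf.gdp _ hP.irr.sqf
  choose E0 zt hE0 hzt using fun i : IV J k (fun _ _ => true) =>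
    twg (f i.1.1) (hP.irr.irr _) (hP.irr.deg _) (gI u cls i) (gI_ndvd hP i)
  refine ⟨zg + zd + univ.sup zt, fun z hz => ⟨hzg z (by omega), ?_⟩⟩
  have hG := hzg z (by omega)
  have hGp := toGp hG
  have hGd := hzd z (by omega)
  have hzt' : ∀ i, zt i ≤ z := fun i => (le_sup (f := zt) (mem_univ i)).trans (by omega)
  choose Ct hCt using fun i : IV J k (fun _ _ => true) => hzt i z (hzt' i)
  have hz4 := hG.four
  choose Cm hCm0 hCm using fun j : J => mert (hP.irr.irr j) (hP.irr.deg j) (z := z) (by omega)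
  obtain ⟨Cs, hCs⟩ : ∃ Cs : ℝ, Cs = ∑ j, Cm j := ⟨_, rfl⟩
  have hCs' : ∀ j, Cm j ≤ Cs := fun j => by
    rw [hCs]
    exact single_le_sum (f := Cm) (fun j _ => hCm0 j) (mem_univ j)
  have hCs0 : 0 ≤ Cs := by rw [hCs]; exact sum_nonneg fun j _ => hCm0 j
  have hEs : ∀ i, E0 i ≤ ∑ i, E0 i := fun i =>
    single_le_sum (f := E0) (fun j _ => hE0 j) (mem_univ i)
  have hCts : ∀ i, |Ct i| ≤ ∑ i, |Ct i| := fun i =>
    single_le_sum (f := fun i => |Ct i|) (fun j _ => abs_nonneg _) (mem_univ i)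
  have hE0s : 0 ≤ ∑ i, E0 i := sum_nonneg fun i _ => hE0 i
  have hC0s : 0 ≤ ∑ i, |Ct i| := sum_nonneg fun i _ => abs_nonneg _
  have hll : ∀ y, z < y → 0 ≤ Real.log (Real.log y) := by
    intro y hy
    have h3 : (3 : ℝ) ≤ y := by exact_mod_cast (by omega : 3 ≤ y)
    apply Real.log_nonneg
    rw [Real.le_log_iff_exp_le (by linarith)]
    have := Real.exp_one_lt_d9
    linarith
  obtain ⟨β, hβ⟩ : ∃ β : ℝ, β = 1 / (2 ^ k * (m : ℝ)) := ⟨_, rfl⟩
  have hβ0 : 0 < β := by rw [hβ]; positivity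
  have h2k : (2 : ℝ) ≤ 2 ^ k := by
    calc (2 : ℝ) = 2 ^ 1 := (pow_one _).symm
      _ ≤ 2 ^ k := pow_le_pow_right₀ (by norm_num) hk
  have hβ1 : β ≤ 1 / 2 := by
    rw [hβ]
    apply one_div_le_one_div_of_le (by norm_num)
    have : (1 : ℝ) ≤ m := by exact_mod_cast hm1
    nlinarith
  have hSb : ∀ (x : IV J k (fun _ _ => true) × Fin m) y,
      Sp (fun p => bI f z k x.1 p / m) z y = β * Sp (fun p => rho (f x.1.1.1) p) z y := by
    intro x y
    unfold Sp
    rw [mul_sum]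
    refine sum_congr rfl fun p hp => ?_
    have hp' := mem_filter.1 hp
    unfold bI
    beta_reduce
    rw [if_pos ⟨hp'.2, (mem_Ioc.1 hp'.1).1⟩, hβ]
    field_simp
  have hSl : ∀ j y, z < y → Sp (fun p => rho (f j) p) z y ≤ Real.log (Real.log y) + Cs ∧
      Real.log (Real.log y) - Cs ≤ Sp (fun p => rho (f j) p) z y := by
    intro j y hy
    have h1 := abs_le.1 (hCm j y hy)
    have h2 := hCs' j
    constructor <;> linarith [h1.1, h1.2]
  have hM : ∀ y, z < y → Fintype.card J * Real.log (Real.log y) + Fintype.card J * Cs ≤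
      ∑ j, Sp (fun p => rho (f j) p) z y + 2 * (Fintype.card J * Cs) := by
    intro y hy
    have h3 : ∑ j : J, (Real.log (Real.log y) - Cs) ≤ ∑ j, Sp (fun p => rho (f j) p) z y :=
      sum_le_sum fun j _ => (hSl j y hy).2
    rw [sum_const, nsmul_eq_mul, card_univ] at h3
    linarith
  -- sums over the sets of indices
  have hU0 : ∀ (U : Finset (IV J k (fun _ _ => true) × Fin m)) (w : J → ℝ), (∀ j, 0 ≤ w j) →
      ∀ y, z < y → ∑ x ∈ U, w x.1.1.1 * Sp (fun p => bI f z k x.1 p / m) z y ≤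
        (∑ x ∈ U, 1 / (2 ^ k * (m : ℝ)) * w x.1.1.1) * (Real.log (Real.log y) + Cs) := by
    intro U w hw y hy
    rw [sum_mul]
    refine sum_le_sum fun x _ => ?_
    rw [hSb, ← hβ]
    have h4 := (hSl x.1.1.1 y hy).1
    have h5 := hw x.1.1.1
    calc w x.1.1.1 * (β * Sp (fun p => rho (f x.1.1.1) p) z y) =
        β * w x.1.1.1 * Sp (fun p => rho (f x.1.1.1) p) z y := by ring
      _ ≤ β * w x.1.1.1 * (Real.log (Real.log y) + Cs) :=
        mul_le_mul_of_nonneg_left h4 (mul_nonneg hβ0.le h5)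
  have hU1 : ∀ (U : Finset (IV J k (fun _ _ => true) × Fin m)) (w : J → ℝ), (∀ j, 0 ≤ w j) →
      ∑ x ∈ U, 1 / (2 ^ k * (m : ℝ)) * w x.1.1.1 < Fintype.card J →
      ∃ η C1 : ℝ, 0 < η ∧ ∀ y, z < y →
        ∑ x ∈ U, w x.1.1.1 * Sp (fun p => bI f z k x.1 p / m) z y +
          η * Real.log (Real.log y) ≤
          (∑ j, Sp (fun p => rho (f j) p) z y + 2 * (Fintype.card J * Cs)) + C1 := by
    intro U w hw hlt
    refine ⟨Fintype.card J - ∑ x ∈ U, 1 / (2 ^ k * (m : ℝ)) * w x.1.1.1, 0, by linarith,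
      fun y hy => ?_⟩
    have h4 := hU0 U w hw y hy
    have h5 := hM y hy
    have h6 : (∑ x ∈ U, 1 / (2 ^ k * (m : ℝ)) * w x.1.1.1) * Cs ≤ Fintype.card J * Cs :=
      mul_le_mul_of_nonneg_right hlt.le hCs0
    rw [add_zero]
    nlinarith
  obtain ⟨C, hC⟩ := h3 J (IV J k (fun _ _ => true) × Fin m) (fun x => x.1.1.1)
    (fun x p => aI u cls f z k x.1 p / m) (fun x p => bI f z k x.1 p / m)
    (fun x y => LV ad x.1 y.1) c z β (∑ i, |Ct i| + Cs) (∑ i, E0 i)
    (fun y => ∑ j, Sp (fun p => rho (f j) p) z y + 2 * (Fintype.card J * Cs)) T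
    (by
      rintro ⟨i, θ⟩ p
      refine ⟨?_, ?_⟩
      · simp only
        rw [abs_div, abs_of_pos hmR]
        exact div_le_div_of_nonneg_right (aI_abs _ _ _ _ _ _ _) hmR.le
      · simp only
        unfold bI
        split_ifs with h4
        · have h5 : rho (f i.1.1) p ≤ D0 := by
            have h6 := (hGd p h4.1 h4.2).1
            rw [rho_prod hGp h4.1 h4.2, ← hD0] at h6
            exact (single_le_sum (f := fun j => rho (f j) p) (fun _ _ => Nat.zero_le _)
              (mem_univ i.1.1)).trans h6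
          have h6 : (rho (f i.1.1) p : ℝ) ≤ m := by
            have : rho (f i.1.1) p ≤ m := by omega
            exact_mod_cast this
          rw [div_div, div_le_iff₀ (by positivity)]
          nlinarith
        · rw [zero_div]
          norm_num)
    (by
      rintro ⟨i, θ⟩
      exact LV_self hirr i)
    hG.two hβ0 hE0s hT1
    (by
      intro x y hy
      beta_reduce
      rw [hSb x]
      have h4 := (hSl x.1.1.1 y hy).2
      have h5 := hll y hy
      have h6 : β * (Real.log (Real.log y) - Cs) ≤ β * Sp (fun p => rho (f x.1.1.1) p) z y :=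
        mul_le_mul_of_nonneg_left h4 hβ0.le
      nlinarith)
    (by
      intro y hy
      have h4 := hM y hy
      have h5 := hll y hy
      have h6 : (0 : ℝ) ≤ Fintype.card J * Real.log (Real.log y) + Fintype.card J * Cs := by
        positivity
      exact h6.trans h4)
    (by
      intro U hU
      rcases hT3 U hU with ⟨t, ht, hlt⟩ | ⟨h4, h5, h6⟩
      · left
        obtain ⟨η, C1, hη, h7⟩ := hU1 U t (fun j => (hT1 t ht j).le) hlt
        exact ⟨t, ht, η, C1, hη, h7⟩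
      · right
        refine ⟨fun y hy => ?_, fun t ht => ?_, h6⟩
        · have h7 := hU0 U (fun _ => 1) (fun _ => zero_le_one) y hy
          simp only [one_mul, mul_one] at h7
          refine h7.trans (le_trans ?_ (hM y hy))
          have h8 : (0 : ℝ) ≤ Real.log (Real.log y) + Cs := add_nonneg (hll y hy) hCs0
          have h9 := mul_le_mul_of_nonneg_right h4 h8
          linarith
        · obtain ⟨θ, hθ, hlt⟩ := h5 t ht
          obtain ⟨η, C1, hη, h7⟩ := hU1 U (fun j => t j ^ (-θ))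
            (fun j => Real.rpow_nonneg (hT1 t ht j).le _) hlt
          exact ⟨θ, η, C1, hθ, hη, h7⟩)
    (by
      intro x y r e hy hr hsq hpr
      have h4 := hCt x.1 y r e hy hr hsq hpr
      have hlr := loglog_nonneg (by omega : 2 ≤ z) hr hpr
      have h5 : ∑ p ∈ PS z y, (fun p => aI u cls f z k x.1 p / m) p * (Jr p r * x4 e p) / (p : ℝ) =
          β * ∑ p ∈ PS z y, rhoc (f x.1.1.1) (gI u cls x.1) p *
            (Jr p r * x4 e p) / (p : ℝ) := by
        rw [mul_sum]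
        refine sum_congr rfl fun p hp => ?_
        have hp' := mem_filter.1 hp
        beta_reduce
        unfold aI
        rw [if_pos ⟨hp'.2, (mem_Ioc.1 hp'.1).1⟩, hβ]
        have := (Nat.Prime.pos hp'.2)
        field_simp
      beta_reduce at h5 ⊢
      rw [h5, hSb x]
      have h6 : ∑ p ∈ PS z y, rhoc (f x.1.1.1) (gI u cls x.1) p * (Jr p r * x4 e p) / (p : ℝ) ≤
          (∑ i, E0 i) * Real.log (Real.log r) + ∑ i, |Ct i| := by
        have := mul_le_mul_of_nonneg_right (hEs x.1) hlr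
        linarith [hCts x.1, le_abs_self (Ct x.1)]
      have h7 : 0 ≤ (∑ i, E0 i) * Real.log (Real.log r) + ∑ i, |Ct i| := by positivity
      have h8 : β * ∑ p ∈ PS z y, rhoc (f x.1.1.1) (gI u cls x.1) p *
            (Jr p r * x4 e p) / (p : ℝ) ≤ (∑ i, E0 i) * Real.log (Real.log r) + ∑ i, |Ct i| := by
        have h9 := mul_le_mul_of_nonneg_left h6 hβ0.le
        nlinarith
      have h9 : 0 ≤ 1 / 2 * (β * Sp (fun p => rho (f x.1.1.1) p) z y) := by
        have := Sp_nonneg (a := fun p => (rho (f x.1.1.1) p : ℝ)) (fun p => Nat.cast_nonneg _) z y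
        positivity
      linarith)
  refine ⟨C * Real.exp (2 * (Fintype.card J * Cs)), fun y hy => ?_⟩
  have e1 := h1 J ad hirr hsym k c z y (rJ u cls f z)
    (fun d => DT.rho T (fun j => (d j).primeFactors.card)) (by omega)
  have e2 := MergeF.merge (IV J k (fun _ _ => true)) (Fin m) (fun x p => aI u cls f z k x.1 p / m) c z y
    (fun d => Sym (LV ad) (fun _ => 1) d * DT.rho T (fun v =>
      (∏ i ∈ univ.filter (fun i : IV J k (fun _ _ => true) => i.1.1 = v), d i).primeFactors.card))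
  have e3 : ∀ (i : IV J k (fun _ _ => true)), (fun p => ∑ _θ : Fin m, aI u cls f z k i p / m) =
      fun p => (rJ u cls f z (i.1.1, false) p + (if dtp i.1.2.1 i.1.2.2 = true then -1 else 1) *
        rJ u cls f z (i.1.1, true) p) / 2 ^ k := by
    intro i
    funext p
    rw [types hP hG i p, sum_const, card_univ, Fintype.card_fin, nsmul_eq_mul]
    field_simp
  simp only [e3] at e2
  have e4 : ∀ d ∈ Tup (IV J k (fun _ _ => true) × Fin m) z y,
      (∏ x, gp (fun p => aI u cls f z k x.1 p / m) c (d x)) *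
        (Sym (LV ad) (fun _ => 1) (fun i => ∏ θ, d (i, θ)) * DT.rho T (fun v =>
          (∏ i ∈ univ.filter (fun i : IV J k (fun _ _ => true) => i.1.1 = v),
            ∏ θ, d (i, θ)).primeFactors.card)) =
      (∏ x, gp (fun p => aI u cls f z k x.1 p / m) c (d x)) *
        Sym (fun x y : IV J k (fun _ _ => true) × Fin m => LV ad x.1 y.1) (fun _ => 1) d *
        DT.rho T (DT.nn (fun x : IV J k (fun _ _ => true) × Fin m => x.1.1.1) (DT.om d)) := by
    intro d hd
    have hne := Tup_ne hd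
    have hco : ∀ x x', x ≠ x' → (d x).Coprime (d x') := by
      unfold Tup at hd
      exact (mem_filter.1 hd).2
    rw [Sym_merge (LV ad) (fun _ => 1) d hne, mul_assoc]
    congr 3
    funext v
    have e5 : ∏ i ∈ univ.filter (fun i : IV J k (fun _ _ => true) => i.1.1 = v), ∏ θ, d (i, θ) =
        ∏ x ∈ univ.filter (fun x : IV J k (fun _ _ => true) × Fin m => x.1.1.1 = v), d x := by
      have e6 : univ.filter (fun x : IV J k (fun _ _ => true) × Fin m => x.1.1.1 = v) =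
          (univ.filter (fun i : IV J k (fun _ _ => true) => i.1.1 = v)) ×ˢ
            (univ : Finset (Fin m)) := by
        ext x
        simp only [mem_filter, mem_univ, true_and, mem_product, and_true]
      rw [e6, prod_product]
    rw [e5, card_prod _ _ (fun x _ => hne x) (fun x _ x' _ h => hco x x' h)]
    rfl
  have e5 : ∑ s ∈ Tup (J × Bool) z y, (NV (adJ cls) s (Eneg s) : ℝ) ^ k *
        (∏ i, gp (rJ u cls f z i) c (s i)) *
        DT.rho T (fun j => (s (j, false) * s (j, true)).primeFactors.card) =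
      ∑ d ∈ Tup (IV J k (fun _ _ => true) × Fin m) z y,
      (∏ x, gp (fun p => aI u cls f z k x.1 p / m) c (d x)) *
        Sym (fun x y : IV J k (fun _ _ => true) × Fin m => LV ad x.1 y.1) (fun _ => 1) d *
        DT.rho T (DT.nn (fun x : IV J k (fun _ _ => true) × Fin m => x.1.1.1) (DT.om d)) := by
    rw [← sum_congr rfl e4, e2]
    simp only [← mul_assoc]
    rw [had] at e1 ⊢
    exact e1
  rw [e5]
  have e6 := hC y hy
  have e7 : ∑ j, Sp (fun p => rho (f j) p) z y = Sp (fun p => rho (∏ j, f j) p) z y := by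
    unfold Sp
    rw [sum_comm]
    refine sum_congr rfl fun p hp => ?_
    have hp' := mem_filter.1 hp
    beta_reduce
    rw [rho_prod hGp hp'.2 (mem_Ioc.1 hp'.1).1, ← sum_div]
    push_cast
    rfl
  beta_reduce at e6
  rw [e7, Real.exp_add] at e6
  calc _ ≤ _ := le_abs_self _
    _ ≤ _ := e6
    _ = _ := by ring

end Pool.Agent.TH344.PW
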