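import Mathlib
import Pool.Agent.TH344.PW.Mak
import Pool.Agent.TH344.PW.Exp
import Pool.Agent.TH344.PW.Cmb
import Pool.Agent.TH841.PM.Atw
import Pool.Agent.TH841.PM.Ful
import Pool.Agent.TH841.PM.Lnk
import Pool.Agent.TH841.PT.Fin1
import Pool.Agent.TH841.PT.EPS
import Pool.Agent.TH841.PT.EFG

/-!
# PW-MK2: the main average with the weight, unconditional (job 3927)

Follows `Pool/Agent/TH344/PW/Mak.lean`, with the abstract bound `ATWX` of project PM.
-/

set_option autoImplicit false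

namespace Pool.Agent.TH344.PW

open Finset Polynomial Pool.Agent.W262.RK Pool.Agent.W307.RT Pool.Agent.W307.RS
open Pool.Agent.TH841.PT Pool.Agent.TH344.JG Pool.Agent.TH344.PJ

open Pool.Agent.H474R2.PG (rho)

theorem Mak2_atwx : Pool.Agent.TH841.PM.ATWX :=
  Pool.Agent.TH841.PM.ATWf.atwx_of blw EPSf.eps EFG.fullg Pool.Agent.TH841.PM.FULf.fulx
    Pool.Agent.TH841.PM.LNKf.lnkx

open MakB in
theorem Mak2_makb_of (h1 : S_EXPB) (h2 : S_CMBB) (h3 : Pool.Agent.TH841.PM.ATWX) : S_MAKB := by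
  classical
  intro g k J _ _ u κ cls f hg hk hP hB
  obtain ⟨A, hA1, hA2, hA3, hA4⟩ := hB
  obtain ⟨D0, hD0⟩ : ∃ D0 : ℕ, D0 = (∏ j, f j).natDegree := ⟨_, rfl⟩
  obtain ⟨m, hm⟩ : ∃ m : ℕ, m = D0 + 1 := ⟨_, rfl⟩
  have hm1 : 1 ≤ m := by omega
  have hmR : (0 : ℝ) < m := by exact_mod_cast hm1
  have hn : 3 ≤ 2 * g + 1 := by omega
  -- the graph
  obtain ⟨ad, had⟩ : ∃ ad : J → J → Bool, ad = fun j l => adj (cls j) (cls l) := ⟨_, rfl⟩
  obtain ⟨ν, hν⟩ : ∃ ν : PR (2 * g + 1) → ℕ, ν = fun c => (univ.filter (fun j => cls j = c)).card :=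
    ⟨_, rfl⟩
  have hν0 : ∀ c, (0 : ℝ) < ν c := by
    intro c
    obtain ⟨j, hj⟩ := hP.pos c
    rw [hν]
    have : 0 < (univ.filter (fun j => cls j = c)).card :=
      card_pos.2 ⟨j, mem_filter.2 ⟨mem_univ _, hj⟩⟩
    exact_mod_cast this
  have hA4' : ∀ c, ∑ c', A c c' = (ν c : ℝ) := by
    intro c
    rw [hν]
    exact hA4 c
  have hJ : Nonempty J := by
    obtain ⟨c⟩ := nonempty_PR (n := 2 * g + 1) (by omega)
    obtain ⟨j, _⟩ := hP.pos c
    exact ⟨j⟩
  have hirr : ∀ j, ad j j = false := fun j => by rw [had]; exact adj_self _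
  have hsym : ∀ j l, ad j l = ad l j := fun j l => by rw [had]; exact adj_comm _ _
  obtain ⟨T, hT1, hT2, hT3⟩ := h2 J ad
    (fun j l => A (cls j) (cls l) / ((ν (cls j) : ℝ) * (ν (cls l) : ℝ))) k m hk hm1 hirr hsym
    (fun j l => by
      beta_reduce
      rw [hA1 (cls j) (cls l), mul_comm (ν (cls j) : ℝ)])
    (fun j l hjl => by
      rw [had] at hjl
      exact div_pos (hA2 _ _ hjl) (mul_pos (hν0 _) (hν0 _)))
    (fun j l hjl => by
      rw [had] at hjl
      beta_reduce
      rw [hA3 _ _ hjl, zero_div])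
    (fun j => by
      beta_reduce
      rw [← sum_fiberwise univ cls]
      have e1 : ∀ c', ∑ l ∈ univ.filter (fun l => cls l = c'),
          A (cls j) (cls l) / ((ν (cls j) : ℝ) * (ν (cls l) : ℝ)) = A (cls j) c' / (ν (cls j) : ℝ) := by
        intro c'
        have e2 : ∀ l ∈ univ.filter (fun l => cls l = c'),
            A (cls j) (cls l) / ((ν (cls j) : ℝ) * (ν (cls l) : ℝ)) =
              A (cls j) c' / ((ν (cls j) : ℝ) * (ν c' : ℝ)) := by
          intro l hl
          rw [(mem_filter.1 hl).2]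
        rw [sum_congr rfl e2, sum_const, nsmul_eq_mul]
        have e3 : (((univ.filter (fun l => cls l = c')).card : ℕ) : ℝ) = (ν c' : ℝ) := by rw [hν]
        rw [e3]
        have e4 := hν0 c'
        have e5 := hν0 (cls j)
        field_simp
      rw [sum_congr rfl fun c' _ => e1 c', ← sum_div, hA4']
      exact div_self (hν0 _).ne')
    (fun j => by
      obtain ⟨c', c'', e1, e2, e3⟩ := adj_tri hn (cls j)
      obtain ⟨l', rfl⟩ := hP.pos c'
      obtain ⟨l'', rfl⟩ := hP.pos c''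
      rw [had]
      exact ⟨l', l'', e1, e2, e3⟩)
  refine ⟨T, hT1, hT2, ?_⟩
  intro c hc
  obtain ⟨zg, hzg⟩ := exists_GoodP hP.irr hP.ne c hc
  obtain ⟨β, hβ⟩ : ∃ β : ℝ, β = 1 / (2 ^ k * (m : ℝ)) := ⟨_, rfl⟩
  have hβ0 : 0 < β := by rw [hβ]; positivity
  obtain ⟨za, hza⟩ := h3 J (IV J k (fun _ _ => true) × Fin m) (fun x => x.1.1.1)
    (fun _ => β) (fun x y => LV ad x.1 y.1) c (Fintype.card J) T (fun _ => hβ0)
    (by
      rintro ⟨i, θ⟩
      exact LV_self hirr i) (Nat.cast_nonneg _) hT1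
    (by
      intro U hU
      rw [hβ]
      exact hT3 U hU)
  obtain ⟨zd, hzd⟩ := GDPf.gdp _ hP.irr.sqf
  choose E0 zt hE0 hzt using fun i : IV J k (fun _ _ => true) =>
    twg (f i.1.1) (hP.irr.irr _) (hP.irr.deg _) (gI u cls i) (gI_ndvd hP i)
  refine ⟨zg + zd + za + univ.sup zt, fun z hz => ⟨hzg z (by omega), ?_⟩⟩
  have hG := hzg z (by omega)
  have hGp := toGp hG
  have hGd := hzd z (by omega)
  have hzt' : ∀ i, zt i ≤ z := fun i => (le_sup (f := zt) (mem_univ i)).trans (by omega)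
  choose Ct hCt using fun i : IV J k (fun _ _ => true) => hzt i z (hzt' i)
  have hz4 := hG.four
  choose Cm hCm0 hCm using fun j : J => mert (hP.irr.irr j) (hP.irr.deg j) (z := z) (by omega)
  obtain ⟨Cs, hCs⟩ : ∃ Cs : ℝ, Cs = ∑ j, Cm j := ⟨_, rfl⟩
  have hCs' : ∀ j, Cm j ≤ Cs := fun j => by
    rw [hCs]
    exact single_le_sum (f := Cm) (fun j _ => hCm0 j) (mem_univ j)
  have hCs0 : 0 ≤ Cs := by rw [hCs]; exact sum_nonneg fun j _ => hCm0 j
  have hEs : ∀ i, E0 i ≤ ∑ i, E0 i := fun i =>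
    single_le_sum (f := E0) (fun j _ => hE0 j) (mem_univ i)
  have hCts : ∀ i, |Ct i| ≤ ∑ i, |Ct i| := fun i =>
    single_le_sum (f := fun i => |Ct i|) (fun j _ => abs_nonneg _) (mem_univ i)
  have hE0s : 0 ≤ ∑ i, E0 i := sum_nonneg fun i _ => hE0 i
  have hC0s : 0 ≤ ∑ i, |Ct i| := sum_nonneg fun i _ => abs_nonneg _
  have hll : ∀ y, z < y → 0 ≤ Real.log (Real.log y) := by
    intro y hy
    have h3 : (3 : ℝ) ≤ y := by exact_mod_cast (by omega : 3 ≤ y)
    apply Real.log_nonneg
    rw [Real.le_log_iff_exp_le (by linarith)]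
    have := Real.exp_one_lt_d9
    linarith
  have h2k : (2 : ℝ) ≤ 2 ^ k := by
    calc (2 : ℝ) = 2 ^ 1 := (pow_one _).symm
      _ ≤ 2 ^ k := pow_le_pow_right₀ (by norm_num) hk
  have hβ1 : β ≤ 1 / 2 := by
    rw [hβ]
    apply one_div_le_one_div_of_le (by norm_num)
    have : (1 : ℝ) ≤ m := by exact_mod_cast hm1
    nlinarith
  have hSb : ∀ (x : IV J k (fun _ _ => true) × Fin m) y,
      Sp (fun p => bI f z k x.1 p / m) z y = β * Sp (fun p => rho (f x.1.1.1) p) z y := by
    intro x y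
    unfold Sp
    rw [mul_sum]
    refine sum_congr rfl fun p hp => ?_
    have hp' := mem_filter.1 hp
    unfold bI
    beta_reduce
    rw [if_pos ⟨hp'.2, (mem_Ioc.1 hp'.1).1⟩, hβ]
    field_simp
  have hSl : ∀ j y, z < y → Sp (fun p => rho (f j) p) z y ≤ Real.log (Real.log y) + Cs ∧
      Real.log (Real.log y) - Cs ≤ Sp (fun p => rho (f j) p) z y := by
    intro j y hy
    have h1 := abs_le.1 (hCm j y hy)
    have h2 := hCs' j
    constructor <;> linarith [h1.1, h1.2]
  obtain ⟨C, hC⟩ := hza z (by omega)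
    (fun x p => aI u cls f z k x.1 p / m) (fun x p => bI f z k x.1 p / m)
    (∑ i, |Ct i| + Cs) (∑ i, E0 i)
    (by
      rintro ⟨i, θ⟩ p
      refine ⟨?_, ?_⟩
      · simp only
        rw [abs_div, abs_of_pos hmR]
        exact div_le_div_of_nonneg_right (aI_abs _ _ _ _ _ _ _) hmR.le
      · simp only
        unfold bI
        split_ifs with h4
        · have h5 : rho (f i.1.1) p ≤ D0 := by
            have h6 := (hGd p h4.1 h4.2).1
            rw [rho_prod hGp h4.1 h4.2, ← hD0] at h6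
            exact (single_le_sum (f := fun j => rho (f j) p) (fun _ _ => Nat.zero_le _)
              (mem_univ i.1.1)).trans h6
          have h6 : (rho (f i.1.1) p : ℝ) ≤ m := by
            have : rho (f i.1.1) p ≤ m := by omega
            exact_mod_cast this
          rw [div_div, div_le_iff₀ (by positivity)]
          nlinarith
        · rw [zero_div]
          norm_num)
    hE0s
    (by
      intro x y hy
      beta_reduce
      rw [hSb x]
      have h4 := (hSl x.1.1.1 y hy)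
      rw [abs_le]
      have h6 : β * Cs ≤ 1 * Cs := mul_le_mul_of_nonneg_right (by linarith) hCs0
      have h7 := mul_le_mul_of_nonneg_left h4.1 hβ0.le
      have h8 := mul_le_mul_of_nonneg_left h4.2 hβ0.le
      constructor <;> nlinarith)
    (by
      intro x y r e hy hr hsq hpr
      have h4 := hCt x.1 y r e hy hr hsq hpr
      have hlr := loglog_nonneg (by omega : 2 ≤ z) hr hpr
      have h5 : ∑ p ∈ PS z y, (fun p => aI u cls f z k x.1 p / m) p * (Jr p r * x4 e p) / (p : ℝ) =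
          β * ∑ p ∈ PS z y, rhoc (f x.1.1.1) (gI u cls x.1) p *
            (Jr p r * x4 e p) / (p : ℝ) := by
        rw [mul_sum]
        refine sum_congr rfl fun p hp => ?_
        have hp' := mem_filter.1 hp
        beta_reduce
        unfold aI
        rw [if_pos ⟨hp'.2, (mem_Ioc.1 hp'.1).1⟩, hβ]
        have := (Nat.Prime.pos hp'.2)
        field_simp
      beta_reduce at h5 ⊢
      rw [h5, hSb x]
      have h6 : ∑ p ∈ PS z y, rhoc (f x.1.1.1) (gI u cls x.1) p * (Jr p r * x4 e p) / (p : ℝ) ≤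
          (∑ i, E0 i) * Real.log (Real.log r) + ∑ i, |Ct i| := by
        have := mul_le_mul_of_nonneg_right (hEs x.1) hlr
        linarith [hCts x.1, le_abs_self (Ct x.1)]
      have h7 : 0 ≤ (∑ i, E0 i) * Real.log (Real.log r) + ∑ i, |Ct i| := by positivity
      have h8 : β * ∑ p ∈ PS z y, rhoc (f x.1.1.1) (gI u cls x.1) p *
            (Jr p r * x4 e p) / (p : ℝ) ≤ (∑ i, E0 i) * Real.log (Real.log r) + ∑ i, |Ct i| := by
        have h9 := mul_le_mul_of_nonneg_left h6 hβ0.le
        nlinarith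
      have h9 : 0 ≤ 1 / 2 * (β * Sp (fun p => rho (f x.1.1.1) p) z y) := by
        have := Sp_nonneg (a := fun p => (rho (f x.1.1.1) p : ℝ)) (fun p => Nat.cast_nonneg _) z y
        positivity
      linarith)
  refine ⟨|C| * Real.exp (Fintype.card J * Cs), fun y hy => ?_⟩
  have e1 := h1 J ad hirr hsym k c z y (rJ u cls f z)
    (fun d => DT.rho T (fun j => (d j).primeFactors.card)) (by omega)
  have e2 := MergeF.merge (IV J k (fun _ _ => true)) (Fin m) (fun x p => aI u cls f z k x.1 p / m) c z y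
    (fun d => Sym (LV ad) (fun _ => 1) d * DT.rho T (fun v =>
      (∏ i ∈ univ.filter (fun i : IV J k (fun _ _ => true) => i.1.1 = v), d i).primeFactors.card))
  have e3 : ∀ (i : IV J k (fun _ _ => true)), (fun p => ∑ _θ : Fin m, aI u cls f z k i p / m) =
      fun p => (rJ u cls f z (i.1.1, false) p + (if dtp i.1.2.1 i.1.2.2 = true then -1 else 1) *
        rJ u cls f z (i.1.1, true) p) / 2 ^ k := by
    intro i
    funext p
    rw [types hP hG i p, sum_const, card_univ, Fintype.card_fin, nsmul_eq_mul]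
    field_simp
  simp only [e3] at e2
  have e4 : ∀ d ∈ Tup (IV J k (fun _ _ => true) × Fin m) z y,
      (∏ x, gp (fun p => aI u cls f z k x.1 p / m) c (d x)) *
        (Sym (LV ad) (fun _ => 1) (fun i => ∏ θ, d (i, θ)) * DT.rho T (fun v =>
          (∏ i ∈ univ.filter (fun i : IV J k (fun _ _ => true) => i.1.1 = v),
            ∏ θ, d (i, θ)).primeFactors.card)) =
      (∏ x, gp (fun p => aI u cls f z k x.1 p / m) c (d x)) *
        Sym (fun x y : IV J k (fun _ _ => true) × Fin m => LV ad x.1 y.1) (fun _ => 1) d *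
        DT.rho T (DT.nn (fun x : IV J k (fun _ _ => true) × Fin m => x.1.1.1) (DT.om d)) := by
    intro d hd
    have hne := Tup_ne hd
    have hco : ∀ x x', x ≠ x' → (d x).Coprime (d x') := by
      unfold Tup at hd
      exact (mem_filter.1 hd).2
    rw [Sym_merge (LV ad) (fun _ => 1) d hne, mul_assoc]
    congr 3
    funext v
    have e5 : ∏ i ∈ univ.filter (fun i : IV J k (fun _ _ => true) => i.1.1 = v), ∏ θ, d (i, θ) =
        ∏ x ∈ univ.filter (fun x : IV J k (fun _ _ => true) × Fin m => x.1.1.1 = v), d x := by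
      have e6 : univ.filter (fun x : IV J k (fun _ _ => true) × Fin m => x.1.1.1 = v) =
          (univ.filter (fun i : IV J k (fun _ _ => true) => i.1.1 = v)) ×ˢ
            (univ : Finset (Fin m)) := by
        ext x
        simp only [mem_filter, mem_univ, true_and, mem_product, and_true]
      rw [e6, prod_product]
    rw [e5, card_prod _ _ (fun x _ => hne x) (fun x _ x' _ h => hco x x' h)]
    rfl
  have e5 : ∑ s ∈ Tup (J × Bool) z y, (NV (adJ cls) s (Eneg s) : ℝ) ^ k *
        (∏ i, gp (rJ u cls f z i) c (s i)) *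
        DT.rho T (fun j => (s (j, false) * s (j, true)).primeFactors.card) =
      ∑ d ∈ Tup (IV J k (fun _ _ => true) × Fin m) z y,
      (∏ x, gp (fun p => aI u cls f z k x.1 p / m) c (d x)) *
        Sym (fun x y : IV J k (fun _ _ => true) × Fin m => LV ad x.1 y.1) (fun _ => 1) d *
        DT.rho T (DT.nn (fun x : IV J k (fun _ _ => true) × Fin m => x.1.1.1) (DT.om d)) := by
    rw [← sum_congr rfl e4, e2]
    simp only [← mul_assoc]
    rw [had] at e1 ⊢
    exact e1
  rw [e5]
  have e6 := hC y hy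
  have e7 : ∑ j, Sp (fun p => rho (f j) p) z y = Sp (fun p => rho (∏ j, f j) p) z y := by
    unfold Sp
    rw [sum_comm]
    refine sum_congr rfl fun p hp => ?_
    have hp' := mem_filter.1 hp
    beta_reduce
    rw [rho_prod hGp hp'.2 (mem_Ioc.1 hp'.1).1, ← sum_div]
    push_cast
    rfl
  have hly : 0 < Real.log y := by
    have h3 : (3 : ℝ) ≤ y := by exact_mod_cast (by omega : 3 ≤ y)
    exact Real.log_pos (by linarith)
  have e8 : (Real.log y) ^ ((Fintype.card J : ℕ) : ℝ) ≤
      Real.exp (Sp (fun p => rho (∏ j, f j) p) z y) * Real.exp (Fintype.card J * Cs) := by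
    rw [← e7, ← Real.exp_add, Real.rpow_def_of_pos hly]
    apply Real.exp_le_exp.2
    have h3 : ∑ j : J, (Real.log (Real.log y) - Cs) ≤ ∑ j, Sp (fun p => rho (f j) p) z y :=
      sum_le_sum fun j _ => (hSl j y hy).2
    rw [sum_const, nsmul_eq_mul, card_univ] at h3
    nlinarith
  calc _ ≤ _ := le_abs_self _
    _ ≤ C * (Real.log y) ^ ((Fintype.card J : ℕ) : ℝ) := e6
    _ ≤ |C| * (Real.log y) ^ ((Fintype.card J : ℕ) : ℝ) :=
        mul_le_mul_of_nonneg_right (le_abs_self C) (Real.rpow_nonneg hly.le _)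
    _ ≤ |C| * (Real.exp (Sp (fun p => rho (∏ j, f j) p) z y) * Real.exp (Fintype.card J * Cs)) :=
        mul_le_mul_of_nonneg_left e8 (abs_nonneg _)
    _ = _ := by ring

theorem makb : S_MAKB := Mak2_makb_of expb cmbb Mak2_atwx

end Pool.Agent.TH344.PW
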