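import Pool.Agent.TH344.PW.Stm
import Pool.Agent.TH344.JG.Loc
import Pool.Agent.TH344.JG.Sel
import Pool.Agent.TH841.PT.Prt
import Pool.Agent.TH841.PT.SelX

/-!
# Project PW: the Selmer bound for the family
(job PW-RNK of helper344, written by helper367)
-/

set_option autoImplicit false

namespace Pool.Agent.TH344.PW

open Finset Polynomial Pool.Agent.W262.RK Pool.Agent.W307.RT Pool.Agent.W307.RS
open Pool.Agent.TH841.PT Pool.Agent.TH344.JG Pool.Agent.TH344.PJ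

namespace Rnk

set_option linter.unusedSectionVars false

section parts

variable {J : Type} [Fintype J] [DecidableEq J] {n : ℕ}
variable {u : Fin n → ℤ[X]} {cls : J → PR n} {f : J → ℤ[X]} {z : ℕ} {t : ℤ}

theorem pr_powR (h0 : ∀ j, (f j).eval t ≠ 0) (i : J × Bool) {p : ℕ} (hp : p.Prime) (hz : z < p)
    {k : ℕ} (hk : k ≠ 0) : (p : ℤ) ^ k ∣ prJ u cls f z t i ↔
      (p : ℤ) ^ k ∣ (f i.1).eval t ∧ tyJ u cls p t i.1 = i.2 := by
  have h1 : ∀ x : ℤ, (p : ℤ) ^ k ∣ x ↔ p ^ k ∣ x.natAbs := by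
    intro x
    rw [← Int.natCast_dvd]
    push_cast
    rfl
  unfold prJ
  rw [h1, h1, Int.natAbs_natCast]
  by_cases hty : tyJ u cls p t i.1 = i.2
  · rw [partN_pow (Int.natAbs_ne_zero.2 (h0 _)) hp ⟨hz, hty⟩]
    simp [hty]
  · constructor
    · intro h2
      exact absurd (partN_of hp ((dvd_pow_self p hk).trans h2)).2 hty
    · intro h2
      exact absurd h2.2 hty

theorem pr_dvdR (h0 : ∀ j, (f j).eval t ≠ 0) (i : J × Bool) {p : ℕ} (hp : p.Prime) (hz : z < p) :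
    (p : ℤ) ∣ prJ u cls f z t i ↔ (p : ℤ) ∣ (f i.1).eval t ∧ tyJ u cls p t i.1 = i.2 := by
  have := pr_powR (u := u) (cls := cls) h0 i hp hz one_ne_zero
  rwa [pow_one] at this

theorem s1_dvdR {K : Type} {y : ℕ} {v : K → ℤ} {p : ℕ} (hp : p.Prime) {j : K} :
    p ∣ S1 z y v j ↔ (z < p ∧ p ≤ y) ∧ (p : ℤ) ∣ v j ∧ ¬ (p : ℤ) ^ 2 ∣ v j := by
  unfold S1
  constructor
  · intro h
    obtain ⟨q, hq, hpq⟩ := (hp.prime.dvd_finsetProd_iff _).1 h
    have hq' := mem_filter.1 hq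
    have h1 := mem_PS'.1 hq'.1
    have h2 := (Nat.prime_dvd_prime_iff_eq hp h1.2).1 hpq
    rw [h2]
    exact ⟨h1.1, hq'.2⟩
  · rintro ⟨h1, h2⟩
    exact dvd_prod_of_mem (fun q => q) (mem_filter.2 ⟨mem_PS'.2 ⟨h1, hp⟩, h2⟩)

theorem s2_dvdR {K : Type} {y : ℕ} {v : K → ℤ} {p : ℕ} (hp : p.Prime) {j : K} :
    p ∣ S2 z y v j ↔ (z < p ∧ p ≤ y) ∧ (p : ℤ) ^ 2 ∣ v j := by
  unfold S2
  constructor
  · intro h
    obtain ⟨q, hq, hpq⟩ := (hp.prime.dvd_finsetProd_iff _).1 h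
    have hq' := mem_filter.1 hq
    have h1 := mem_PS'.1 hq'.1
    have h2 := (Nat.prime_dvd_prime_iff_eq hp h1.2).1 hpq
    rw [h2]
    exact ⟨h1.1, hq'.2⟩
  · rintro ⟨h1, h2⟩
    exact dvd_prod_of_mem (fun q => q) (mem_filter.2 ⟨mem_PS'.2 ⟨h1, hp⟩, h2⟩)

theorem s1_neR {K : Type} {y : ℕ} {v : K → ℤ} (j : K) : S1 z y v j ≠ 0 := by
  unfold S1
  exact prod_ne_zero_iff.2 fun q hq => (mem_PS'.1 (mem_filter.1 hq).1).2.ne_zero

theorem s2_neR {K : Type} {y : ℕ} {v : K → ℤ} (j : K) : S2 z y v j ≠ 0 := by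
  unfold S2
  exact prod_ne_zero_iff.2 fun q hq => (mem_PS'.1 (mem_filter.1 hq).1).2.ne_zero

theorem s1_iffR (h0 : ∀ j, (f j).eval t ≠ 0) (y : ℕ) (i : J × Bool) {p : ℕ} (hp : p.Prime) :
    p ∣ S1 z y (prJ u cls f z t) i ↔ ((z < p ∧ p ≤ y) ∧ (p : ℤ) ∣ (f i.1).eval t ∧
      ¬ (p : ℤ) ^ 2 ∣ (f i.1).eval t) ∧ tyJ u cls p t i.1 = i.2 := by
  rw [s1_dvdR hp]
  constructor
  · rintro ⟨h1, h2, h3⟩
    rw [pr_dvdR h0 _ hp h1.1] at h2
    rw [pr_powR h0 _ hp h1.1 two_ne_zero] at h3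
    exact ⟨⟨h1, h2.1, fun h5 => h3 ⟨h5, h2.2⟩⟩, h2.2⟩
  · rintro ⟨⟨h1, h2, h3⟩, h5⟩
    rw [pr_dvdR h0 _ hp h1.1, pr_powR h0 _ hp h1.1 two_ne_zero]
    exact ⟨h1, ⟨h2, h5⟩, fun h6 => h3 h6.1⟩

theorem S1_prodR (h0 : ∀ j, (f j).eval t ≠ 0) (y : ℕ) (j : J) :
    ∏ b : Bool, S1 z y (prJ u cls f z t) (j, b) = S1 z y (fun l => (f l).eval t) j := by
  unfold S1
  rw [← prod_fiberwise (s := (PS z y).filter (fun p : ℕ => (p : ℤ) ∣ (f j).eval t ∧
    ¬ (p : ℤ) ^ 2 ∣ (f j).eval t)) (g := fun p => tyJ u cls p t j)]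
  refine prod_congr rfl fun θ _ => ?_
  refine prod_congr ?_ fun _ _ => rfl
  ext p
  rw [mem_filter, mem_filter, mem_filter]
  constructor
  · rintro ⟨h1, h2, h3⟩
    have h4 := mem_PS'.1 h1
    rw [pr_dvdR h0 _ h4.2 h4.1.1] at h2
    rw [pr_powR h0 _ h4.2 h4.1.1 two_ne_zero] at h3
    exact ⟨⟨h1, h2.1, fun h5 => h3 ⟨h5, h2.2⟩⟩, h2.2⟩
  · rintro ⟨⟨h1, h2, h3⟩, h5⟩
    have h4 := mem_PS'.1 h1
    rw [pr_dvdR h0 _ h4.2 h4.1.1, pr_powR h0 _ h4.2 h4.1.1 two_ne_zero]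
    exact ⟨h1, ⟨h2, h5⟩, fun h6 => h3 h6.1⟩

theorem S2_cardR (h0 : ∀ j, (f j).eval t ≠ 0) (y : ℕ) :
    ∑ j, (S2 z y (fun l => (f l).eval t) j).primeFactors.card =
      ∑ i, (S2 z y (prJ u cls f z t) i).primeFactors.card := by
  rw [Fintype.sum_prod_type]
  refine sum_congr rfl fun j _ => ?_
  have h3 : (S2 z y (fun l => (f l).eval t) j).primeFactors =
      univ.biUnion (fun b : Bool => (S2 z y (prJ u cls f z t) (j, b)).primeFactors) := by
    ext p
    rw [mem_biUnion, Nat.mem_primeFactors]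
    constructor
    · rintro ⟨h1, h2, _⟩
      have h4 := (s2_dvdR h1).1 h2
      refine ⟨tyJ u cls p t j, mem_univ _, Nat.mem_primeFactors.2 ⟨h1, ?_, s2_neR _⟩⟩
      rw [s2_dvdR h1, pr_powR h0 _ h1 h4.1.1 two_ne_zero]
      exact ⟨h4.1, h4.2, rfl⟩
    · rintro ⟨b, _, h1⟩
      have h2 := Nat.mem_primeFactors.1 h1
      refine ⟨h2.1, ?_, s2_neR _⟩
      have h4 := (s2_dvdR h2.1).1 h2.2.1
      rw [pr_powR h0 _ h2.1 h4.1.1 two_ne_zero] at h4
      rw [s2_dvdR h2.1]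
      exact ⟨h4.1, h4.2.1⟩
  rw [h3, card_biUnion]
  intro b _ b' _ hb
  rw [Function.onFun, disjoint_left]
  intro p hp hp'
  have hpp := Nat.prime_of_mem_primeFactors hp
  have k1 := (s2_dvdR hpp).1 (Nat.dvd_of_mem_primeFactors hp)
  have k2 := (s2_dvdR hpp).1 (Nat.dvd_of_mem_primeFactors hp')
  rw [pr_powR h0 _ hpp k1.1.1 two_ne_zero] at k1 k2
  exact hb (k1.2.2.symm.trans k2.2.2)

end parts

theorem prod_clsR {V V' : Type} [Fintype V] [DecidableEq V] [Fintype V'] (π : V' → V)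
    (s : V → ℕ) (s' : V' → ℕ) (hs : ∀ c, s c = ∏ i ∈ univ.filter (fun i => π i = c), s' i) :
    ∏ c, s c = ∏ i, s' i := by
  rw [prod_congr rfl (fun c _ => hs c)]
  exact prod_fiberwise univ π s'

/-- the local counts of the classes and of the single polynomials agree -/
theorem nv_eqR {V V' : Type} [Fintype V] [DecidableEq V] [Fintype V'] [DecidableEq V']
    (ad : V → V → Bool) (ad' : V' → V' → Bool) (s : V → ℕ) (s' : V' → ℕ) (E E' : Finset ℕ)
    (π : V' → V) (hs : ∀ c, s c = ∏ i ∈ univ.filter (fun i => π i = c), s' i)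
    (had : ∀ i i', ad' i i' = ad (π i) (π i')) (hne : ∀ i, s' i ≠ 0)
    (hE : ∀ i, ∀ p ∈ (s' i).primeFactors, (p ∈ E ↔ p ∈ E')) : NV ad s E = NV ad' s' E' := by
  classical
  have hm : ∏ c, s c = ∏ i, s' i := by
    rw [prod_congr rfl (fun c _ => hs c)]
    exact prod_fiberwise univ π s'
  have hsne : ∀ c, s c ≠ 0 := by
    intro c
    rw [hs c]
    exact prod_ne_zero_iff.2 fun i _ => hne i
  have hdv : ∀ q : ℕ, q.Prime → ∀ c, (q ∣ s c ↔ ∃ i, π i = c ∧ q ∣ s' i) := by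
    intro q hq c
    rw [hs c, hq.prime.dvd_finsetProd_iff]
    constructor
    · rintro ⟨i, hi, hi2⟩
      exact ⟨i, (mem_filter.1 hi).2, hi2⟩
    · rintro ⟨i, hi, hi2⟩
      exact ⟨i, mem_filter.2 ⟨mem_univ _, hi⟩, hi2⟩
  rw [SelPf.NV_eq, SelPf.NV_eq, hm]
  congr 1
  apply Finset.filter_congr
  intro w hw
  have hwp : ∀ q ∈ w, q.Prime := fun q hq =>
    Nat.prime_of_mem_primeFactors (mem_powerset.1 hw hq)
  have hfil : ∀ i, w.filter (fun q => ∃ c', ad (π i) c' = true ∧ q ∣ s c') =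
      w.filter (fun q => ∃ i', ad' i i' = true ∧ q ∣ s' i') := by
    intro i
    apply Finset.filter_congr
    intro q hq
    constructor
    · rintro ⟨c', h1, h2⟩
      obtain ⟨i', rfl, h3⟩ := (hdv q (hwp q hq) c').1 h2
      exact ⟨i', by rw [had]; exact h1, h3⟩
    · rintro ⟨i', h1, h2⟩
      exact ⟨π i', by rw [← had]; exact h1, (hdv q (hwp q hq) _).2 ⟨i', rfl, h2⟩⟩
  constructor
  · intro h i p hp
    have hpp := Nat.prime_of_mem_primeFactors hp
    have h1 := h (π i) p (Nat.mem_primeFactors.2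
      ⟨hpp, (hdv p hpp _).2 ⟨i, rfl, Nat.dvd_of_mem_primeFactors hp⟩, hsne _⟩)
    rw [hfil i] at h1
    rw [h1]
    simp only [hE i p hp]
  · intro h c p hp
    have hpp := Nat.prime_of_mem_primeFactors hp
    obtain ⟨i, rfl, hi⟩ := (hdv p hpp c).1 (Nat.dvd_of_mem_primeFactors hp)
    have hpi : p ∈ (s' i).primeFactors := Nat.mem_primeFactors.2 ⟨hpp, hi, hne i⟩
    have h1 := h i p hpi
    rw [hfil i, h1]
    simp only [hE i p hpi]

/-- the number of the large prime factors -/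
theorem large_cardR {x : ℤ} {y X K B : ℕ} (hx : x ≠ 0) (hy : 1 ≤ y) (hb : x.natAbs ≤ X ^ B)
    (hK : X < (y + 1) ^ K) : (x.natAbs.primeFactors.filter (y < ·)).card ≤ B * K := by
  set S := x.natAbs.primeFactors.filter (y < ·) with hS
  have h1 : (y + 1) ^ S.card ≤ ∏ q ∈ S, q :=
    Finset.pow_card_le_prod _ _ _ (fun q hq => by
      have := (mem_filter.1 hq).2
      omega)
  have h2 : ∏ q ∈ S, q ∣ x.natAbs :=
    (prod_dvd_prod_of_subset _ _ _ (filter_subset _ _)).trans (Nat.prod_primeFactors_dvd _)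
  have h3 : ∏ q ∈ S, q ≤ x.natAbs :=
    Nat.le_of_dvd (Nat.pos_of_ne_zero (Int.natAbs_ne_zero.2 hx)) h2
  have h4 : (y + 1) ^ S.card ≤ (y + 1) ^ (B * K) := by
    calc (y + 1) ^ S.card ≤ X ^ B := h1.trans (h3.trans hb)
      _ ≤ ((y + 1) ^ K) ^ B := Nat.pow_le_pow_left hK.le B
      _ = (y + 1) ^ (B * K) := by rw [← pow_mul, mul_comm]
  exact (Nat.pow_le_pow_iff_right (by omega)).1 h4

section main

variable {J : Type} [Fintype J] [DecidableEq J] {n : ℕ}
variable {u : Fin n → ℤ[X]} {κ : PR n → ℤ} {cls : J → PR n} {f : J → ℤ[X]} {z c : ℕ} {t : ℤ}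

/-- the factorisations of the differences -/
structure PenC (u : Fin n → ℤ[X]) (κ : PR n → ℤ) (cls : J → PR n) (f : J → ℤ[X]) : Prop where
  ne : ∀ c, κ c ≠ 0
  fac : ∀ c : PR n, u c.1.1 - u c.1.2 = C (κ c) * ∏ j ∈ univ.filter (fun j => cls j = c), f j

theorem df_eqR (hP : PenC u κ cls f) (t : ℤ) (c : PR n) : df (fun i => (u i).eval t) c =
    κ c * ∏ j ∈ univ.filter (fun j => cls j = c), (f j).eval t := by
  have := congrArg (Polynomial.eval t) (hP.fac c)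
  rw [eval_sub, eval_mul, eval_C, eval_prod] at this
  exact this

theorem sJ_eqR (u : Fin n → ℤ[X]) (t : ℤ) (c : PR n) :
    sJ (fun i => (u i).eval t) c = (sP u c).eval t := by
  unfold sJ sP
  rw [eval_prod]
  refine prod_congr rfl fun l _ => ?_
  rw [eval_sub]

theorem df_neR (hP : PenC u κ cls f) (h0 : ∀ j, (f j).eval t ≠ 0) (c : PR n) :
    df (fun i => (u i).eval t) c ≠ 0 := by
  rw [df_eqR hP]
  exact mul_ne_zero (hP.ne c) (prod_ne_zero_iff.2 fun l _ => h0 l)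

theorem injR (hP : PenC u κ cls f) (h0 : ∀ j, (f j).eval t ≠ 0) :
    Function.Injective (fun i => (u i).eval t) := by
  intro i j hij
  by_contra hne
  rcases lt_or_gt_of_ne hne with h | h
  · exact df_neR hP h0 ⟨(i, j), h⟩ (sub_eq_zero.2 hij)
  · exact df_neR hP h0 ⟨(j, i), h⟩ (sub_eq_zero.2 hij.symm)

/-- the primes of a class divide one difference, exactly once -/
theorem niceR (hP : PenC u κ cls f) (hG : GoodP κ f z c) {p : ℕ} (hp : p.Prime) (hz : z < p)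
    {j : J} (h1 : (p : ℤ) ∣ (f j).eval t) (h2 : ¬ (p : ℤ) ^ 2 ∣ (f j).eval t) :
    (p : ℤ) ∣ df (fun i => (u i).eval t) (cls j) ∧
      ¬ (p : ℤ) ^ 2 ∣ df (fun i => (u i).eval t) (cls j) := by
  classical
  have hpi : Prime (p : ℤ) := Nat.prime_iff_prime_int.1 hp
  have hj : j ∈ univ.filter (fun l => cls l = cls j) := mem_filter.2 ⟨mem_univ _, rfl⟩
  rw [df_eqR hP, ← mul_prod_erase _ _ hj]
  have e : κ (cls j) * ((f j).eval t *
      ∏ l ∈ (univ.filter (fun l => cls l = cls j)).erase j, (f l).eval t) = (f j).eval t *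
      (κ (cls j) * ∏ l ∈ (univ.filter (fun l => cls l = cls j)).erase j, (f l).eval t) := by ring
  rw [e]
  refine ⟨h1.mul_right _, fun h => h2 ?_⟩
  refine IsCoprime.dvd_of_dvd_mul_right ?_ h
  refine IsCoprime.pow_left ((Prime.coprime_iff_not_dvd hpi).2 fun h3 => ?_)
  rcases hpi.dvd_or_dvd h3 with h4 | h4
  · exact hG.const p hp hz _ h4
  · obtain ⟨l, hl, hl2⟩ := (hpi.dvd_finsetProd_iff _).1 h4
    exact hG.pair p hp hz j l (ne_of_mem_erase hl).symm t ⟨h1, hl2⟩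

theorem cls_ofR (hP : PenC u κ cls f) (hG : GoodP κ f z c) {p : ℕ} (hp : p.Prime) (hz : z < p)
    {j : J} (h1 : (p : ℤ) ∣ (f j).eval t) {c' : PR n}
    (h2 : (p : ℤ) ∣ df (fun i => (u i).eval t) c') : c' = cls j := by
  have hpi : Prime (p : ℤ) := Nat.prime_iff_prime_int.1 hp
  rw [df_eqR hP] at h2
  rcases hpi.dvd_or_dvd h2 with h4 | h4
  · exact absurd h4 (hG.const p hp hz _)
  · obtain ⟨l, hl, hl2⟩ := (hpi.dvd_finsetProd_iff _).1 h4
    by_cases hjl : j = l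
    · rw [hjl]
      exact (mem_filter.1 hl).2.symm
    · exact absurd ⟨h1, hl2⟩ (hG.pair p hp hz j l hjl t)

end main

open Pool.Agent.TH841.PT in
set_option maxHeartbeats 400000 in
/-- the bound for the family -/
theorem core (g : ℕ) (J : Type) [Fintype J] [DecidableEq J]
    (u : Fin (2 * g + 1) → ℤ[X]) (κ : PR (2 * g + 1) → ℤ) (cls : J → PR (2 * g + 1))
    (f : J → ℤ[X]) (z c : ℕ) (hP : PenC u κ cls f) (hGP : GoodP κ f z c) :
    ∃ C0 : ℝ, 0 ≤ C0 ∧ ∀ (y X k B : ℕ) (t : ℤ), (∀ j, (f j).eval t ≠ 0) →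
    (∀ j, ((f j).eval t).natAbs ≤ X ^ B) → 1 ≤ X → 1 ≤ y → X < (y + 1) ^ k →
    (SelJ (fun i => (u i).eval t)).Finite ∧
    ((SelJ (fun i => (u i).eval t)).ncard : ℝ) ≤
      C0 * ((2 ^ (2 * g + 1)) ^ (B * Fintype.card J)) ^ k *
        (∏ i, ((2 : ℝ) ^ (2 * g + 1)) ^ (S2 z y (prJ u cls f z t) i).primeFactors.card) *
        (NV (adJ cls) (S1 z y (prJ u cls f z t)) (Eneg (S1 z y (prJ u cls f z t))) : ℝ) := by
  classical
  refine ⟨((2 : ℝ) ^ (2 * g + 1)) ^ (1 + z), by positivity,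
    fun y X k B t h0 hB hX hy hk => ?_⟩
  have hG : Gd z (fun l => (f l).eval t) :=
    ⟨h0, fun p hp hz j l hjl => hGP.pair p hp hz j l hjl t⟩
  have hz4 := hGP.four
  -- the parts
  obtain ⟨S, hS⟩ : ∃ S : J → ℕ, S = S1 z y (fun l => (f l).eval t) := ⟨_, rfl⟩
  obtain ⟨s, hs⟩ : ∃ s : J × Bool → ℕ, s = S1 z y (prJ u cls f z t) := ⟨_, rfl⟩
  obtain ⟨s', hs'⟩ : ∃ s' : PR (2 * g + 1) → ℕ,
      ∀ c, s' c = ∏ j ∈ univ.filter (fun j => cls j = c), S j := ⟨fun c => _, fun c => rfl⟩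
  have hSs : ∀ j, ∏ b : Bool, s (j, b) = S j := by
    intro j
    rw [hs, hS]
    exact S1_prodR h0 y j
  have hm1 : ∏ c, s' c = ∏ j, S j := prod_clsR cls s' S hs'
  have hdv' : ∀ q : ℕ, q.Prime → ∀ c, q ∣ s' c → ∃ j, cls j = c ∧ q ∣ S j := by
    intro q hq c h
    rw [hs' c, hq.prime.dvd_finsetProd_iff] at h
    obtain ⟨i, hi, hi2⟩ := h
    exact ⟨i, (mem_filter.1 hi).2, hi2⟩
  have hSd : ∀ q : ℕ, q.Prime → ∀ j, q ∣ S j ↔ (z < q ∧ q ≤ y) ∧ (q : ℤ) ∣ (f j).eval t ∧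
      ¬ (q : ℤ) ^ 2 ∣ (f j).eval t := by
    intro q hq j
    rw [hS]
    exact s1_dvdR hq
  have hPP : ∏ j, S j ∣ PP z y := by
    rw [hS]
    exact Pool.Agent.W262.RK.Tup_prod_dvd (SelXf.s1_tup hG)
  have hsel := selj_of goodj nicej (2 * g + 1) (fun i => (u i).eval t) s' ⟨g, rfl⟩ (injR hP h0)
    (fun c => by
      refine (PP_squarefree z y).squarefree_of_dvd (dvd_trans ?_ hPP)
      rw [← hm1]
      exact dvd_prod_of_mem _ (mem_univ c))
    (fun c p hp hpc => by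
      obtain ⟨j, rfl, hj⟩ := hdv' p hp c hpc
      obtain ⟨k1, k2, k3⟩ := (hSd p hp j).1 hj
      have k4 := niceR hP hGP hp k1.1 k2 k3
      refine ⟨by omega, k4.1, k4.2, fun c' hc' h => hc' (cls_ofR hP hGP hp k1.1 k2 h)⟩)
  refine ⟨hsel.1, ?_⟩
  -- the bad primes
  have hbad : ((2 * ∏ c : PR (2 * g + 1), (df (fun i => (u i).eval t) c).natAbs).primeFactors.filter
      (fun q => ¬ q ∣ ∏ c, s' c)).card ≤ z + Fintype.card J * (B * k) +
      ∑ i, (S2 z y (prJ u cls f z t) i).primeFactors.card := by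
    have hsub : ((2 * ∏ c : PR (2 * g + 1),
        (df (fun i => (u i).eval t) c).natAbs).primeFactors.filter (fun q => ¬ q ∣ ∏ c, s' c)) ⊆
        ((Icc 1 z) ∪ univ.biUnion (fun j => ((f j).eval t).natAbs.primeFactors.filter (y < ·))) ∪
          univ.biUnion (fun j => (S2 z y (fun l => (f l).eval t) j).primeFactors) := by
      intro q hq
      rw [mem_filter] at hq
      have hp := Nat.prime_of_mem_primeFactors hq.1
      have hdv := Nat.dvd_of_mem_primeFactors hq.1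
      rw [mem_union, mem_union, mem_Icc]
      rcases Nat.lt_or_ge z q with h | h
      swap
      · exact Or.inl (Or.inl ⟨hp.one_lt.le, h⟩)
      · have hqi : Prime (q : ℤ) := Nat.prime_iff_prime_int.1 hp
        have hk : ∃ c : PR (2 * g + 1), (q : ℤ) ∣ df (fun i => (u i).eval t) c := by
          rcases (Nat.Prime.dvd_mul hp).1 hdv with h1 | h1
          · exfalso
            have h5 := Nat.le_of_dvd (by norm_num) h1
            omega
          · obtain ⟨c, _, hc⟩ := (hp.prime.dvd_finsetProd_iff _).1 h1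
            exact ⟨c, Int.natCast_dvd.2 hc⟩
        obtain ⟨c', hk⟩ := hk
        rw [df_eqR hP] at hk
        rcases hqi.dvd_or_dvd hk with h1 | h1
        · exact absurd h1 (hGP.const q hp h c')
        · obtain ⟨l, _, hl⟩ := (hqi.dvd_finsetProd_iff _).1 h1
          rcases Nat.lt_or_ge y q with hyq | hyq
          · left
            right
            rw [mem_biUnion]
            refine ⟨l, mem_univ _, ?_⟩
            rw [mem_filter, Nat.mem_primeFactors]
            exact ⟨⟨hp, Int.natCast_dvd.1 hl, Int.natAbs_ne_zero.2 (h0 l)⟩, hyq⟩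
          · right
            rw [mem_biUnion]
            refine ⟨l, mem_univ _, ?_⟩
            have hsq : (q : ℤ) ^ 2 ∣ (f l).eval t := by
              by_contra hcon
              apply hq.2
              rw [hm1]
              exact ((hSd q hp l).2 ⟨⟨h, hyq⟩, hl, hcon⟩).trans (dvd_prod_of_mem _ (mem_univ l))
            exact Nat.mem_primeFactors.2 ⟨hp, (s2_dvdR hp).2 ⟨⟨h, hyq⟩, hsq⟩, s2_neR _⟩
    rw [← S2_cardR h0 y]
    refine (card_le_card hsub).trans ((card_union_le _ _).trans (add_le_add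
      ((card_union_le _ _).trans (add_le_add ?_ ?_)) card_biUnion_le))
    · simp
    · refine card_biUnion_le.trans ?_
      refine (sum_le_sum fun j _ => large_cardR (h0 j) hy (hB j) hk).trans ?_
      rw [sum_const, card_univ, smul_eq_mul]
  -- the counts
  have hNV : NV adj s' (sgJ (fun i => (u i).eval t) (∏ c, s' c)) = NV (adJ cls) s (Eneg s) := by
    refine nv_eqR adj (adJ cls) s' s _ _ (fun i => cls i.1) (fun c => ?_) (fun i i' => rfl)
      (fun i => ?_) (fun i p hp => ?_)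
    · rw [hs' c, prod_filter, prod_filter, Fintype.prod_prod_type]
      refine prod_congr rfl fun j _ => ?_
      by_cases h : cls j = c
      · simp only [h, if_true]
        exact (hSs j).symm
      · simp [h]
    · rw [hs]
      exact s1_neR i
    · have hpp := Nat.prime_of_mem_primeFactors hp
      have hd := Nat.dvd_of_mem_primeFactors hp
      have hd' := hd
      rw [hs, s1_iffR h0 y i hpp] at hd'
      obtain ⟨⟨k1, k2, k3⟩, k4⟩ := hd'
      have hmem : p ∈ (∏ c, s' c).primeFactors := by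
        refine Nat.mem_primeFactors.2 ⟨hpp, ?_, ?_⟩
        · rw [hm1]
          exact ((hSd p hpp i.1).2 ⟨k1, k2, k3⟩).trans (dvd_prod_of_mem _ (mem_univ _))
        · rw [hm1]
          refine prod_ne_zero_iff.2 fun j _ => ?_
          rw [hS]
          exact s1_neR j
      have e1 : p ∈ sgJ (fun i => (u i).eval t) (∏ c, s' c) ↔ tyJ u cls p t i.1 = true := by
        unfold sgJ tyJ
        rw [mem_filter, decide_eq_true_iff]
        constructor
        · rintro ⟨_, c', h5, h6⟩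
          rw [cls_ofR hP hGP hpp k1.1 k2 h5, sJ_eqR] at h6
          exact h6
        · intro h5
          refine ⟨hmem, cls i.1, (niceR hP hGP hpp k1.1 k2 k3).1, ?_⟩
          rw [sJ_eqR]
          exact h5
      have e2 : p ∈ Eneg s ↔ i.2 = true := by
        unfold Eneg
        rw [Nat.mem_primeFactors]
        constructor
        · rintro ⟨_, h5, _⟩
          obtain ⟨j, _, hj⟩ := (hpp.prime.dvd_finsetProd_iff _).1 h5
          rw [hs, s1_iffR h0 y _ hpp] at hj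
          have hji : j = i.1 := by
            by_contra hne
            exact hGP.pair p hpp k1.1 j i.1 hne t ⟨hj.1.2.1, k2⟩
          rw [← k4, ← hji]
          exact hj.2
        · intro h5
          refine ⟨hpp, ?_, ?_⟩
          · have h6 : s i ∣ ∏ j, s (j, true) := by
              have h7 : i = (i.1, true) := Prod.ext rfl h5
              rw [h7]
              exact dvd_prod_of_mem (fun j => s (j, true)) (mem_univ i.1)
            exact hd.trans h6
          · refine prod_ne_zero_iff.2 fun j _ => ?_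
            rw [hs]
            exact s1_neR _
      rw [e1, e2, k4]
  rw [hNV] at hsel
  rw [← hs]
  have h3 : ((SelJ (fun i => (u i).eval t)).ncard : ℝ) ≤ _ := Nat.cast_le.2 hsel.2
  refine h3.trans ?_
  push_cast
  refine mul_le_mul_of_nonneg_right ?_ (Nat.cast_nonneg _)
  have h4 : (1 : ℝ) ≤ 2 ^ (2 * g + 1) := one_le_pow₀ (by norm_num)
  refine (pow_le_pow_right₀ h4 (Nat.add_le_add_left hbad 1)).trans (le_of_eq ?_)
  obtain ⟨b, hb⟩ : ∃ b : ℝ, b = 2 ^ (2 * g + 1) := ⟨_, rfl⟩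
  rw [← hb, prod_pow_eq_pow_sum, ← pow_mul, ← pow_add, ← pow_add]
  congr 1
  ring

end Rnk

/-- PW-RNK -/
theorem rnkb : S_RNKB := fun g J _ _ u κ cls f z c _ hP hGP =>
  Rnk.core g J u κ cls f z c ⟨hP.ne, hP.fac⟩ hGP

/-- PJ-RNK -/
theorem rnkj_pw : S_RNKJ := fun g _ J _ _ u κ cls f z c _ hP hGP =>
  Rnk.core g J u κ cls f z c ⟨hP.ne, hP.fac⟩ hGP

end Pool.Agent.TH344.PW
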