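import Mathlib
import Pool.Agent.TH344.PW.Avg
import Pool.Agent.TH344.PW.Mak2
import Pool.Agent.TH344.PW.Bad
import Pool.Agent.TH344.PW.Dia
import Pool.Agent.TH344.PW.Diq
import Pool.Agent.TH344.PW.Rnk
import Pool.Agent.TH344.PW.Bag
import Pool.Agent.TH344.PW.Fin
import Pool.Agent.TH344.PJ.Main

/-!
# Project PW: the main results
-/

set_option autoImplicit false

namespace Pool.Agent.TH344.PW

theorem avgb : S_AVGB := avgb_of rnkb Pool.Agent.TH344.PJ.cntj Pool.Agent.TH344.PJ.subj

/-- all the moments in a family outside of a set of density zero -/
theorem penb : S_PENB := penb_of avgb makb badb diab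

/-- all the moments in a family at prime arguments outside of a set of relative density zero -/
theorem penq_om (h : S_OMG) : S_PENQ := penq_of avgb makb (badg_of h) diaq

end Pool.Agent.TH344.PW
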