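import Mathlib
import Pool.Agent.TH344.PW.Main
import Pool.Agent.TH344.PJ.Fin

/-!
# Project PW: the main results, intrinsic form
-/

set_option autoImplicit false

namespace Pool.Agent.TH344.PW

open Finset Polynomial Pool.Agent.TH841.PT Pool.Agent.TH344.JG Pool.Agent.TH344.PJ

open Classical in
/-- **all the moments of the 2-Selmer groups in a family, at prime arguments** -/
theorem gen_prime (hO : S_PENQ) (g : ℕ) (hg : 1 ≤ g)
    (u : Fin (2 * g + 1) → ℤ[X]) (hu : Gen u)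
    (hpos : ∀ c : PR (2 * g + 1), nf (u c.1.1 - u c.1.2) ≠ 0)
    (hbal : Bal (2 * g + 1) (fun c => nf (u c.1.1 - u c.1.2)))
    {r : ℕ} {G : Fin r → ℤ[X]} (hG : Irr G)
    (hGu : ∀ l i j, i < j → IsCoprime ((G l).map (Int.castRingHom ℚ))
      ((u i - u j).map (Int.castRingHom ℚ))) :
    ∃ Z : Set ℤ, (∀ t, t ∉ Z → NDeg u t) ∧
      (∀ (L : ℕ) (ε : ℝ), 0 < ε → ∃ M0 : ℕ, ∀ (N : ℤ) (M : ℕ), M0 ≤ M → |N| ≤ (M : ℤ) ^ L →
        (((Ioc N (N + M)).filter (fun t => AllPr G t ∧ t ∈ Z)).card : ℝ) ≤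
          ε * (M / (Real.log M) ^ r)) ∧
      ∀ k L : ℕ, ∃ C : ℝ, ∀ (N : ℤ) (M : ℕ), 2 ≤ M → |N| ≤ (M : ℤ) ^ L →
        ∑ t ∈ (Ioc N (N + M)).filter (fun t => AllPr G t ∧ t ∉ Z),
          ((SelJ (fun i => (u i).eval t)).ncard : ℝ) ^ k ≤ C * (M / (Real.log M) ^ r) := by
  obtain ⟨J, iJ, iJ', κ, cls, f, hf, hκ, hfac, hcard⟩ := exists_data u hu
  have hPen : PenB u κ cls f := by
    refine ⟨hf, hκ, fun c => ?_, hfac⟩
    have h1 := hpos c
    rw [← hcard c, Ne, card_eq_zero] at h1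
    obtain ⟨j, hj⟩ := nonempty_iff_ne_empty.2 h1
    exact ⟨j, (mem_filter.1 hj).2⟩
  have hbal' : Bal (2 * g + 1) (fun c => (univ.filter (fun j => cls j = c)).card) := by
    have : (fun c : PR (2 * g + 1) => (univ.filter (fun j => cls j = c)).card) =
        fun c => nf (u c.1.1 - u c.1.2) := by
      funext c
      exact hcard c
    rw [this]
    exact hbal
  obtain ⟨Z, hZ1, hZ2, hZ3⟩ := hO g J u κ cls f r G hg hPen hbal' hG
    (fun i j => not_assoc hf hfac (hGu i) j)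
  have hconv : ∀ (N : ℤ) (M L : ℕ), |N| ≤ (M : ℤ) ^ L → N.natAbs ≤ M ^ L := by
    intro N M L h
    have h1 : (N.natAbs : ℤ) ≤ ((M ^ L : ℕ) : ℤ) := by
      rw [Int.natCast_natAbs]
      push_cast
      exact h
    exact_mod_cast h1
  have hinj : ∀ (N : ℤ), Function.Injective (fun t : ℕ => N + (t : ℤ)) := by
    intro N a b hab
    simpa using hab
  have himg : ∀ (N : ℤ) (M : ℕ) (P : ℤ → Prop) (A : Finset ℤ) (B : Finset ℕ),
      (∀ t, t ∈ A ↔ t ∈ Ioc N (N + M) ∧ P t) → (∀ t, t ∈ B ↔ t ∈ Icc 1 M ∧ P (N + (t : ℤ))) →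
      A = B.image (fun t : ℕ => N + (t : ℤ)) := by
    intro N M P A B hA hB
    ext t
    rw [hA]
    rw [mem_Ioc, mem_image]
    constructor
    · rintro ⟨⟨h1, h2⟩, h3⟩
      refine ⟨(t - N).toNat, ?_, ?_⟩
      · rw [hB, mem_Icc]
        have h4 : (((t - N).toNat : ℕ) : ℤ) = t - N := Int.toNat_of_nonneg (by omega)
        refine ⟨⟨by omega, by omega⟩, ?_⟩
        rw [h4, add_sub_cancel]
        exact h3
      · have h4 : (((t - N).toNat : ℕ) : ℤ) = t - N := Int.toNat_of_nonneg (by omega)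
        rw [h4]
        ring
    · rintro ⟨s, h1, rfl⟩
      rw [hB, mem_Icc] at h1
      refine ⟨⟨by omega, by omega⟩, h1.2⟩
  refine ⟨Z, fun t ht => (inj_iff hκ hfac t).2 (hZ1 t ht), fun L ε hε => ?_, fun k L => ?_⟩
  · obtain ⟨X0, hX0⟩ := hZ2 L ε hε
    refine ⟨X0, fun N M hM hN => ?_⟩
    refine le_trans (le_of_eq ?_) (hX0 N M hM (hconv N M L hN))
    rw [himg N M (fun t => AllPr G t ∧ t ∈ Z) _ _ (fun t => mem_filter) (fun t => mem_filter),
      card_image_of_injective _ (hinj N)]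
  · obtain ⟨C, hC⟩ := hZ3 k L
    refine ⟨C, fun N M hM hN => ?_⟩
    refine le_trans (le_of_eq ?_) (hC N M hM (hconv N M L hN))
    rw [himg N M (fun t => AllPr G t ∧ t ∉ Z) _ _ (fun t => mem_filter) (fun t => mem_filter),
      sum_image (fun a _ b _ h => hinj N h)]

end Pool.Agent.TH344.PW
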