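import Mathlib
import Pool.Agent.TH344.PW.Stm2
import Pool.Agent.TH841.PT.AvgW
import Pool.Agent.TH841.PT.AvgG
import Pool.Agent.TH841.PT.Mak3
import Pool.Agent.TH841.PT.Stm5
import Pool.Agent.TH841.PT.CNTH
import Pool.Agent.TH841.PT.SVP
import Pool.Agent.TH841.PT.RSP
import Pool.Agent.TH841.PT.RVU
import Pool.Agent.TH841.PT.GDP
import Pool.Agent.TH841.PT.ANTX
import Pool.Agent.W358.RK2.GR

/-!
# Project PW: exponential moments of the number of the prime factors over sifted arguments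

Written by helper324 for helper344 (job 3758).
-/

set_option autoImplicit false

namespace Pool.Agent.TH344.PW

open Finset Polynomial Pool.Agent.W262.RK Pool.Agent.W307.RT Pool.Agent.W307.RS
open Pool.Agent.TH841.PT Pool.Agent.TH344.JG Pool.Agent.TH344.PJ

open Pool.Agent.H474R2.PG (rho)

/-- the sum over the tuples with one entry -/
lemma sum_Tup_unit (z y : ℕ) (F : ℕ → ℝ) :
    ∑ s ∈ Tup Unit z y, F (s ()) = ∑ d ∈ (PP z y).divisors, F d := by
  refine sum_bij' (fun s _ => s ()) (fun d _ => fun _ => d) (fun s hs => ?_) (fun d hd => ?_)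
    (fun s _ => ?_) (fun d _ => rfl) (fun s _ => rfl)
  · unfold Tup at hs
    exact Fintype.mem_piFinset.1 (mem_filter.1 hs).1 ()
  · unfold Tup
    exact mem_filter.2 ⟨Fintype.mem_piFinset.2 fun _ => hd, fun i j hij => absurd rfl hij⟩
  · rfl

/-- the local weight -/
lemma loc_w {w : ℝ} {c z p : ℕ} (hw : 0 ≤ w) (hwc : w ≤ c) (hz : 2 * c + 2 ≤ z) (hp : z < p) :
    0 ≤ w / ((p : ℝ) - c) ∧
      w / ((p : ℝ) - c) ≤ w / p + 2 * (c : ℝ) ^ 2 * (1 / (p : ℝ) ^ 2) := by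
  have hp1 : (2 * c + 3 : ℝ) ≤ p := by exact_mod_cast (by omega : 2 * c + 3 ≤ p)
  have hc : (0 : ℝ) ≤ c := Nat.cast_nonneg c
  have hp0 : (0 : ℝ) < p := by linarith
  have hpc : (0 : ℝ) < (p : ℝ) - c := by linarith
  refine ⟨by positivity, ?_⟩
  have h3 : w / p + 2 * (c : ℝ) ^ 2 * (1 / (p : ℝ) ^ 2) = (w * p + 2 * (c : ℝ) ^ 2) / p ^ 2 := by
    field_simp
  rw [h3, div_le_div_iff₀ hpc (by positivity)]
  have h4 : w * c ≤ (c : ℝ) ^ 2 := by nlinarith
  have h5 : w * c * p ≤ (c : ℝ) ^ 2 * p := mul_le_mul_of_nonneg_right h4 hp0.le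
  have h6 : (0 : ℝ) ≤ (c : ℝ) ^ 2 * (p - 2 * c) := mul_nonneg (by positivity) (by linarith)
  nlinarith [h5, h6]

/-- the main average -/
lemma full1 (w : ℕ → ℝ) (c z : ℕ) (hw : ∀ p, 0 ≤ w p ∧ w p ≤ c) (hz : 2 * c + 2 ≤ z) :
    ∃ C : ℝ, 0 ≤ C ∧ ∀ y, z < y →
      ∑ s ∈ Tup Unit z y, gp w c (s ()) ≤ C * Real.exp (Sp w z y) := by
  obtain ⟨K, hK, hsq⟩ := Pool.Agent.W655.RK.sum_inv_sq
  refine ⟨Real.exp (2 * (c : ℝ) ^ 2 * K), (Real.exp_pos _).le, fun y _ => ?_⟩
  rw [sum_Tup_unit z y (fun d => gp w c d)]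
  have hl : ∀ p ∈ PS z y, 0 ≤ w p / ((p : ℝ) - c) ∧
      w p / ((p : ℝ) - c) ≤ w p / p + 2 * (c : ℝ) ^ 2 * (1 / (p : ℝ) ^ 2) := fun p hp =>
    loc_w (hw p).1 (hw p).2 hz (mem_PS'.1 hp).1.1
  have h1 : ∑ d ∈ (PP z y).divisors, gp w c d = ∏ p ∈ PS z y, (1 + w p / ((p : ℝ) - c)) :=
    Pool.Agent.W655.RK.sum_mult (PS z y) (fun p hp => (mem_PS'.1 hp).2)
      (fun p => w p / ((p : ℝ) - c))
  rw [h1]
  refine (Pool.Agent.W655.RK.prod_le_exp _ _ fun p hp => by
    have := (hl p hp).1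
    linarith).trans ?_
  rw [← Real.exp_add]
  apply Real.exp_le_exp.2
  calc ∑ p ∈ PS z y, w p / ((p : ℝ) - c)
      ≤ ∑ p ∈ PS z y, (w p / p + 2 * (c : ℝ) ^ 2 * (1 / (p : ℝ) ^ 2)) :=
        sum_le_sum fun p hp => (hl p hp).2
    _ = Sp w z y + 2 * (c : ℝ) ^ 2 * ∑ p ∈ PS z y, 1 / (p : ℝ) ^ 2 := by
        rw [sum_add_distrib, mul_sum]
        rfl
    _ ≤ 2 * (c : ℝ) ^ 2 * K + Sp w z y := by
        have := mul_le_mul_of_nonneg_left (hsq (PS z y))
          (by positivity : (0 : ℝ) ≤ 2 * (c : ℝ) ^ 2)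
        linarith

/-- Mertens for all `X ≥ 2` -/
lemma mert2 {f : ℤ[X]} (hf : Irreducible f) (hd : 0 < f.natDegree) {z : ℕ} (hz : 3 ≤ z) :
    ∃ C : ℝ, 0 ≤ C ∧ ∀ X : ℕ, 2 ≤ X →
      |Sp (fun p => (rho f p : ℝ)) z X - Real.log (Real.log X)| ≤ C := by
  obtain ⟨C, hC0, hC⟩ := mert hf hd hz
  refine ⟨C + |Real.log (Real.log 2)| + |Real.log (Real.log z)|, by positivity, fun X hX => ?_⟩
  have h2 := abs_nonneg (Real.log (Real.log 2))
  have h3 := abs_nonneg (Real.log (Real.log (z : ℝ)))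
  rcases Nat.lt_or_ge z X with hlt | hge
  · have := hC X hlt
    linarith
  · have hS : Sp (fun p => (rho f p : ℝ)) z X = 0 := by
      unfold Sp PS
      rw [Ioc_eq_empty (by omega), filter_empty, sum_empty]
    rw [hS, zero_sub, abs_neg]
    have hX2 : (2 : ℝ) ≤ X := by exact_mod_cast hX
    have hXz : (X : ℝ) ≤ z := by exact_mod_cast hge
    have hl2 : 0 < Real.log 2 := Real.log_pos (by norm_num)
    have h4 : Real.log 2 ≤ Real.log X := Real.log_le_log (by norm_num) hX2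
    have h5 : Real.log X ≤ Real.log z := Real.log_le_log (by linarith) hXz
    have h6 : Real.log (Real.log 2) ≤ Real.log (Real.log X) := Real.log_le_log hl2 h4
    have h7 : Real.log (Real.log X) ≤ Real.log (Real.log z) :=
      Real.log_le_log (hl2.trans_le h4) h5
    rw [abs_le]
    have h8 := neg_abs_le (Real.log (Real.log 2))
    have h9 := le_abs_self (Real.log (Real.log (z : ℝ)))
    constructor <;> linarith

set_option maxHeartbeats 8000000 in
/-- the exponential moments, from the parts -/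
theorem omg_of (hcnt : CNTH) (hant : ANTX) (hrs : RSP) (hrv : RVP) (hru : RUP) (hgd : GDP) :
    S_OMG := by
  intro f G lam B hf hd hDG hlam
  set W0 : ℝ := max lam 1 with hW0def
  have hW1 : 1 ≤ W0 := le_max_right _ _
  have hlW : lam ≤ W0 := le_max_left _ _
  have hW0 : 0 ≤ W0 := by linarith
  obtain ⟨c1, hc1⟩ := exists_nat_ge (W0 * f.natDegree)
  set c : ℕ := (f * G).natDegree + c1 with hc
  have hcW : W0 * f.natDegree ≤ c := by
    rw [hc]
    push_cast
    have : (0 : ℝ) ≤ (f * G).natDegree := Nat.cast_nonneg _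
    linarith
  have hDc : f.natDegree ≤ c := by
    have h1 : (f.natDegree : ℝ) ≤ c := by
      refine le_trans ?_ hcW
      exact le_mul_of_one_le_left (Nat.cast_nonneg _) hW1
    exact_mod_cast h1
  have hD : Squarefree (f.map (Int.castRingHom ℚ)) := by
    rw [Polynomial.map_mul] at hDG
    exact hDG.squarefree_of_dvd (Dvd.intro _ rfl)
  obtain ⟨zg, hzg⟩ := hgd (f * G) hDG
  obtain ⟨zf, hzf⟩ := hgd f hD
  refine ⟨zg + zf + (2 * c + 2) + 4, fun z hz => ?_⟩
  have hgood : GoodD (f * G) z c := fun p hp hzp =>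
    ⟨((hzg z (by omega)) p hp hzp).1.trans (by omega), ((hzg z (by omega)) p hp hzp).2⟩
  obtain ⟨hG, hG2⟩ := good2_of hgood
  have hGdeg : ∀ p : ℕ, p.Prime → z < p → rho f p ≤ f.natDegree := fun p hp hzp =>
    (hzf z (by omega) p hp hzp).1
  obtain ⟨C, K, y0, hC0, hK1, hcn⟩ := hcnt c z (by omega)
  obtain ⟨Kd, hKd⟩ := eval_le f
  obtain ⟨At, hAt0, hAt⟩ := tail_le (z := z) (by omega)
  obtain ⟨Cm, hCm0, hCm⟩ := mert2 hf hd (z := z) (by omega)
  set B' : ℕ := (B + 2) * f.natDegree + 1 with hB'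
  set y1 : ℕ := y0 + Kd + 3 with hy1
  -- the signed weights
  set e : ℕ → ℝ := fun p => (lam - 1) * rho f p with he
  have hl1 : |lam - 1| ≤ W0 := by
    rw [abs_le]
    constructor <;> linarith
  have hec : ∀ p : ℕ, p.Prime → z < p → |e p| ≤ c := by
    intro p hp hzp
    rw [he]
    simp only
    rw [abs_mul, Nat.abs_cast]
    have h2 : (rho f p : ℝ) ≤ f.natDegree := by exact_mod_cast hGdeg p hp hzp
    exact (mul_le_mul hl1 h2 (Nat.cast_nonneg _) hW0).trans hcW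
  have hSe : ∀ y, Sp e z y = Sp (fun p => lam * rho f p) z y - Sp (fun p => (rho f p : ℝ)) z y := by
    intro y
    unfold Sp
    rw [← sum_sub_distrib]
    refine sum_congr rfl fun p _ => ?_
    rw [he]
    ring
  have hSe1 : ∀ y, Sp e z y = (lam - 1) * Sp (fun p => (rho f p : ℝ)) z y := by
    intro y
    unfold Sp
    rw [mul_sum]
    refine sum_congr rfl fun p _ => ?_
    rw [he]
    ring
  -- the summand
  let r : ℤ → ℝ := fun x => lam ^ (f.eval x).natAbs.primeFactors.card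
  have hr0 : ∀ x, 0 ≤ r x := fun x => pow_nonneg hlam.le _
  suffices key : ∃ C2 : ℝ, ∀ θ : {θ : (ℤ × ℕ) × Finset ℕ // (1 ≤ θ.1.2 ∧
      θ.1.1.natAbs ≤ θ.1.2 ^ B) ∧
      θ.2 ⊆ Icc 1 θ.1.2 ∧ ∀ t ∈ θ.2, f.eval (θ.1.1 + (t : ℤ)) ≠ 0 ∧
        Sft G z θ.1.2 (θ.1.1 + (t : ℤ))},
      ∑ t ∈ θ.1.2, r (θ.1.1.1 + (t : ℤ)) ≤
        C2 * ((θ.1.1.2 : ℝ) * Real.exp (-Sp (fun p => (rho G p : ℝ)) z θ.1.1.2) *
          Real.exp (Sp e z θ.1.1.2)) by
    obtain ⟨C2, hC2⟩ := key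
    refine ⟨|C2| * Real.exp (W0 * Cm), fun N X hX hN T hT hT' => ?_⟩
    have h1 := hC2 ⟨((N, X), T), ⟨le_trans one_le_two hX, hN⟩, hT, hT'⟩
    simp only at h1
    refine h1.trans ?_
    have hX2 : (2 : ℝ) ≤ X := by exact_mod_cast hX
    have hlX : 0 < Real.log X := Real.log_pos (by linarith)
    have h2 : Real.exp (Sp e z X) ≤ Real.exp (W0 * Cm) * (Real.log X) ^ (lam - 1) := by
      rw [Real.rpow_def_of_pos hlX, ← Real.exp_add]
      apply Real.exp_le_exp.2
      rw [hSe1]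
      have h3 : (lam - 1) * (Sp (fun p => (rho f p : ℝ)) z X - Real.log (Real.log X)) ≤
          W0 * Cm := by
        refine (le_abs_self _).trans ?_
        rw [abs_mul]
        exact mul_le_mul hl1 (hCm X hX) (abs_nonneg _) hW0
      linarith
    have h3 : 0 ≤ (X : ℝ) * Real.exp (-Sp (fun p => (rho G p : ℝ)) z X) := by positivity
    calc C2 * ((X : ℝ) * Real.exp (-Sp (fun p => (rho G p : ℝ)) z X) * Real.exp (Sp e z X))
        ≤ |C2| * ((X : ℝ) * Real.exp (-Sp (fun p => (rho G p : ℝ)) z X) *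
            Real.exp (Sp e z X)) :=
          mul_le_mul_of_nonneg_right (le_abs_self _) (by positivity)
      _ ≤ |C2| * ((X : ℝ) * Real.exp (-Sp (fun p => (rho G p : ℝ)) z X) *
            (Real.exp (W0 * Cm) * (Real.log X) ^ (lam - 1))) :=
          mul_le_mul_of_nonneg_left (mul_le_mul_of_nonneg_left h2 h3) (abs_nonneg _)
      _ = _ := by ring
  have hcz : c ≤ z := by omega
  have hrd : ∀ p, p.Prime → rz f z p ≤ f.natDegree := by
    intro p hp
    unfold rz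
    split_ifs with h
    · exact_mod_cast hGdeg p hp h
    · exact Nat.cast_nonneg _
  have hDcR : (f.natDegree : ℝ) ≤ c := by exact_mod_cast hDc
  -- the weights for the primes only
  set wd : ℕ → ℝ := fun p => if p.Prime then rz f z p else 0 with hwd
  have hwd0 : ∀ p, 0 ≤ wd p := by
    intro p
    rw [hwd]
    simp only
    split_ifs
    · exact rz_nonneg _ _ _
    · exact le_rfl
  have hwdd : ∀ p, wd p ≤ f.natDegree := by
    intro p
    rw [hwd]
    simp only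
    split_ifs with h
    · exact hrd p h
    · exact Nat.cast_nonneg _
  have hwdc : ∀ p, wd p ≤ c := fun p => (hwdd p).trans hDcR
  set vw : ℕ → ℝ := fun p => lam * wd p with hvw
  have hvw0 : ∀ p, 0 ≤ vw p := fun p => mul_nonneg hlam.le (hwd0 p)
  have hvwc : ∀ p, vw p ≤ c := fun p =>
    (mul_le_mul hlW (hwdd p) (hwd0 p) hW0).trans hcW
  have hgw : ∀ {y d : ℕ}, d ∣ PP z y → gp wd c d = gp (fun p => rho f p) c d := by
    intro y d hdy
    rw [← gp_rz f hdy]
    unfold gp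
    refine prod_congr rfl fun p hp => ?_
    rw [hwd]
    simp only
    rw [if_pos (Nat.prime_of_mem_primeFactors hp)]
  have hgvw : ∀ d, gp vw c d = lam ^ d.primeFactors.card * gp wd c d := by
    intro d
    unfold gp
    rw [← prod_const, ← prod_mul_distrib]
    refine prod_congr rfl fun p hp => ?_
    rw [hvw]
    ring
  have hSpv : ∀ y, Sp vw z y = Sp (fun p => lam * rho f p) z y := by
    intro y
    unfold Sp
    refine sum_congr rfl fun p hp => ?_
    have hp' := mem_PS'.1 hp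
    rw [hvw, hwd]
    simp only
    rw [if_pos hp'.2]
    unfold rz
    rw [if_pos hp'.1.1]
  have hgwn : ∀ {y d : ℕ}, d ∣ PP z y → 0 ≤ gp wd c d := fun hd => gp_nonneg hwd0 hcz hd
  have hgvn : ∀ {y d : ℕ}, d ∣ PP z y → 0 ≤ gp vw c d := fun hd => gp_nonneg hvw0 hcz hd
  have hc1 : 1 ≤ c := le_trans hd hDc
  refine hant Unit ℕ {θ : (ℤ × ℕ) × Finset ℕ // (1 ≤ θ.1.2 ∧ θ.1.1.natAbs ≤ θ.1.2 ^ B) ∧
      θ.2 ⊆ Icc 1 θ.1.2 ∧ ∀ t ∈ θ.2, f.eval (θ.1.1 + (t : ℤ)) ≠ 0 ∧
        Sft G z θ.1.2 (θ.1.1 + (t : ℤ))}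
    (fun θ => θ.1.2)
    (fun θ => θ.1.1.2) (fun θ t _ => f.eval (θ.1.1.1 + (t : ℤ)))
    (fun θ => (θ.1.1.2 : ℝ) * Real.exp (-Sp (fun p => (rho G p : ℝ)) z θ.1.1.2) *
      Real.exp (Sp e z θ.1.1.2)) z
    (fun y => Real.exp (Sp (fun p => lam * rho f p) z y))
    (fun s => 1 * ∏ j, gp vw c (s j))
    (fun v => ∏ j, (W0 ^ (v j).primeFactors.card * (gp wd c (v j) / v j)))
    (fun u => ∏ j, ((c : ℝ) ^ (u j).primeFactors.card / (u j : ℝ)))
    (fun θ t => r (θ.1.1.1 + (t : ℤ)))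
    (C * W0 ^ z * Real.exp (c * At) * Real.exp (c * At)) (W0 ^ B' * Real.exp c * Real.exp c)
    (K + 2) y1
    (by omega) (fun y _ => Real.exp_pos _)
    (fun θ => θ.2.1.1) (fun θ => by positivity) (fun X0 => ?_) (fun θ t ht => ?_)
    (fun θ t => hr0 _) (by positivity)
    (one_le_mul_of_one_le_of_one_le (one_le_mul_of_one_le_of_one_le (one_le_pow₀ hW1)
      (Real.one_le_exp (Nat.cast_nonneg _))) (Real.one_le_exp (Nat.cast_nonneg _))) (by omega)
    (fun y s hs => ⟨?_, ?_⟩) (fun y Y _ u hu => ?_) (fun la hla => ?_)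
    (fun la hla => ?_) (fun la hla => ?_) ?_
  · -- small scales
    refine ⟨(∑ N ∈ Icc (-((X0 : ℤ) ^ B)) ((X0 : ℤ) ^ B), ∑ t ∈ Icc 1 X0, r (N + (t : ℤ))) *
      (Real.exp (Sp (fun p => (rho G p : ℝ)) z X0) * Real.exp (Sp (fun _ => (c : ℝ)) z X0)), ?_⟩
    rintro ⟨⟨⟨N, X⟩, T⟩, ⟨hX, hN⟩, hT, hT'⟩ hle
    simp only at hX hN hT hT' hle ⊢
    have hX0 : X ^ B ≤ X0 ^ B := Nat.pow_le_pow_left hle B
    have hmem : N ∈ Icc (-((X0 : ℤ) ^ B)) ((X0 : ℤ) ^ B) := by
      rw [mem_Icc]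
      have h1 : (N.natAbs : ℤ) ≤ (X0 : ℤ) ^ B := by exact_mod_cast hN.trans hX0
      omega
    have h1 : ∑ t ∈ T, r (N + (t : ℤ)) ≤ ∑ t ∈ Icc 1 X0, r (N + (t : ℤ)) := by
      refine sum_le_sum_of_subset_of_nonneg ?_ fun t _ _ => hr0 _
      exact hT.trans (Icc_subset_Icc_right hle)
    have h2 : ∑ t ∈ Icc 1 X0, r (N + (t : ℤ)) ≤
        ∑ N ∈ Icc (-((X0 : ℤ) ^ B)) ((X0 : ℤ) ^ B), ∑ t ∈ Icc 1 X0, r (N + (t : ℤ)) :=
      single_le_sum (f := fun N : ℤ => ∑ t ∈ Icc 1 X0, r (N + (t : ℤ)))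
        (fun _ _ => sum_nonneg fun _ _ => hr0 _) hmem
    have h3 : 0 ≤ ∑ N ∈ Icc (-((X0 : ℤ) ^ B)) ((X0 : ℤ) ^ B), ∑ t ∈ Icc 1 X0, r (N + (t : ℤ)) :=
      sum_nonneg fun _ _ => sum_nonneg fun _ _ => hr0 _
    have h4 : (1 : ℝ) ≤ (X : ℝ) := by exact_mod_cast hX
    have h5 : Sp (fun p => (rho G p : ℝ)) z X ≤ Sp (fun p => (rho G p : ℝ)) z X0 := by
      unfold Sp
      refine sum_le_sum_of_subset_of_nonneg ?_ fun p _ _ =>
        div_nonneg (Nat.cast_nonneg _) (Nat.cast_nonneg _)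
      intro p hp
      have := mem_PS'.1 hp
      exact mem_PS'.2 ⟨⟨this.1.1, this.1.2.trans hle⟩, this.2⟩
    have h5' : -Sp e z X ≤ Sp (fun _ => (c : ℝ)) z X0 := by
      unfold Sp
      rw [← sum_neg_distrib]
      refine le_trans (sum_le_sum (g := fun p : ℕ => (c : ℝ) / (p : ℝ)) fun p hp => ?_)
        (sum_le_sum_of_subset_of_nonneg ?_ fun p _ _ => by positivity)
      · have hp' := mem_PS'.1 hp
        rw [← neg_div]
        refine div_le_div_of_nonneg_right ?_ (Nat.cast_nonneg _)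
        have := (abs_le.1 (hec p hp'.2 hp'.1.1)).1
        linarith
      · intro p hp
        have := mem_PS'.1 hp
        exact mem_PS'.2 ⟨⟨this.1.1, this.1.2.trans hle⟩, this.2⟩
    have h6 : (1 : ℝ) ≤ Real.exp (Sp (fun p => (rho G p : ℝ)) z X0) *
        Real.exp (Sp (fun _ => (c : ℝ)) z X0) *
        (Real.exp (-Sp (fun p => (rho G p : ℝ)) z X) * Real.exp (Sp e z X)) := by
      rw [← Real.exp_add, ← Real.exp_add, ← Real.exp_add]
      exact Real.one_le_exp (by linarith)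
    have h7 : (1 : ℝ) ≤ Real.exp (Sp (fun p => (rho G p : ℝ)) z X0) *
        Real.exp (Sp (fun _ => (c : ℝ)) z X0) *
        (X * Real.exp (-Sp (fun p => (rho G p : ℝ)) z X) * Real.exp (Sp e z X)) := by
      have := mul_le_mul h4 h6 zero_le_one (by linarith : (0 : ℝ) ≤ X)
      calc (1 : ℝ) = 1 * 1 := by ring
        _ ≤ X * (Real.exp (Sp (fun p => (rho G p : ℝ)) z X0) *
            Real.exp (Sp (fun _ => (c : ℝ)) z X0) *
            (Real.exp (-Sp (fun p => (rho G p : ℝ)) z X) * Real.exp (Sp e z X))) := this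
        _ = _ := by ring
    rw [mul_assoc]
    exact (h1.trans h2).trans (le_mul_of_one_le_right h3 h7)
  · -- good values
    refine ⟨fun _ => (θ.2.2.2 t ht).1, fun p hp hzp j l hjl _ => absurd rfl hjl⟩
  · rw [one_mul]
    exact prod_nonneg fun j _ => hgvn (Tup_unit hs)
  · exact prod_nonneg fun j _ => mul_nonneg (by positivity)
      (div_nonneg (hgwn (Tup_unit hs)) (Nat.cast_nonneg _))
  · exact prod_nonneg fun j _ => by positivity
  · -- the first sum
    obtain ⟨C', hC'0, hC'⟩ := full1 vw c z (fun p => ⟨hvw0 p, hvwc p⟩) (by omega)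
    obtain ⟨A, hA⟩ := hrs Unit z c (fun _ => vw) (fun _ => 1)
      (fun y => C' * Real.exp (Sp (fun p => lam * rho f p) z y)) 1 la (by omega)
      (fun _ p => ⟨hvw0 p, hvwc p⟩) le_rfl hla (fun _ => zero_le_one)
      (fun y hy s e hse => by simp)
      (fun y hy => by
        have h1 := hC' y hy
        rw [hSpv] at h1
        simpa using h1)
    refine ⟨A * C', fun y hy => ?_⟩
    have := hA y hy
    rw [mul_assoc]
    exact this
  · exact hrv Unit z c (fun _ => wd) W0 la (by omega)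
      (fun _ p => ⟨hwd0 p, hwdc p⟩) hW1 hla
  · exact hru Unit (c : ℝ) la (by exact_mod_cast hc1) hla
  -- the local majorant
  rintro ⟨⟨⟨N, X⟩, T⟩, ⟨hX1, hN⟩, hT, hTT⟩ y Y k hy0 hzy hyK hk s hs v hv u hu h8 T' hT' hval
  simp only at hX1 hN hT hTT hyK hk h8 hT' hval ⊢
  have hy00 : y0 ≤ y := by omega
  have hyX : y ≤ X := le_trans (Nat.le_self_pow (by omega) y) hyK
  have hyK' : y ^ K ≤ X := (Nat.pow_le_pow_right (by omega) (by omega)).trans hyK
  have hy2 : y ^ 2 ≤ X := (Nat.pow_le_pow_right (by omega) (by omega)).trans hyK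
  set Vc : ℝ := W0 ^ z * (W0 ^ B') ^ k * W0 ^ (v ()).primeFactors.card *
    lam ^ (s ()).primeFactors.card with hVc
  have hV0 : 0 ≤ Vc := by positivity
  have h1 : ∀ t ∈ T', r (N + (t : ℤ)) ≤ Vc := by
    intro t ht
    have htT := hT' ht
    have ht1 := hT htT
    have ht0 := (hTT t htT).1
    obtain ⟨hts, htv, _⟩ := hval t ht
    have hsize : (f.eval (N + (t : ℤ))).natAbs ≤ X ^ B' := by
      have e2 : t ≤ X := (mem_Icc.1 ht1).2
      have e5 : X ^ B ≤ X ^ (B + 1) := Nat.pow_le_pow_right hX1 (by omega)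
      have e6 : X ≤ X ^ (B + 1) := Nat.le_self_pow (by omega) X
      have e7 : 1 ≤ X ^ (B + 1) := Nat.one_le_pow _ _ hX1
      have e8 : (N + (t : ℤ)).natAbs ≤ X ^ (B + 2) := by
        calc (N + (t : ℤ)).natAbs ≤ N.natAbs + t :=
              (Int.natAbs_add_le _ _).trans (by rw [Int.natAbs_natCast])
          _ ≤ X ^ (B + 1) + X ^ (B + 1) := Nat.add_le_add (hN.trans e5) (e2.trans e6)
          _ = 2 * X ^ (B + 1) := by ring
          _ ≤ X * X ^ (B + 1) := Nat.mul_le_mul_right _ (by omega)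
          _ = X ^ (B + 2) := by ring
      calc (f.eval (N + (t : ℤ))).natAbs ≤ Kd * (X ^ (B + 2)) ^ f.natDegree :=
            hKd _ _ (Nat.one_le_pow _ _ hX1) e8
        _ ≤ X * (X ^ (B + 2)) ^ f.natDegree := Nat.mul_le_mul_right _ (by omega)
        _ = X ^ B' := by rw [hB', ← pow_mul]; ring
    have hF := Fw_le (w := fun _ => lam) (W0 := W0) (z1 := 0) (fun _ => hlam.le) (fun _ => hlW)
      hW1 ht0 hsize hk (Nat.zero_le z)
    have es1 : S1 z y (fun _ : Unit => f.eval (N + (t : ℤ))) = s := hts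
    have es2 : S2 z y (fun _ : Unit => f.eval (N + (t : ℤ))) = v := htv
    rw [es1, es2, prod_const] at hF
    refine le_trans ?_ hF
    change lam ^ (f.eval (N + (t : ℤ))).natAbs.primeFactors.card ≤ _
    unfold Fw
    rw [← prod_const]
    refine prod_le_prod (fun _ _ => hlam.le) fun p _ => ?_
    split_ifs
    · exact hlW
    · exact le_rfl
  set SG : ℝ := Real.exp (-Sp (fun p => (rho G p : ℝ)) z X) with hSG
  set SX : ℝ := Real.exp (Sp e z X) with hSX
  set SH : ℝ := Real.exp (Sp (fun p => lam * rho f p) z y) with hSH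
  have hexp : Real.exp (-Sp (fun p => (rho f p : ℝ)) z y) ≤
      Real.exp (c * At) * (Real.exp c) ^ k * SX / SH := by
    rw [hSX, hSH, div_eq_mul_inv, ← Real.exp_neg, ← Real.exp_nat_mul, ← Real.exp_add,
      ← Real.exp_add, ← Real.exp_add]
    apply Real.exp_le_exp.2
    have h3 := Sp_signed hec hzy hyX (hAt y X k hzy hk)
    rw [hSe] at h3
    linarith
  have hGc : ∀ p : ℕ, p.Prime → z < p → rho G p ≤ c := fun p hp hzp =>
    (Nat.le_add_left _ _).trans (hG2 p hp hzp).1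
  have hexpG := exp_G hGc hzy (hAt y X k hzy hk)
  have h8' : (s () * v () * u ()) ^ 8 ≤ X := by simpa using h8
  have hden : ∀ {d : ℕ}, d ∣ PP z y → 0 ≤ gp (fun p => rho f p) c d := fun hd =>
    gp_nonneg (fun _ => Nat.cast_nonneg _) hcz hd
  have n1 := hden (Tup_unit hs)
  have n2 := hden (Tup_unit hv)
  set Q : ℝ := C * X * gp (fun p => rho f p) c (s ()) *
        (gp (fun p => rho f p) c (v ()) / v ()) * ((c : ℝ) ^ (u ()).primeFactors.card / u ()) *
        (Real.exp (c * At) * (Real.exp c) ^ k * SX / SH) *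
        (Real.exp (c * At) * (Real.exp c) ^ k * SG) with hQ
  have h3 : (T'.card : ℝ) ≤ Q := by
    have hm := hcn f G hG hG2 Unit (fun _ _ => ()) (fun _ _ => -1) (fun _ _ _ _ => rfl)
      (fun _ _ _ _ => ⟨rfl, Or.inr rfl⟩) N X y Y hy00 hzy hyK' (s ()) (v ()) (u ()) (Tup_unit hs)
      (Tup_unit hv) (Tup_unit hu) h8' (fun _ => ()) ∅ ∅ (empty_subset _)
    have h4 : T' ⊆ SetH f G (fun _ _ => ()) (fun _ _ => -1) z y N X (s ()) (v ()) (u ())
        (fun _ => ()) ∅ ∅ := by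
      intro t ht
      obtain ⟨hts, htv, htu⟩ := hval t ht
      unfold SetH
      simp only [mem_filter]
      refine ⟨hT (hT' ht), congrFun hts (), congrFun htv (), htu (), fun _ _ _ => trivial,
        fun p hp => absurd hp (notMem_empty p), fun p hp => ?_⟩
      have hp' := mem_PS'.1 hp
      exact (hTT t (hT' ht)).2 p hp'.2 hp'.1.1
        ((Nat.pow_le_pow_left hp'.1.2 2).trans hy2)
    have h5 : (T'.card : ℝ) ≤ _ := le_trans (by exact_mod_cast card_le_card h4) hm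
    refine h5.trans ?_
    simp only [rhoT_unit]
    have e1 : ∏ p ∈ (s ()).primeFactors, (rho f p : ℝ) / ((p : ℝ) - c) =
        gp (fun p => rho f p) c (s ()) := rfl
    have e2 : ∏ p ∈ (v ()).primeFactors, (rho f p : ℝ) / ((p : ℝ) - c) =
        gp (fun p => rho f p) c (v ()) := rfl
    have e3 : ∏ p ∈ (u ()).primeFactors, (rho f p : ℝ) ≤ (c : ℝ) ^ (u ()).primeFactors.card := by
      rw [← prod_const]
      refine prod_le_prod (fun p _ => Nat.cast_nonneg _) fun p hp => ?_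
      have hpp := Nat.prime_of_mem_primeFactors hp
      have := prime_gt (Tup_unit hu) hp
      exact_mod_cast (hG p hpp (by omega)).1
    rw [e1, e2, hQ, card_empty, pow_zero, mul_one]
    refine mul_le_mul ?_ hexpG (Real.exp_pos _).le (by positivity)
    refine mul_le_mul ?_ hexp (Real.exp_pos _).le (by positivity)
    refine mul_le_mul_of_nonneg_left (div_le_div_of_nonneg_right e3 (Nat.cast_nonneg _)) ?_
    positivity
  calc ∑ t ∈ T', r (N + (t : ℤ))
      ≤ ∑ t ∈ T', Vc := sum_le_sum h1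
    _ = (T'.card : ℝ) * Vc := by rw [sum_const, nsmul_eq_mul]
    _ ≤ Q * Vc := mul_le_mul_of_nonneg_right h3 hV0
    _ = _ := by
        have e3 : gp vw c (s ()) = lam ^ (s ()).primeFactors.card *
            gp (fun p => rho f p) c (s ()) := by
          rw [hgvw, hgw (Tup_unit hs)]
        have e4 : gp wd c (v ()) = gp (fun p => rho f p) c (v ()) := hgw (Tup_unit hv)
        have e5 : ∀ F : Unit → ℝ, ∏ j, F j = F () := fun F => by simp
        rw [e5, e5, e5, e3, e4, hQ, hVc]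
        simp only [mul_pow]
        ring

/-- **PW-OMG** -/
theorem omg : S_OMG :=
  omg_of (CNTHf.cnth_of SVPf.svp) (ANTXf.antx_of Pool.Agent.W358.RK2.gr) RSPf.rsp RVU.rvp RVU.rup
    GDPf.gdp

end Pool.Agent.TH344.PW
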