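import Mathlib
import Pool.Agent.TH344.PW.Main
import Pool.Agent.TH344.PW.Omg

/-!
# Project PW: all the moments at prime arguments
-/

set_option autoImplicit false

namespace Pool.Agent.TH344.PW

theorem penq : S_PENQ := penq_om omg

end Pool.Agent.TH344.PW
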