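import Mathlib
import Pool.Agent.TH344.PW.Intr
import Pool.Agent.TH344.PW.Main2
import Pool.Agent.TH344.GT.Prod

/-!
# Project PW: all the moments of the products over a finite set of twists
-/

set_option autoImplicit false

namespace Pool.Agent.TH344.PW

open Finset Polynomial Pool.Agent.TH841.PT Pool.Agent.TH344.JG Pool.Agent.TH344.PJ

/-- the family multiplied by a constant -/
lemma gen_mul {n : ℕ} {u : Fin n → ℤ[X]} (hu : Gen u) {e : ℤ} (he : e ≠ 0) :
    Gen (fun i => C e * u i) := by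
  have h1 : ∀ i j, (C e * u i - C e * u j).map (Int.castRingHom ℚ) =
      C ((e : ℤ) : ℚ) * (u i - u j).map (Int.castRingHom ℚ) := by
    intro i j
    rw [← mul_sub, Polynomial.map_mul, Polynomial.map_C]
    rfl
  have he' : IsUnit (C ((e : ℤ) : ℚ) : ℚ[X]) := by
    rw [Polynomial.isUnit_C, isUnit_iff_ne_zero]
    exact_mod_cast he
  refine ⟨fun i j hij => ?_, fun i j k l hij hkl hne => ?_⟩
  · rw [h1]
    have h2 : Associated ((u i - u j).map (Int.castRingHom ℚ))
        (C ((e : ℤ) : ℚ) * (u i - u j).map (Int.castRingHom ℚ)) :=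
      ⟨he'.unit, by rw [IsUnit.unit_spec, mul_comm]⟩
    exact (h2.squarefree_iff).1 (hu.sqf i j hij)
  · rw [h1, h1, isCoprime_mul_unit_left he']
    exact hu.cop i j k l hij hkl hne

lemma nf_mul {p : ℤ[X]} {e : ℤ} (he : e ≠ 0) (hp : p.map (Int.castRingHom ℚ) ≠ 0) :
    nf (C e * p) = nf p := by
  unfold nf
  have he' : IsUnit (C ((e : ℤ) : ℚ) : ℚ[X]) := by
    rw [Polynomial.isUnit_C, isUnit_iff_ne_zero]
    exact_mod_cast he
  have h1 : (C e * p).map (Int.castRingHom ℚ) = C ((e : ℤ) : ℚ) * p.map (Int.castRingHom ℚ) := by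
    rw [Polynomial.map_mul, Polynomial.map_C]
    rfl
  rw [h1, UniqueFactorizationMonoid.normalizedFactors_mul he'.ne_zero hp,
    UniqueFactorizationMonoid.normalizedFactors_of_isUnit he', zero_add]

open Classical in
/-- **all the moments of the products of the orders of the 2-Selmer groups of finitely many twists of
a family, at prime arguments** -/
theorem gen_twists (g : ℕ) (hg : 1 ≤ g)
    (u : Fin (2 * g + 1) → ℤ[X]) (hu : Gen u)
    (hpos : ∀ c : PR (2 * g + 1), nf (u c.1.1 - u c.1.2) ≠ 0)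
    (hbal : Bal (2 * g + 1) (fun c => nf (u c.1.1 - u c.1.2)))
    {r : ℕ} {G : Fin r → ℤ[X]} (hG : Irr G)
    (hGu : ∀ l i j, i < j → IsCoprime ((G l).map (Int.castRingHom ℚ))
      ((u i - u j).map (Int.castRingHom ℚ))) {ι : Type} [Fintype ι] [Nonempty ι] (e : ι → ℤ)
    (he : ∀ b, e b ≠ 0) :
    ∃ Z : Set ℤ, (∀ t, t ∉ Z → NDeg u t) ∧
      (∀ (L : ℕ) (ε : ℝ), 0 < ε → ∃ M0 : ℕ, ∀ (N : ℤ) (M : ℕ), M0 ≤ M → |N| ≤ (M : ℤ) ^ L →
        (((Ioc N (N + M)).filter (fun t => AllPr G t ∧ t ∈ Z)).card : ℝ) ≤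
          ε * (M / (Real.log M) ^ r)) ∧
      ∀ k L : ℕ, ∃ C : ℝ, ∀ (N : ℤ) (M : ℕ), 2 ≤ M → |N| ≤ (M : ℤ) ^ L →
        ∑ t ∈ (Ioc N (N + M)).filter (fun t => AllPr G t ∧ t ∉ Z),
          (∏ b, ((SelJ (fun i => e b * (u i).eval t)).ncard : ℝ)) ^ k ≤
            C * (M / (Real.log M) ^ r) := by
  have hsub : ∀ (b : ι) (i j), C (e b) * u i - C (e b) * u j = C (e b) * (u i - u j) := by
    intro b i j
    ring
  have hne : ∀ c : PR (2 * g + 1), (u c.1.1 - u c.1.2).map (Int.castRingHom ℚ) ≠ 0 := by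
    intro c h0
    apply hpos c
    unfold nf
    rw [h0, UniqueFactorizationMonoid.normalizedFactors_zero, Multiset.card_zero]
  have hnf : ∀ (b : ι) (c : PR (2 * g + 1)),
      nf (C (e b) * u c.1.1 - C (e b) * u c.1.2) = nf (u c.1.1 - u c.1.2) := by
    intro b c
    rw [hsub, nf_mul (he b) (hne c)]
  choose Z hZ1 hZ2 hZ3 using fun b => gen_prime penq g hg (fun i => C (e b) * u i)
    (gen_mul hu (he b)) (fun c => by rw [hnf b c]; exact hpos c)
    (by simp only [hnf b]; exact hbal) hG (by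
      intro l i j hij
      rw [hsub, Polynomial.map_mul, Polynomial.map_C]
      have he' : IsUnit (C ((Int.castRingHom ℚ) (e b)) : ℚ[X]) := by
        rw [Polynomial.isUnit_C, isUnit_iff_ne_zero]
        simpa using he b
      exact (isCoprime_mul_unit_left_right he' _ _).2 (hGu l i j hij))
  refine ⟨⋃ b, Z b, fun t ht => ?_, fun L ε hε => ?_, fun k L => ?_⟩
  · obtain ⟨b⟩ := ‹Nonempty ι›
    have h1 : t ∉ Z b := fun h => ht (Set.mem_iUnion.2 ⟨b, h⟩)
    have h2 := hZ1 b t h1
    intro i j hij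
    apply h2
    have h3 : (u i).eval t = (u j).eval t := hij
    simp only [eval_mul, eval_C]
    rw [h3]
  · have hc : (0 : ℝ) < Fintype.card ι := by exact_mod_cast Fintype.card_pos
    choose M0 hM0 using fun b => hZ2 b L (ε / Fintype.card ι) (by positivity)
    refine ⟨∑ b, M0 b, fun N M hM hN => ?_⟩
    calc (((Ioc N (N + M)).filter (fun t => AllPr G t ∧ t ∈ ⋃ b, Z b)).card : ℝ)
        ≤ ∑ b, (((Ioc N (N + M)).filter (fun t => AllPr G t ∧ t ∈ Z b)).card : ℝ) := by
          have h1 : (Ioc N (N + M)).filter (fun t => AllPr G t ∧ t ∈ ⋃ b, Z b) ⊆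
              univ.biUnion (fun b => (Ioc N (N + M)).filter (fun t => AllPr G t ∧ t ∈ Z b)) := by
            intro t ht
            rw [mem_filter, Set.mem_iUnion] at ht
            obtain ⟨h1, h2, b, hb⟩ := ht
            rw [mem_biUnion]
            exact ⟨b, mem_univ b, mem_filter.2 ⟨h1, h2, hb⟩⟩
          exact_mod_cast (card_le_card h1).trans card_biUnion_le
      _ ≤ ∑ b : ι, ε / Fintype.card ι * (M / (Real.log M) ^ r) :=
          sum_le_sum fun b _ => hM0 b N M ((single_le_sum (fun b _ => Nat.zero_le _)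
            (mem_univ b)).trans hM) hN
      _ = _ := by
          rw [sum_const, card_univ, nsmul_eq_mul]
          field_simp
  · choose CT hCT using fun b => hZ3 b (Fintype.card ι * k) L
    refine ⟨∑ b, CT b, fun N M hM hN => ?_⟩
    set S := (Ioc N (N + M)).filter (fun t => AllPr G t ∧ t ∉ ⋃ b, Z b) with hS
    calc ∑ t ∈ S, (∏ b, ((SelJ (fun i => e b * (u i).eval t)).ncard : ℝ)) ^ k
        ≤ ∑ t ∈ S, ∑ b, ((SelJ (fun i => e b * (u i).eval t)).ncard : ℝ) ^
            (Fintype.card ι * k) :=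
          sum_le_sum fun t _ => Pool.Agent.TH344.GT.prod_pow_le' _ (fun b => Nat.cast_nonneg _) k
      _ = ∑ b, ∑ t ∈ S, ((SelJ (fun i => e b * (u i).eval t)).ncard : ℝ) ^
            (Fintype.card ι * k) := sum_comm
      _ ≤ ∑ b, CT b * (M / (Real.log M) ^ r) := by
          refine sum_le_sum fun b _ => le_trans ?_ (hCT b N M hM hN)
          have h1 : S ⊆ (Ioc N (N + M)).filter (fun t => AllPr G t ∧ t ∉ Z b) := by
            intro t ht
            rw [hS, mem_filter] at ht
            rw [mem_filter]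
            exact ⟨ht.1, ht.2.1, fun h => ht.2.2 (Set.mem_iUnion.2 ⟨b, h⟩)⟩
          refine le_trans (sum_le_sum_of_subset_of_nonneg h1 fun t _ _ => by positivity) ?_
          apply le_of_eq
          apply sum_congr rfl
          intro t _
          simp only [eval_mul, eval_C]
      _ = _ := by rw [sum_mul]

end Pool.Agent.TH344.PW
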